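import Pool.Agent.Helper33.NCP.Defs

/-!
Balls for word metrics, straight subgroups, Schreier generators.
-/

open Set

namespace Helper33.NCP

variable {G : Type*} [Group G]

theorem inBall_one (S : Set G) (n : ℕ) : InBall S n 1 := ⟨[], by simp, by simp, by simp⟩

theorem InBall.mono {S : Set G} {m n : ℕ} {g : G} (h : InBall S m g) (hmn : m ≤ n) :
    InBall S n g := by
  obtain ⟨l, h1, h2, h3⟩ := h
  exact ⟨l, h1.trans hmn, h2, h3⟩

theorem InBall.mono_set {S S' : Set G} {n : ℕ} {g : G} (h : InBall S n g) (hS : S ⊆ S') :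
    InBall S' n g := by
  obtain ⟨l, h1, h2, h3⟩ := h
  exact ⟨l, h1, fun x hx => (h2 x hx).imp (fun y => hS y) (fun y => hS y), h3⟩

theorem InBall.mul {S : Set G} {m n : ℕ} {g g' : G} (h : InBall S m g) (h' : InBall S n g') :
    InBall S (m + n) (g * g') := by
  obtain ⟨l, h1, h2, h3⟩ := h
  obtain ⟨l', h1', h2', h3'⟩ := h'
  refine ⟨l ++ l', by simp; omega, ?_, by simp [h3, h3']⟩
  intro x hx
  rcases List.mem_append.1 hx with hx | hx
  · exact h2 x hx
  · exact h2' x hx

theorem InBall.inv {S : Set G} {n : ℕ} {g : G} (h : InBall S n g) : InBall S n g⁻¹ := by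
  obtain ⟨l, h1, h2, h3⟩ := h
  refine ⟨(l.map fun x => x⁻¹).reverse, by simpa using h1, ?_, ?_⟩
  · intro x hx
    rw [List.mem_reverse, List.mem_map] at hx
    obtain ⟨y, hy, rfl⟩ := hx
    rw [inv_inv]
    exact (h2 y hy).symm
  · rw [← h3, List.prod_inv_reverse]

theorem inBall_of_mem {S : Set G} {g : G} (h : g ∈ S) : InBall S 1 g :=
  ⟨[g], by simp, by simpa using Or.inl h, by simp⟩

theorem InBall.bind {S S' : Set G} {k n : ℕ} {g : G} (hS : ∀ x ∈ S', InBall S k x)
    (h : InBall S' n g) : InBall S (k * n) g := by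
  obtain ⟨l, h1, h2, h3⟩ := h
  have key : ∀ l : List G, (∀ x ∈ l, x ∈ S' ∨ x⁻¹ ∈ S') → InBall S (k * l.length) l.prod := by
    intro l
    induction l with
    | nil => intro _; exact inBall_one _ _
    | cons a l ih =>
      intro hl
      have ha : InBall S k a := by
        rcases hl a (by simp) with ha | ha
        · exact hS a ha
        · have := (hS _ ha).inv
          rwa [inv_inv] at this
      have := ha.mul (ih fun x hx => hl x (by simp [hx]))
      rw [List.prod_cons, List.length_cons]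
      exact this.mono (by ring_nf; omega)
  rw [← h3]
  exact (key l h2).mono (Nat.mul_le_mul_left _ h1)

theorem InBall.pow {S : Set G} {n : ℕ} {g : G} (h : InBall S n g) (m : ℕ) :
    InBall S (n * m) (g ^ m) := by
  induction m with
  | zero => simpa using inBall_one S 0
  | succ m ih =>
    rw [pow_succ]
    exact (ih.mul h).mono (by ring_nf; omega)

theorem InBall.zpow {S : Set G} {n : ℕ} {g : G} (h : InBall S n g) (m : ℤ) :
    InBall S (n * m.natAbs) (g ^ m) := by
  rcases Int.eq_nat_or_neg m with ⟨k, rfl | rfl⟩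
  · simpa using h.pow k
  · rw [zpow_neg, zpow_natCast]
    simpa using (h.pow k).inv

theorem inBall_of_mem_closure {S : Set G} {g : G} (h : g ∈ Subgroup.closure S) :
    ∃ n : ℕ, InBall S n g := by
  induction h using Subgroup.closure_induction with
  | mem x hx => exact ⟨1, inBall_of_mem hx⟩
  | one => exact ⟨0, inBall_one _ _⟩
  | mul x y _ _ hx hy =>
    obtain ⟨m, hm⟩ := hx
    obtain ⟨n, hn⟩ := hy
    exact ⟨m + n, hm.mul hn⟩
  | inv x _ hx =>
    obtain ⟨m, hm⟩ := hx
    exact ⟨m, hm.inv⟩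

theorem InBall.mem_closure {S : Set G} {n : ℕ} {g : G} (h : InBall S n g) :
    g ∈ Subgroup.closure S := by
  obtain ⟨l, -, h2, h3⟩ := h
  rw [← h3]
  apply Subgroup.list_prod_mem
  intro x hx
  rcases h2 x hx with h | h
  · exact Subgroup.subset_closure h
  · have := Subgroup.inv_mem _ (Subgroup.subset_closure h)
    rwa [inv_inv] at this

theorem exists_uniform {S S' : Set G} (hfin : S'.Finite) (hS : S' ⊆ Subgroup.closure S) :
    ∃ k : ℕ, ∀ x ∈ S', InBall S k x := by
  classical
  have : ∀ x : G, ∃ k : ℕ, x ∈ S' → InBall S k x := by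
    intro x
    by_cases hx : x ∈ S'
    · obtain ⟨n, hn⟩ := inBall_of_mem_closure (hS hx)
      exact ⟨n, fun _ => hn⟩
    · exact ⟨0, fun h => (hx h).elim⟩
  choose k hk using this
  obtain ⟨B, hB⟩ := (hfin.image k).bddAbove
  exact ⟨B, fun x hx => (hk x hx).mono (hB ⟨x, hx, rfl⟩)⟩

/-- representatives inside a subset -/
theorem exists_reps {α β : Type*} [Finite β] (f : α → β) (P : α → Prop) :
    ∃ R : Set α, R.Finite ∧ (∀ r ∈ R, P r) ∧ ∀ a, P a → ∃ r ∈ R, f a = f r := by
  classical
  set ρ : Set β := {b | ∃ a, P a ∧ f a = b} with hρ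
  have hch : ∀ b : ρ, ∃ a, P a ∧ f a = b := fun b => b.2
  choose g hg using hch
  refine ⟨Set.range g, Set.finite_range g, ?_, ?_⟩
  · rintro _ ⟨b, rfl⟩
    exact (hg b).1
  · intro a ha
    exact ⟨g ⟨f a, a, ha, rfl⟩, ⟨_, rfl⟩, (hg ⟨f a, a, ha, rfl⟩).2.symm⟩

/-- Schreier generators: a subgroup `K` of finite index in a group with a finite set `S`
contains a finite set `T` such that every element of `K` of `S`-length at most `n` has
`T`-length at most `n + 2`. -/
theorem schreier (K : Subgroup G) [K.FiniteIndex] {S : Set G} (hS : S.Finite) :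
    ∃ T : Set G, T.Finite ∧ T ⊆ K ∧ ∀ n : ℕ, ∀ k ∈ K, InBall S n k → InBall T (n + 2) k := by
  classical
  -- right coset representatives
  have hfin : Finite (Quotient (QuotientGroup.rightRel K)) := by
    have := Subgroup.finite_quotient_of_finiteIndex (H := K)
    exact Finite.of_equiv _ (QuotientGroup.quotientRightRelEquivQuotientLeftRel K).symm
  set ρ : G → G := fun g =>
    Quotient.out (Quotient.mk (QuotientGroup.rightRel K) g) with hρ
  have hρfin : (Set.range ρ).Finite := by
    have : Set.range ρ ⊆ Set.range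
        (fun q : Quotient (QuotientGroup.rightRel K) => Quotient.out q) := by
      rintro _ ⟨g, rfl⟩
      exact ⟨_, rfl⟩
    exact (Set.finite_range _).subset this
  have hρ1 : ∀ g, g * (ρ g)⁻¹ ∈ K := by
    intro g
    have h1 : (QuotientGroup.rightRel K).r (ρ g) g := Quotient.mk_out (s := QuotientGroup.rightRel K) g
    exact (QuotientGroup.rightRel_apply).1 h1
  have hρ2 : ∀ g g', g * g'⁻¹ ∈ K → ρ g = ρ g' := by
    intro g g' hgg
    simp only [hρ]
    congr 1
    apply Quotient.sound
    show (QuotientGroup.rightRel K).r g g'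
    apply (QuotientGroup.rightRel_apply).2
    have := K.inv_mem hgg
    rwa [mul_inv_rev, inv_inv] at this
  set T₀ : Set G := Set.image2 (fun r s => r * s * (ρ (r * s))⁻¹) (Set.range ρ) (S ∪ S⁻¹) with hT₀
  refine ⟨T₀ ∪ {ρ 1}, ?_, ?_, ?_⟩
  · apply Set.Finite.union _ (Set.finite_singleton _)
    exact Set.Finite.image2 _ hρfin (hS.union hS.inv)
  · rintro t (ht | ht)
    · obtain ⟨r, -, s, -, rfl⟩ := ht
      exact hρ1 _
    · rw [Set.mem_singleton_iff.1 ht]
      have := K.inv_mem (hρ1 1)
      simpa using this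
  · intro n k hk hball
    obtain ⟨l, h1, h2, h3⟩ := hball
    have key : ∀ l : List G, (∀ x ∈ l, x ∈ S ∨ x⁻¹ ∈ S) → ∀ g : G,
        InBall (T₀ ∪ {ρ 1}) l.length (ρ g * l.prod * (ρ (g * l.prod))⁻¹) := by
      intro l
      induction l with
      | nil => intro _ g; simpa using inBall_one _ _
      | cons a l ih =>
        intro hl g
        have ha : ρ g * a * (ρ (g * a))⁻¹ ∈ T₀ := by
          refine ⟨ρ g, ⟨g, rfl⟩, a, ?_, ?_⟩
          · rcases hl a (by simp) with h | h
            · exact Or.inl h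
            · exact Or.inr h
          · show ρ g * a * (ρ (ρ g * a))⁻¹ = ρ g * a * (ρ (g * a))⁻¹
            rw [hρ2 (ρ g * a) (g * a)]
            have := K.inv_mem (hρ1 g)
            have e : ρ g * a * (g * a)⁻¹ = (g * (ρ g)⁻¹)⁻¹ := by group
            rw [e]
            exact this
        have h1 := (inBall_of_mem (S := T₀ ∪ {ρ 1}) (Or.inl ha)).mul
          (ih (fun x hx => hl x (by simp [hx])) (g * a))
        have e : ρ g * a * (ρ (g * a))⁻¹ * (ρ (g * a) * l.prod * (ρ (g * a * l.prod))⁻¹) =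
            ρ g * (a :: l).prod * (ρ (g * (a :: l).prod))⁻¹ := by
          rw [List.prod_cons]
          simp [mul_assoc]
        rw [e] at h1
        rw [List.length_cons]
        exact h1.mono (by omega)
    have h4 := key l h2 1
    rw [h3, one_mul] at h4
    have h5 : ρ k = ρ 1 := hρ2 k 1 (by simpa using hk)
    rw [h5] at h4
    have h6 : InBall (T₀ ∪ {ρ 1}) 1 (ρ 1) := inBall_of_mem (Or.inr rfl)
    have h7 := (h6.inv.mul h4).mul h6
    have e : (ρ 1)⁻¹ * (ρ 1 * k * (ρ 1)⁻¹) * ρ 1 = k := by group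
    rw [e] at h7
    exact h7.mono (by omega)

end Helper33.NCP
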