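import Pool.Agent.Helper33.NCP.Axis
import Pool.Agent.Helper33.NCP.Word

/-!
The group is finitely generated; displacements are bounded by word lengths.
-/

open Set

namespace Helper33.NCP

variable {Γ M : Type*} [Group Γ] [MetricSpace M] [MulAction Γ M]

theorem group_fg (h : IsNoConjCover Γ M) : Group.FG Γ := by
  obtain ⟨x₀, R, hR⟩ := h.cocompact
  have hR0 : 0 ≤ R := by
    obtain ⟨k, hk⟩ := hR x₀
    exact dist_nonneg.trans hk
  set S : Set Γ := {s : Γ | dist x₀ (s • x₀) ≤ 2 * R + 1} with hS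
  have hSfin : S.Finite := h.properlyDisc _ _
  rw [Group.fg_iff]
  refine ⟨S, ?_, hSfin⟩
  rw [eq_top_iff]
  intro g _
  obtain ⟨c, hc0, hcD, hc⟩ := h.geodesic x₀ (g • x₀)
  set D : ℝ := dist x₀ (g • x₀) with hD
  have hD0 : 0 ≤ D := dist_nonneg
  have key : ∀ k : ℕ, ∀ g' : Γ, dist (c (min k D)) (g' • x₀) ≤ R →
      g' ∈ Subgroup.closure S := by
    intro k
    induction k with
    | zero =>
      intro g' hg'
      rw [Nat.cast_zero, min_eq_left hD0, hc0] at hg'
      apply Subgroup.subset_closure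
      show dist x₀ (g' • x₀) ≤ 2 * R + 1
      linarith
    | succ k ih =>
      intro g' hg'
      obtain ⟨g₂, hg₂⟩ := hR (c (min k D))
      have h1 := ih g₂ hg₂
      have hm1 : min (k : ℝ) D ∈ Icc 0 D := ⟨le_min (by positivity) hD0, min_le_right _ _⟩
      have hm2 : min ((k + 1 : ℕ) : ℝ) D ∈ Icc 0 D :=
        ⟨le_min (by positivity) hD0, min_le_right _ _⟩
      have h2 : dist (c (min k D)) (c (min ((k + 1 : ℕ) : ℝ) D)) ≤ 1 := by
        rw [hc _ hm1 _ hm2, abs_le]
        push_cast
        constructor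
        · have : min ((k : ℝ) + 1) D ≤ min (k : ℝ) D + 1 := by
            rcases le_total (k : ℝ) D with h | h
            · rw [min_eq_left h]; exact min_le_left _ _
            · rw [min_eq_right h]; exact (min_le_right _ _).trans (by linarith)
          linarith
        · have : min (k : ℝ) D ≤ min ((k : ℝ) + 1) D := min_le_min_right _ (by linarith)
          linarith
      have h3 : dist (g₂ • x₀) (g' • x₀) ≤ dist (g₂ • x₀) (c (min k D)) +
          dist (c (min k D)) (c (min ((k + 1 : ℕ) : ℝ) D)) +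
          dist (c (min ((k + 1 : ℕ) : ℝ) D)) (g' • x₀) := dist_triangle4 _ _ _ _
      rw [dist_comm (g₂ • x₀) (c (min (k : ℝ) D))] at h3
      have h4 : dist x₀ ((g₂⁻¹ * g') • x₀) = dist (g₂ • x₀) (g' • x₀) := by
        rw [← h.isometric g₂, smul_smul, mul_inv_cancel_left]
      have h5 : g₂⁻¹ * g' ∈ Subgroup.closure S := by
        apply Subgroup.subset_closure
        show dist x₀ ((g₂⁻¹ * g') • x₀) ≤ 2 * R + 1
        rw [h4]
        linarith
      have := Subgroup.mul_mem _ h1 h5
      rwa [mul_inv_cancel_left] at this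
  obtain ⟨k, hk⟩ := exists_nat_ge D
  apply key k g
  rw [min_eq_right hk, hcD, dist_self]
  exact hR0

theorem disp_le_of_inBall (h : IsNoConjCover Γ M) (x : M) {S : Set Γ} (hS : S.Finite) :
    ∃ L : ℝ, 0 ≤ L ∧ ∀ n : ℕ, ∀ g : Γ, InBall S n g → dist x (g • x) ≤ L * n := by
  obtain ⟨B, hB⟩ := (hS.image fun s : Γ => dist x (s • x)).bddAbove
  refine ⟨max B 0, le_max_right _ _, ?_⟩
  have key : ∀ l : List Γ, (∀ y ∈ l, y ∈ S ∨ y⁻¹ ∈ S) →
      dist x (l.prod • x) ≤ max B 0 * l.length := by
    intro l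
    induction l with
    | nil => intro _; simp
    | cons a l ih =>
      intro hl
      have ha : dist x (a • x) ≤ max B 0 := by
        rcases hl a (by simp) with ha | ha
        · exact (hB ⟨a, ha, rfl⟩).trans (le_max_left _ _)
        · have h1 : dist x (a⁻¹ • x) ≤ B := hB ⟨a⁻¹, ha, rfl⟩
          rw [← h.isometric a, smul_smul, mul_inv_cancel, one_smul, dist_comm] at h1
          exact h1.trans (le_max_left _ _)
      have h2 := ih fun y hy => hl y (by simp [hy])
      have h3 : dist x ((a :: l).prod • x) ≤ dist x (a • x) + dist (a • x) ((a :: l).prod • x) :=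
        dist_triangle _ _ _
      rw [List.prod_cons, mul_smul, h.isometric] at h3
      rw [List.prod_cons, mul_smul, List.length_cons]
      push_cast
      rw [mul_add, mul_one]
      linarith
  rintro n g ⟨l, h1, h2, rfl⟩
  refine (key l h2).trans ?_
  have : (l.length : ℝ) ≤ n := by exact_mod_cast h1
  exact mul_le_mul_of_nonneg_left this (le_max_right _ _)

theorem tl_le_of_inBall (h : IsNoConjCover Γ M) {S : Set Γ} (hS : S.Finite) :
    ∃ L : ℝ, 0 ≤ L ∧ ∀ n : ℕ, ∀ g : Γ, InBall S n g → tl M g ≤ L * n := by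
  obtain ⟨x, -⟩ := exists_min h 1
  obtain ⟨L, hL0, hL⟩ := disp_le_of_inBall h x hS
  exact ⟨L, hL0, fun n g hg => (tl_le g x).trans (hL n g hg)⟩

end Helper33.NCP
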