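import Pool.Agent.Helper33.NCP.Lattice
import Pool.Agent.Helper33.NCP.Milnor

/-!
Finitely generated abelian subgroups are undistorted.
-/

open Finset

namespace Helper33.NCP

variable {Γ M : Type*} [Group Γ] [MetricSpace M] [MulAction Γ M]

theorem tl_one (h : IsNoConjCover Γ M) : tl M (1 : Γ) = 0 := by
  have := tl_pow h (1 : Γ) 0
  simpa using this

theorem torsion_free (h : IsNoConjCover Γ M) {g : Γ} {n : ℕ} (hn : n ≠ 0) (hg : g ^ n = 1) :
    g = 1 := by
  by_contra hg1
  have h1 := tl_pow h g n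
  rw [hg, tl_one h] at h1
  have h2 := tl_pos h hg1
  have h3 : (n : ℝ) ≠ 0 := by exact_mod_cast hn
  have : (n : ℝ) * tl M g ≠ 0 := mul_ne_zero h3 h2.ne'
  exact this h1.symm

/-- minimal displacements of nontrivial elements are bounded below -/
theorem tl_lower (h : IsNoConjCover Γ M) : ∃ ε > 0, ∀ g : Γ, g ≠ 1 → ε ≤ tl M g := by
  classical
  obtain ⟨F, hF, hF2⟩ := finite_classes h 1
  have h1 : ∃ ε > 0, ∀ g ∈ F, g ≠ 1 → ε ≤ tl M g := by
    set F' : Set Γ := {g ∈ F | g ≠ 1} with hF'
    have hF'fin : F'.Finite := hF.subset fun x hx => hx.1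
    rcases F'.eq_empty_or_nonempty with he | hne
    · refine ⟨1, one_pos, fun g hg hg1 => ?_⟩
      have : g ∈ F' := ⟨hg, hg1⟩
      rw [he] at this
      exact this.elim
    · obtain ⟨g₀, hg₀, hmin⟩ := hF'fin.exists_minimalFor (fun g => tl M g) F' hne
      refine ⟨tl M g₀, tl_pos h hg₀.2, fun g hg hg1 => ?_⟩
      rcases le_total (tl M g₀) (tl M g) with h2 | h2
      · exact h2
      · exact hmin ⟨hg, hg1⟩ h2
  obtain ⟨ε, hε, hε2⟩ := h1
  refine ⟨min ε 1, lt_min hε one_pos, fun g hg => ?_⟩
  rcases le_or_gt (tl M g) 1 with h2 | h2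
  · obtain ⟨k, hk⟩ := hF2 g h2
    have h3 : k * g * k⁻¹ ≠ 1 := by
      intro h4
      apply hg
      have : k⁻¹ * (k * g * k⁻¹) * k = 1 := by rw [h4]; group
      have e : k⁻¹ * (k * g * k⁻¹) * k = g := by group
      rwa [e] at this
    have h4 := hε2 _ hk h3
    rw [tl_conj h] at h4
    exact (min_le_left _ _).trans h4
  · exact (min_le_right _ _).trans h2.le

theorem ab_bound (h : IsNoConjCover Γ M) (A : Subgroup Γ)
    (hcomm : ∀ a ∈ A, ∀ b ∈ A, a * b = b * a) (hfg : A.FG) :
    ∃ (T : Set Γ) (C : ℕ), T.Finite ∧ (∀ t ∈ T, t ∈ A) ∧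
      ∀ u ∈ A, ∀ n : ℕ, tl M u ≤ n → InBall T (C * n) u := by
  classical
  let inst : CommGroup A :=
    { (inferInstance : Group A) with
      mul_comm := fun a b => Subtype.ext (hcomm a a.2 b b.2) }
  have hfg' : Group.FG A := (Group.fg_iff_subgroup_fg A).2 hfg
  have hfin : Module.Finite ℤ (Additive A) := by
    rw [Module.Finite.iff_addGroup_fg, ← GroupFG.iff_add_fg]
    exact hfg'
  have htf : IsAddTorsionFree (Additive A) := by
    constructor
    intro n hn a b hab
    have h1 : (a.toMul : A) ^ n = (b.toMul : A) ^ n := hab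
    have h2 : ((a.toMul : A) * (b.toMul : A)⁻¹) ^ n = 1 := by
      rw [mul_pow, h1, inv_pow, mul_inv_cancel]
    have h3 : (((a.toMul : A) * (b.toMul : A)⁻¹ : A) : Γ) ^ n = 1 := by
      have := congrArg (Subtype.val : A → Γ) h2
      simpa using this
    have h4 := torsion_free h hn h3
    have h5 : (a.toMul : A) * (b.toMul : A)⁻¹ = 1 := Subtype.ext h4
    have h6 : (a.toMul : A) = b.toMul := by rwa [mul_inv_eq_one] at h5
    exact h6
  set B := Module.finBasis ℤ (Additive A) with hB
  set k := Module.finrank ℤ (Additive A) with hk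
  -- the element with coordinates `v`
  set el : (Fin k → ℤ) → Additive A := fun v => B.equivFun.symm v with hel
  set N : (Fin k → ℤ) → ℝ := fun v => tl M (((el v).toMul : A) : Γ) with hN
  obtain ⟨ε, hε, hε2⟩ := tl_lower h
  have hadd : ∀ v w, N (v + w) ≤ N v + N w := by
    intro v w
    have e : (((el (v + w)).toMul : A) : Γ) = (((el v).toMul : A) : Γ) * (((el w).toMul : A) : Γ) := by
      have : el (v + w) = el v + el w := map_add B.equivFun.symm v w
      rw [this, toMul_add]
      rfl
    simp only [hN]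
    rw [e]
    exact tl_mul_le h (hcomm _ (SetLike.coe_mem _) _ (SetLike.coe_mem _))
  have hmul : ∀ (m : ℤ) v, N (m • v) = |(m : ℝ)| * N v := by
    intro m v
    have e : (((el (m • v)).toMul : A) : Γ) = (((el v).toMul : A) : Γ) ^ m := by
      have : el (m • v) = m • el v := map_smul B.equivFun.symm m v
      rw [this, toMul_zsmul]
      rfl
    simp only [hN]
    rw [e, tl_zpow h]
  have hpos : ∀ v, v ≠ 0 → ε ≤ N v := by
    intro v hv
    apply hε2
    intro h1
    apply hv
    have h2 : ((el v).toMul : A) = 1 := Subtype.ext h1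
    have h3 : el v = 0 := h2
    exact (LinearEquiv.map_eq_zero_iff B.equivFun.symm).1 h3
  obtain ⟨C, hC, hC2⟩ := lattice_norm N hadd hmul hε hpos
  obtain ⟨C', hC'⟩ := exists_nat_ge C
  set T : Set Γ := Set.range fun i : Fin k => (((B i).toMul : A) : Γ) with hT
  refine ⟨T, k * C', Set.finite_range _, ?_, ?_⟩
  · rintro _ ⟨i, rfl⟩
    exact SetLike.coe_mem _
  intro u hu n hun
  set v : Fin k → ℤ := B.equivFun (Additive.ofMul (⟨u, hu⟩ : A)) with hv
  have helv : (((el v).toMul : A) : Γ) = u := by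
    have : el v = Additive.ofMul (⟨u, hu⟩ : A) := by simp [hel, hv]
    rw [this]
    rfl
  -- bound on the coordinates
  have hbound : ∀ i, (v i).natAbs ≤ C' * n := by
    set R : ℕ := Finset.univ.sup fun i => (v i).natAbs with hR
    have hle : ∀ i, (v i).natAbs ≤ R := fun i =>
      Finset.le_sup (f := fun i => (v i).natAbs) (Finset.mem_univ i)
    intro i
    have hne : (Finset.univ : Finset (Fin k)).Nonempty := ⟨i, Finset.mem_univ i⟩
    obtain ⟨i₀, -, hi₀⟩ := Finset.exists_mem_eq_sup Finset.univ hne fun i => (v i).natAbs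
    have h1 := hC2 v R (fun i => by
      have := hle i
      rw [Int.abs_eq_natAbs]
      exact_mod_cast this) ⟨i₀, by
        rw [Int.abs_eq_natAbs, hR, hi₀]⟩
    have h2 : N v = tl M u := by simp only [hN]; rw [helv]
    rw [h2] at h1
    have h3 : (R : ℝ) ≤ C' * n :=
      h1.trans (mul_le_mul hC' hun (tl_nonneg u) (by positivity))
    have h4 : R ≤ C' * n := by exact_mod_cast h3
    exact (hle i).trans h4
  -- the word
  have hword : ∀ s : Finset (Fin k),
      InBall T (∑ i ∈ s, (v i).natAbs) (((∑ i ∈ s, v i • B i : Additive A).toMul : A) : Γ) := by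
    intro s
    induction s using Finset.induction_on with
    | empty => exact inBall_one _ _
    | insert i s his ih =>
      rw [Finset.sum_insert his, Finset.sum_insert his]
      have h1 : InBall T (1 * (v i).natAbs) ((((B i).toMul : A) : Γ) ^ v i) :=
        (inBall_of_mem (S := T) (g := (((B i).toMul : A) : Γ)) ⟨i, rfl⟩).zpow (v i)
      rw [one_mul] at h1
      have h2 := h1.mul ih
      exact h2
  have h1 := hword Finset.univ
  have h2 : (∑ i, v i • B i : Additive A) = el v := by
    rw [hel]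
    exact (B.equivFun_symm_apply v).symm
  rw [h2, helv] at h1
  refine h1.mono ?_
  calc ∑ i, (v i).natAbs ≤ ∑ _i : Fin k, C' * n := Finset.sum_le_sum fun i _ => hbound i
    _ = k * C' * n := by simp [mul_assoc]

end Helper33.NCP
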