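import Pool.Agent.Helper33.NCP.Geo

/-!
Axes: the minimal displacement is homogeneous and subadditive on commuting elements.
-/

open Set

namespace Helper33.NCP

variable {Γ M : Type*} [Group Γ] [MetricSpace M] [MulAction Γ M]

/-- the periodic extension of a segment is a local geodesic -/
theorem dist_pow_of_min (h : IsNoConjCover Γ M) {g : Γ} {x : M}
    (hx : ∀ y : M, dist x (g • x) ≤ dist y (g • y)) (n : ℕ) :
    dist x (g ^ n • x) = n * dist x (g • x) := by
  rcases eq_or_ne g 1 with rfl | hg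
  · simp
  set L : ℝ := dist x (g • x) with hL
  have hLpos : 0 < L := by
    rw [hL, dist_pos]
    intro hx'
    exact hg (h.free g x hx'.symm)
  obtain ⟨σ, hσ0, hσL, hσ⟩ := h.geodesic x (g • x)
  rw [← hL] at hσL hσ
  -- the axis
  set c : ℝ → M := fun t => g ^ (⌊t / L⌋) • σ (L * Int.fract (t / L)) with hc
  have hfr : ∀ t : ℝ, L * Int.fract (t / L) ∈ Icc 0 L := fun t =>
    ⟨mul_nonneg hLpos.le (Int.fract_nonneg _), by
      have := (Int.fract_lt_one (t / L)).le
      nlinarith⟩
  have hdec : ∀ t : ℝ, t = L * ⌊t / L⌋ + L * Int.fract (t / L) := by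
    intro t
    rw [← mul_add, Int.floor_add_fract]
    field_simp
  -- key estimate
  have key : ∀ u ∈ Icc 0 L, ∀ v ∈ Icc 0 L, v ≤ u → dist (σ u) (g • σ v) = L - u + v := by
    intro u hu v hv hvu
    apply le_antisymm
    · have h1 : dist (σ u) (σ L) = L - u := by
        rw [hσ u hu L ⟨hLpos.le, le_refl _⟩, abs_sub_comm, abs_of_nonneg (by linarith [hu.2])]
      have h2 : dist (g • σ 0) (g • σ v) = v := by
        rw [h.isometric, hσ 0 ⟨le_refl _, hLpos.le⟩ v hv, zero_sub, abs_neg, abs_of_nonneg hv.1]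
      have h3 : σ L = g • σ 0 := by rw [hσL, hσ0]
      calc dist (σ u) (g • σ v) ≤ dist (σ u) (σ L) + dist (σ L) (g • σ v) := dist_triangle _ _ _
        _ = (L - u) + v := by rw [h1, h3, h2]
    · have h1 : dist (σ v) (σ u) = u - v := by
        rw [hσ v hv u hu, abs_sub_comm, abs_of_nonneg (by linarith)]
      have h2 : L ≤ dist (σ v) (g • σ v) := hx (σ v)
      have h3 : dist (σ v) (g • σ v) ≤ dist (σ v) (σ u) + dist (σ u) (g • σ v) :=
        dist_triangle _ _ _
      linarith
  have hmain : ∀ s t : ℝ, s ≤ t → t ≤ s + L → dist (c s) (c t) = t - s := by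
    intro s t hst hts
    have hs := hdec s
    have ht := hdec t
    have hfs := hfr s
    have hft := hfr t
    have hfl1 : ⌊s / L⌋ ≤ ⌊t / L⌋ := Int.floor_le_floor (by gcongr)
    have hfl2 : ⌊t / L⌋ ≤ ⌊s / L⌋ + 1 := by
      have : t / L ≤ s / L + 1 := by
        rw [div_add_one hLpos.ne']
        gcongr
      calc ⌊t / L⌋ ≤ ⌊s / L + 1⌋ := Int.floor_le_floor this
        _ = ⌊s / L⌋ + 1 := Int.floor_add_one _
    rcases eq_or_lt_of_le hfl1 with e | e
    · have : dist (c s) (c t) =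
          dist (σ (L * Int.fract (s / L))) (σ (L * Int.fract (t / L))) := by
        simp only [hc]
        rw [← e, h.isometric]
      rw [this, hσ _ hfs _ hft]
      have e1 : L * Int.fract (s / L) - L * Int.fract (t / L) = s - t := by
        rw [← e] at ht
        linarith
      rw [e1, abs_sub_comm, abs_of_nonneg (by linarith)]
    · have e2 : ⌊t / L⌋ = ⌊s / L⌋ + 1 := by omega
      have e3 : (⌊t / L⌋ : ℝ) = (⌊s / L⌋ : ℝ) + 1 := by exact_mod_cast e2
      have : dist (c s) (c t) =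
          dist (σ (L * Int.fract (s / L))) (g • σ (L * Int.fract (t / L))) := by
        simp only [hc]
        rw [e2, zpow_add, zpow_one, mul_smul, h.isometric]
      rw [e3] at ht
      rw [this, key _ hfs _ hft (by nlinarith)]
      linarith
  have hloc : IsLocalGeodesic c := by
    intro t
    refine ⟨L / 2, by positivity, ?_⟩
    intro s s' hs hs'
    have h1 : |s - s'| < L := by
      have : |s - s'| ≤ |s - t| + |s' - t| := by
        have := abs_sub_le s t s'
        rwa [abs_sub_comm t s'] at this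
      linarith
    rcases le_total s s' with hss | hss
    · rw [abs_sub_comm, abs_of_nonneg (by linarith)] at h1 ⊢
      exact hmain s s' hss (by linarith)
    · rw [abs_of_nonneg (by linarith)] at h1 ⊢
      rw [dist_comm]
      exact hmain s' s hss (by linarith)
  have hfin := h.noConj c hloc 0 (n * L)
  have hc0 : c 0 = x := by
    simp [hc, hσ0]
  have hcn : c (n * L) = g ^ n • x := by
    have : (n : ℝ) * L / L = n := by field_simp
    simp only [hc]
    rw [this, Int.floor_natCast, Int.fract_natCast, mul_zero, hσ0, zpow_natCast]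
  rw [hc0, hcn, zero_sub, abs_neg, abs_of_nonneg (by positivity)] at hfin
  exact hfin

theorem exists_axis (h : IsNoConjCover Γ M) (g : Γ) :
    ∃ x : M, ∀ n : ℕ, dist x (g ^ n • x) = n * tl M g := by
  obtain ⟨x, hx⟩ := exists_min h g
  have : Nonempty M := ⟨x⟩
  have e : dist x (g • x) = tl M g := le_antisymm (le_ciInf hx) (tl_le g x)
  refine ⟨x, fun n => ?_⟩
  rw [dist_pow_of_min h hx, e]

/-- for every point the displacement of `g ^ n` is between `n * tl g` and `n * tl g + const` -/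
theorem disp_pow_le (h : IsNoConjCover Γ M) (g : Γ) (x : M) :
    ∃ K : ℝ, ∀ n : ℕ, dist x (g ^ n • x) ≤ K + n * tl M g := by
  obtain ⟨y, hy⟩ := exists_axis h g
  refine ⟨2 * dist x y, fun n => ?_⟩
  have h1 : dist x (g ^ n • x) ≤ dist x y + dist y (g ^ n • y) + dist (g ^ n • y) (g ^ n • x) :=
    dist_triangle4 _ _ _ _
  rw [h.isometric, hy n, dist_comm y x] at h1
  linarith

theorem le_of_forall_nat {a b K : ℝ} (h : ∀ n : ℕ, n * a ≤ K + n * b) : a ≤ b := by
  by_contra hab
  push Not at hab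
  obtain ⟨n, hn⟩ := exists_nat_gt (K / (a - b))
  have h1 : K < n * (a - b) := by
    rwa [div_lt_iff₀ (by linarith)] at hn
  have := h n
  nlinarith

theorem tl_mul_le (h : IsNoConjCover Γ M) {a b : Γ} (hab : Commute a b) :
    tl M (a * b) ≤ tl M a + tl M b := by
  obtain ⟨x, hx⟩ := exists_axis h (a * b)
  obtain ⟨K₁, hK₁⟩ := disp_pow_le h a x
  obtain ⟨K₂, hK₂⟩ := disp_pow_le h b x
  apply le_of_forall_nat (K := K₁ + K₂)
  intro n
  have h1 : dist x ((a * b) ^ n • x) ≤ dist x (a ^ n • x) + dist (a ^ n • x) ((a * b) ^ n • x) :=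
    dist_triangle _ _ _
  rw [hx n, hab.mul_pow, mul_smul, h.isometric] at h1
  have h2 := hK₁ n
  have h3 := hK₂ n
  rw [mul_add]
  linarith

theorem tl_pow (h : IsNoConjCover Γ M) (g : Γ) (m : ℕ) : tl M (g ^ m) = m * tl M g := by
  apply le_antisymm
  · obtain ⟨x, hx⟩ := exists_axis h g
    rw [← hx m]
    exact tl_le _ _
  · obtain ⟨x, hx⟩ := exists_axis h (g ^ m)
    obtain ⟨y, hy⟩ := exists_axis h g
    apply le_of_forall_nat (K := 2 * dist x y)
    intro n
    have h1 : dist y (g ^ (m * n) • y) ≤ dist y x + dist x (g ^ (m * n) • x) +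
      dist (g ^ (m * n) • x) (g ^ (m * n) • y) := dist_triangle4 _ _ _ _
    rw [h.isometric, hy, pow_mul, hx, dist_comm y x] at h1
    push_cast at h1
    nlinarith

theorem tl_inv (g : Γ) (h : IsNoConjCover Γ M) : tl M g⁻¹ = tl M g := by
  have key : ∀ g : Γ, tl M g⁻¹ ≤ tl M g := by
    intro g
    obtain ⟨x, hx⟩ := exists_tl_eq h g
    rw [← hx, dist_comm]
    have := tl_le g⁻¹ (g • x) (M := M)
    rwa [smul_smul, inv_mul_cancel, one_smul] at this
  apply le_antisymm (key g)
  have := key g⁻¹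
  rwa [inv_inv] at this

theorem tl_zpow (h : IsNoConjCover Γ M) (g : Γ) (m : ℤ) : tl M (g ^ m) = |(m : ℝ)| * tl M g := by
  rcases Int.eq_nat_or_neg m with ⟨n, rfl | rfl⟩
  · rw [zpow_natCast, tl_pow h]
    simp
  · rw [zpow_neg, zpow_natCast, tl_inv _ h, tl_pow h]
    simp

/-- finitely many conjugacy classes of bounded displacement -/
theorem finite_classes (h : IsNoConjCover Γ M) (C : ℝ) :
    ∃ F : Set Γ, F.Finite ∧ ∀ g : Γ, tl M g ≤ C → ∃ k : Γ, k * g * k⁻¹ ∈ F := by
  obtain ⟨x₀, R, hR⟩ := h.cocompact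
  refine ⟨{g : Γ | dist x₀ (g • x₀) ≤ 2 * R + C}, h.properlyDisc _ _, ?_⟩
  intro g hg
  obtain ⟨x, hx⟩ := exists_tl_eq h g
  obtain ⟨k, hk⟩ := hR x
  refine ⟨k⁻¹, ?_⟩
  show dist x₀ ((k⁻¹ * g * k⁻¹⁻¹) • x₀) ≤ 2 * R + C
  have h1 : dist x₀ ((k⁻¹ * g * k⁻¹⁻¹) • x₀) = dist (k • x₀) (g • k • x₀) := by
    rw [← h.isometric k x₀]
    congr 1
    simp [smul_smul, mul_assoc]
  rw [h1]
  have h2 : dist (k • x₀) (g • k • x₀) ≤ dist (k • x₀) x + dist x (g • x) +
    dist (g • x) (g • k • x₀) := dist_triangle4 _ _ _ _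
  rw [h.isometric, dist_comm (k • x₀) x, hx] at h2
  linarith

end Helper33.NCP
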