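import Mathlib

/-!
Definitions: actions like those of the fundamental groups of closed spaces without conjugate
points, word balls, straight subgroups, subdirect products.
-/

open Set

namespace Helper33.NCP

/-- `c : ℝ → M` is a (unit speed) local geodesic: around every parameter it is an isometric
embedding. -/
def IsLocalGeodesic {M : Type*} [MetricSpace M] (c : ℝ → M) : Prop :=
  ∀ t : ℝ, ∃ ε > 0, ∀ s s' : ℝ, |s - t| < ε → |s' - t| < ε → dist (c s) (c s') = |s - s'|

/-- `Γ` acts on `M` as the fundamental group of a closed space without conjugate points acts on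
the universal cover: `M` is a proper geodesic space in which every local geodesic line is
globally minimizing, and `Γ` acts freely, properly discontinuously and cocompactly by
isometries. -/
structure IsNoConjCover (Γ M : Type*) [Group Γ] [MetricSpace M] [MulAction Γ M] : Prop where
  proper : ProperSpace M
  geodesic : ∀ x y : M, ∃ c : ℝ → M, c 0 = x ∧ c (dist x y) = y ∧
    ∀ s ∈ Icc 0 (dist x y), ∀ t ∈ Icc 0 (dist x y), dist (c s) (c t) = |s - t|
  noConj : ∀ c : ℝ → M, IsLocalGeodesic c → ∀ s t : ℝ, dist (c s) (c t) = |s - t|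
  isometric : ∀ (g : Γ) (x y : M), dist (g • x) (g • y) = dist x y
  free : ∀ (g : Γ) (x : M), g • x = x → g = 1
  properlyDisc : ∀ (x : M) (r : ℝ), {g : Γ | dist x (g • x) ≤ r}.Finite
  cocompact : ∃ (x₀ : M) (R : ℝ), ∀ x : M, ∃ g : Γ, dist x (g • x₀) ≤ R

/-- `g` is a product of at most `n` elements of `S ∪ S⁻¹` : the word length of `g` with respect
to `S` is at most `n`. -/
def InBall {G : Type*} [Group G] (S : Set G) (n : ℕ) (g : G) : Prop :=
  ∃ l : List G, l.length ≤ n ∧ (∀ x ∈ l, x ∈ S ∨ x⁻¹ ∈ S) ∧ l.prod = g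

/-- The subgroup `H` of `G` is straight: it is finitely generated, and for all finite generating
sets `S` of `G` and `T` of `H` there is a constant `C` with `|h|_T ≤ C |h|_S + C` for all
`h ∈ H`. -/
def Straight {G : Type*} [Group G] (H : Subgroup G) : Prop :=
  H.FG ∧ ∀ S T : Set G, S.Finite → T.Finite → Subgroup.closure S = ⊤ →
    Subgroup.closure T = H → ∃ C : ℕ, ∀ h ∈ H, ∀ n : ℕ, InBall S n h → InBall T (C * n + C) h

/-- `H` is virtually a finitely generated abelian group -/
def VirtAb {G : Type*} [Group G] (H : Subgroup G) : Prop :=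
  ∃ A : Subgroup G, A ≤ H ∧ A.FG ∧ (∀ a ∈ A, ∀ b ∈ A, a * b = b * a) ∧ A.relIndex H ≠ 0

/-- every nontrivial normal subgroup `N` of `G` contains an element `a` such that `Z(a) ∩ N` has
finite index in the centralizer `Z(a)` -/
def NormalRich (G : Type*) [Group G] : Prop :=
  ∀ N : Subgroup G, N.Normal → N ≠ ⊥ → ∃ a ∈ N, N.relIndex (Subgroup.centralizer {a}) ≠ 0

/-- the centralizer of `g` in `G` is straight or virtually finitely generated abelian -/
def TameCent {G : Type*} [Group G] (g : G) : Prop :=
  Straight (Subgroup.centralizer {g}) ∨ VirtAb (Subgroup.centralizer {g})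

/-- the image of `Γ` in the `i`-th factor -/
def img {Γ : Type*} [Group Γ] {ι : Type*} {G : ι → Type*} [∀ i, Group (G i)]
    (φ : Γ →* ∀ i, G i) (i : ι) : Subgroup (G i) :=
  ((Pi.evalMonoidHom G i).comp φ).range

/-- the homomorphism from `Γ` to the product of its images in the factors belonging to `J` -/
def proj {Γ : Type*} [Group Γ] {ι : Type*} {G : ι → Type*} [∀ i, Group (G i)]
    (φ : Γ →* ∀ i, G i) (J : Finset ι) : Γ →* ∀ j : J, img φ j :=
  MonoidHom.pi fun j : J => ((Pi.evalMonoidHom G (j : ι)).comp φ).rangeRestrict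

/-- the image of `γ` in the `i`-th factor, as an element of `img φ i` -/
def coord {Γ : Type*} [Group Γ] {ι : Type*} {G : ι → Type*} [∀ i, Group (G i)]
    (φ : Γ →* ∀ i, G i) (i : ι) (γ : Γ) : img φ i :=
  ((Pi.evalMonoidHom G i).comp φ).rangeRestrict γ

/-- the pointwise stabilizer of an edge -/
def edgeStab (Γ : Type*) {V : Type*} [Group Γ] [MulAction Γ V] (u v : V) : Subgroup Γ :=
  MulAction.stabilizer Γ u ⊓ MulAction.stabilizer Γ v

end Helper33.NCP
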