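import Pool.Agent.Helper33.NCP.Straight

/-!
Subdirect products.
-/

open Set

namespace Helper33.NCP

section words

variable {G H : Type*} [Group G] [Group H]

theorem InBall.map (f : G →* H) {S : Set G} {n : ℕ} {g : G} (h : InBall S n g) :
    InBall (f '' S) n (f g) := by
  obtain ⟨l, h1, h2, h3⟩ := h
  refine ⟨l.map f, by simpa using h1, ?_, ?_⟩
  · intro x hx
    obtain ⟨y, hy, rfl⟩ := List.mem_map.1 hx
    rcases h2 y hy with h | h
    · exact Or.inl ⟨y, h, rfl⟩
    · exact Or.inr ⟨y⁻¹, h, by simp⟩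
  · rw [← h3, map_list_prod]

/-- words can be lifted -/
theorem InBall.lift (f : G →* H) {T : Set H} (lam : H → G) (hlam : ∀ t ∈ T, f (lam t) = t)
    {n : ℕ} {y : H} (h : InBall T n y) : ∃ d : G, InBall (lam '' T) n d ∧ f d = y := by
  have key : ∀ l : List H, (∀ x ∈ l, x ∈ T ∨ x⁻¹ ∈ T) →
      ∃ d : G, InBall (lam '' T) l.length d ∧ f d = l.prod := by
    intro l
    induction l with
    | nil => intro _; exact ⟨1, inBall_one _ _, by simp⟩
    | cons a l ih =>
      intro hl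
      obtain ⟨d, hd, hd2⟩ := ih fun y hy => hl y (by simp [hy])
      rcases hl a (by simp) with ha | ha
      · refine ⟨lam a * d, ?_, ?_⟩
        · rw [List.length_cons]
          exact ((inBall_of_mem (S := lam '' T) (g := lam a) ⟨a, ha, rfl⟩).mul hd).mono (by omega)
        · rw [map_mul, hlam a ha, hd2, List.prod_cons]
      · refine ⟨(lam a⁻¹)⁻¹ * d, ?_, ?_⟩
        · rw [List.length_cons]
          exact ((inBall_of_mem (S := lam '' T) (g := lam a⁻¹) ⟨a⁻¹, ha, rfl⟩).inv.mul hd).mono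
            (by omega)
        · rw [map_mul, map_inv, hlam _ ha, hd2, List.prod_cons, inv_inv]
  obtain ⟨l, h1, h2, h3⟩ := h
  obtain ⟨d, hd, hd2⟩ := key l h2
  exact ⟨d, hd.mono h1, by rw [hd2, h3]⟩

end words

section main

variable {Γ M : Type*} [Group Γ] [MetricSpace M] [MulAction Γ M] {ι : Type*}

/-- the kernel of the `i`-th coordinate -/
def kerAt {G : ι → Type*} [∀ i, Group (G i)] (φ : Γ →* ∀ i, G i) (i : ι) : Subgroup Γ :=
  ((Pi.evalMonoidHom G i).comp φ).ker

theorem mem_kerAt {G : ι → Type*} [∀ i, Group (G i)] (φ : Γ →* ∀ i, G i) (i : ι) (g : Γ) :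
    g ∈ kerAt φ i ↔ φ g i = 1 := by
  simp [kerAt, MonoidHom.mem_ker]

theorem kerAt_normal {G : ι → Type*} [∀ i, Group (G i)] (φ : Γ →* ∀ i, G i) (i : ι) :
    (kerAt φ i).Normal := MonoidHom.normal_ker _

theorem kerAt_inter {G : ι → Type*} [∀ i, Group (G i)] {φ : Γ →* ∀ i, G i}
    (hφ : Function.Injective φ) (g : Γ) (hg : ∀ i, g ∈ kerAt φ i) : g = 1 := by
  apply hφ
  rw [map_one]
  funext i
  exact (mem_kerAt φ i g).1 (hg i)

/-- the intersection of the image of `φ` with the `i`-th factor -/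
def fac {G : ι → Type*} [∀ i, Group (G i)] [DecidableEq ι] (φ : Γ →* ∀ i, G i) (i : ι) :
    Subgroup (G i) := φ.range.comap (MonoidHom.mulSingle G i)

theorem mem_fac {G : ι → Type*} [∀ i, Group (G i)] [DecidableEq ι] {φ : Γ →* ∀ i, G i} {i : ι}
    {y : G i} : y ∈ fac φ i ↔ ∃ m ∈ coK (kerAt φ) i, φ m i = y := by
  constructor
  · intro hy
    obtain ⟨m, hm⟩ := Subgroup.mem_comap.1 hy
    refine ⟨m, ?_, ?_⟩
    · rw [mem_coK]
      intro j hj
      rw [mem_kerAt, hm]
      simp [Pi.mulSingle_eq_of_ne hj]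
    · rw [hm]; simp
  · rintro ⟨m, hm, rfl⟩
    refine Subgroup.mem_comap.2 ⟨m, ?_⟩
    funext j
    by_cases hj : j = i
    · subst hj; simp
    · rw [(mem_kerAt φ j m).1 (mem_coK.1 hm j hj)]
      simp [Pi.mulSingle_eq_of_ne hj]

theorem mem_PK_iff {G : ι → Type*} [∀ i, Group (G i)] [DecidableEq ι] {φ : Γ →* ∀ i, G i} {i : ι}
    {g : Γ} : g ∈ PK (kerAt φ) i ↔ φ g i ∈ fac φ i := by
  rw [mem_PK (kerAt_normal φ), mem_fac]
  constructor
  · rintro ⟨m, hm, hm2⟩
    refine ⟨m, hm, ?_⟩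
    rw [mem_kerAt, map_mul, map_inv, Pi.mul_apply, Pi.inv_apply, inv_mul_eq_one] at hm2
    exact hm2
  · rintro ⟨m, hm, hm2⟩
    refine ⟨m, hm, ?_⟩
    rw [mem_kerAt, map_mul, map_inv, Pi.mul_apply, Pi.inv_apply, inv_mul_eq_one]
    exact hm2

theorem fac_finiteIndex {G : ι → Type*} [∀ i, Group (G i)] [DecidableEq ι]
    {φ : Γ →* ∀ i, G i} {i : ι} (hs : ∀ y : G i, ∃ g, φ g i = y)
    (h : (PK (kerAt φ) i).FiniteIndex) : (fac φ i).FiniteIndex := by
  have e : (fac φ i).comap ((Pi.evalMonoidHom G i).comp φ) = PK (kerAt φ) i := by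
    ext g
    rw [mem_PK_iff]
    rfl
  have hs' : Function.Surjective ((Pi.evalMonoidHom G i).comp φ) := hs
  constructor
  rw [← Subgroup.index_comap_of_surjective _ hs', e]
  exact h.index_ne_zero

/-- if all intersections with the factors have finite index, then so does the image -/
theorem range_finiteIndex [Finite ι] {G : ι → Type*} [∀ i, Group (G i)]
    [DecidableEq ι] {φ : Γ →* ∀ i, G i} (h : ∀ i, (fac φ i).FiniteIndex) :
    φ.range.FiniteIndex := by
  have := Fintype.ofFinite ι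
  have h1 : ∀ i, ((fac φ i).comap (Pi.evalMonoidHom G i)).FiniteIndex := by
    intro i
    constructor
    rw [Subgroup.index_comap_of_surjective _ (Function.surjective_eval i)]
    exact (h i).index_ne_zero
  have h2 : (⨅ i, (fac φ i).comap (Pi.evalMonoidHom G i)).FiniteIndex :=
    Subgroup.finiteIndex_iInf h1
  refine Subgroup.finiteIndex_of_le (H := ⨅ i, (fac φ i).comap (Pi.evalMonoidHom G i)) ?_
  intro y hy
  rw [Subgroup.mem_iInf] at hy
  exact Subgroup.pi_mem_of_mulSingle_mem y fun i => Subgroup.mem_comap.1 (hy i)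

/-- straightness of the centralizer in the factor gives the bound -/
theorem centBound_of_straight (hfg : Group.FG Γ) {G : ι → Type*} [∀ i, Group (G i)]
    [DecidableEq ι] {φ : Γ →* ∀ i, G i} (hφ : Function.Injective φ) {i : ι}
    (hs : ∀ y : G i, ∃ g, φ g i = y) (hfi : (fac φ i).FiniteIndex) (γ : Γ)
    (hst : Straight (Subgroup.centralizer {φ γ i})) : CentBound (kerAt φ) i γ := by
  classical
  intro S hS hSK
  have hN := kerAt_normal φ
  have hK := kerAt_inter hφ
  set p : Γ →* G i := (Pi.evalMonoidHom G i).comp φ with hp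
  have hpφ : ∀ g, p g = φ g i := fun g => rfl
  set Z : Subgroup (G i) := Subgroup.centralizer {φ γ i} with hZ
  -- generating sets
  rw [Group.fg_iff] at hfg
  obtain ⟨S₀, hS₀, hS₀fin⟩ := hfg
  have hgen : Subgroup.closure (p '' (S ∪ S₀)) = ⊤ := by
    rw [eq_top_iff]
    intro y _
    obtain ⟨g, hg⟩ := hs y
    have hg0 : g ∈ Subgroup.closure S₀ := by rw [hS₀]; trivial
    obtain ⟨n, hn⟩ := inBall_of_mem_closure hg0
    have h1 := ((hn.mono_set (S' := S ∪ S₀) Set.subset_union_right).map p).mem_closure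
    rwa [hpφ, hg] at h1
  obtain ⟨hZfg, hZst⟩ := hst
  rw [Subgroup.fg_iff] at hZfg
  obtain ⟨T, hT, hTfin⟩ := hZfg
  obtain ⟨C, hC⟩ := hZst (p '' (S ∪ S₀)) T ((hS.union hS₀fin).image p) hTfin hgen hT
  -- Schreier generators inside `Z`
  have hfi' : ((fac φ i).subgroupOf Z).FiniteIndex := inferInstance
  have hTZ : ∀ t ∈ T, t ∈ Z := by
    intro t ht
    have := Subgroup.subset_closure (k := T) ht
    rwa [hT] at this
  set T₁ : Set Z := Subtype.val ⁻¹' T with hT₁
  have hT₁fin : T₁.Finite := hTfin.preimage Subtype.val_injective.injOn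
  obtain ⟨T₂, hT₂fin, hT₂, hT₂b⟩ := schreier ((fac φ i).subgroupOf Z) hT₁fin
  -- lifts
  have hlift : ∀ y : G i, ∃ m : Γ, y ∈ fac φ i → m ∈ coK (kerAt φ) i ∧ φ m i = y := by
    intro y
    by_cases hy : y ∈ fac φ i
    · obtain ⟨m, hm, hm2⟩ := mem_fac.1 hy
      exact ⟨m, fun _ => ⟨hm, hm2⟩⟩
    · exact ⟨1, fun h => (hy h).elim⟩
  choose lam hlam using hlift
  have hcommγ : ∀ x ∈ coK (kerAt φ) i, Commute (φ x i) (φ γ i) → Commute x γ := by
    intro x hx hxγ
    apply commute_of_comm_eq_one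
    apply eq_one_of_mem hK (i := i)
    · rw [mem_kerAt]
      simp only [map_mul, map_inv, Pi.mul_apply, Pi.inv_apply]
      rw [hxγ.eq]
      group
    · have h1 := coK_conj hN i ((coK (kerAt φ) i).inv_mem hx) γ
      have h2 := (coK (kerAt φ) i).mul_mem hx h1
      have e : x * (γ * x⁻¹ * γ⁻¹) = x * γ * x⁻¹ * γ⁻¹ := by group
      rwa [e] at h2
  have hT₂fac : ∀ t : Z, t ∈ T₂ → (t : G i) ∈ fac φ i := by
    intro t ht
    exact Subgroup.mem_subgroupOf.1 (hT₂ ht)
  refine ⟨lam '' (Subtype.val '' T₂), C + 2, (hT₂fin.image _).image _, ?_, ?_⟩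
  · rintro _ ⟨_, ⟨t, ht, rfl⟩, rfl⟩
    obtain ⟨h1, h2⟩ := hlam _ (hT₂fac t ht)
    apply hcommγ _ h1
    rw [h2]
    exact Subgroup.mem_centralizer_singleton_iff.1 t.2
  · intro n x hx hxK hxγ
    have h1 : InBall (p '' (S ∪ S₀)) n (p x) :=
      (hx.mono_set (S' := S ∪ S₀) Set.subset_union_left).map p
    have hpZ : p x ∈ Z := by
      rw [hZ, Subgroup.mem_centralizer_singleton_iff]
      have : φ (x * γ) i = φ (γ * x) i := by rw [hxγ.eq]
      simpa [hpφ] using this
    have h2 := hC (p x) hpZ n h1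
    -- as a word in `Z`
    have h3 : InBall T₁ (C * n + C) (⟨p x, hpZ⟩ : Z) := by
      obtain ⟨d, hd, hd2⟩ := InBall.lift Z.subtype
        (fun y => if hy : y ∈ Z then (⟨y, hy⟩ : Z) else 1)
        (fun t ht => by simp [hTZ t ht]) h2
      have e : d = ⟨p x, hpZ⟩ := Subtype.ext hd2
      rw [← e]
      refine hd.mono_set ?_
      rintro _ ⟨t, ht, rfl⟩
      simp only [hT₁, Set.mem_preimage, hTZ t ht, dif_pos]
      exact ht
    have h4 := hT₂b _ _ (by
      rw [Subgroup.mem_subgroupOf]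
      exact mem_fac.2 ⟨x, hxK, rfl⟩) h3
    have h5 := h4.map Z.subtype
    obtain ⟨d, hd, hd2⟩ := InBall.lift p lam (T := Subtype.val '' T₂) (by
      rintro _ ⟨t, ht, rfl⟩
      exact (hlam _ (hT₂fac t ht)).2) h5
    have hdK : d ∈ coK (kerAt φ) i := by
      have h6 := hd.mem_closure
      have h7 : Subgroup.closure (lam '' (Subtype.val '' T₂)) ≤ coK (kerAt φ) i := by
        rw [Subgroup.closure_le]
        rintro _ ⟨_, ⟨t, ht, rfl⟩, rfl⟩
        exact (hlam _ (hT₂fac t ht)).1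
      exact h7 h6
    have e : d = x := by
      apply eq_of_mod hK (i := i) hdK hxK
      rw [mem_kerAt, map_mul, map_inv, Pi.mul_apply, Pi.inv_apply, inv_mul_eq_one]
      exact hd2
    rw [← e]
    refine hd.mono ?_
    nlinarith

end main

end Helper33.NCP
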