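import Pool.Agent.Helper33.NCP.TreeAct
import Pool.Agent.Helper33.NCP.Prod

/-!
Actions on trees with abelian edge stabilizers: centralizers of elements fixing a vertex.
-/

open Set

namespace Helper33.NCP

theorem straight_of_bound {Γ : Type*} [Group Γ] (hfg : Group.FG Γ) (H : Subgroup Γ)
    (main : ∀ S : Set Γ, S.Finite → Subgroup.closure S = ⊤ → ∃ (TZ : Set Γ) (C : ℕ),
      TZ.Finite ∧ (∀ t ∈ TZ, t ∈ H) ∧ ∀ z ∈ H, ∀ n : ℕ, InBall S n z → InBall TZ (C * n + C) z) :
    Straight H := by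
  constructor
  · rw [Group.fg_iff] at hfg
    obtain ⟨S, hS, hSfin⟩ := hfg
    obtain ⟨TZ, C, hTZ, hTZ2, hTZ3⟩ := main S hSfin hS
    rw [Subgroup.fg_iff]
    refine ⟨TZ, ?_, hTZ⟩
    apply le_antisymm
    · rw [Subgroup.closure_le]
      intro t ht
      exact hTZ2 t ht
    · intro z hz
      obtain ⟨n, hn⟩ := inBall_of_mem_closure (S := S) (g := z) (by rw [hS]; trivial)
      exact (hTZ3 z hz n hn).mem_closure
  · intro S T hS hT hSgen hTgen
    obtain ⟨TZ, C, hTZ, hTZ2, hTZ3⟩ := main S hS hSgen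
    obtain ⟨k, hk⟩ := exists_uniform (S := T) hTZ (by
      intro t ht
      rw [hTgen]
      exact hTZ2 t ht)
    refine ⟨k * C, fun z hz n hn => ?_⟩
    have h1 := (hTZ3 z hz n hn).bind hk
    exact h1.mono (by rw [mul_add]; nlinarith)

theorem inBall_finite {G : Type*} [Group G] {T : Set G} (hT : T.Finite) (n : ℕ) :
    {g : G | InBall T n g}.Finite := by
  induction n with
  | zero =>
    refine (Set.finite_singleton (1 : G)).subset ?_
    rintro g ⟨l, h1, -, h3⟩
    have : l = [] := List.length_eq_zero_iff.1 (by omega)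
    rw [this] at h3
    exact h3.symm
  | succ n ih =>
    have h1 : {g : G | InBall T (n + 1) g} ⊆ {g : G | InBall T n g} ∪
        Set.image2 (fun a g => a * g) (T ∪ T⁻¹) {g : G | InBall T n g} := by
      rintro g ⟨l, h1, h2, h3⟩
      cases l with
      | nil => exact Or.inl ⟨[], by simp, by simp, h3⟩
      | cons a l =>
        right
        refine ⟨a, ?_, l.prod, ⟨l, by simpa using h1, fun x hx => h2 x (by simp [hx]), rfl⟩, ?_⟩
        · rcases h2 a (by simp) with h | h
          · exact Or.inl h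
          · exact Or.inr h
        · rw [← h3, List.prod_cons]
    exact (ih.union (Set.Finite.image2 _ (hT.union hT.inv) ih)).subset h1

section fw

variable {Γ V : Type*} [Group Γ] [MulAction Γ V]

theorem IsFW.append {T : SimpleGraph V} {S' : Set Γ} {U : Set V} {g₁ g₂ : ℕ → Γ} {u₁ u₂ : ℕ → V}
    {N₁ N₂ : ℕ} (h₁ : IsFW T S' U g₁ u₁ N₁) (h₂ : IsFW T S' U g₂ u₂ N₂) (hg : g₁ N₁ = g₂ 0)
    (hu : u₁ N₁ = u₂ 0) :
    IsFW T S' U (fun k => if k ≤ N₁ then g₁ k else g₂ (k - N₁))
      (fun k => if k ≤ N₁ then u₁ k else u₂ (k - N₁)) (N₁ + N₂) := by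
  constructor
  · intro k hk
    by_cases hk1 : k ≤ N₁
    · simp only [hk1, if_true]
      exact h₁.near k hk1
    · simp only [hk1, if_false]
      exact h₂.near (k - N₁) (by omega)
  · intro k hk
    by_cases hk1 : k + 1 ≤ N₁
    · have hk2 : k ≤ N₁ := by omega
      simp only [hk1, hk2, if_true]
      exact h₁.step k (by omega)
    · by_cases hk2 : k ≤ N₁
      · have hk3 : k = N₁ := by omega
        subst hk3
        have e : k + 1 - k = 1 := by omega
        simp only [hk2, hk1, if_true, if_false, e]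
        rw [hg, hu]
        exact h₂.step 0 (by omega)
      · have e : k + 1 - N₁ = (k - N₁) + 1 := by omega
        simp only [hk2, hk1, if_false, e]
        exact h₂.step (k - N₁) (by omega)

theorem exists_fw {T : SimpleGraph V} (hT : T.Connected)
    (hadj : ∀ (g : Γ) (u v : V), T.Adj u v → T.Adj (g • u) (g • v)) (v₀ : V)
    {S : Set Γ} (hS : S.Finite) :
    ∃ (S' : Set Γ) (U : Set V) (D : ℕ), S'.Finite ∧ U.Finite ∧ ∀ (n : ℕ) (z : Γ), InBall S n z →
      ∃ (N : ℕ) (g : ℕ → Γ) (u : ℕ → V), N ≤ D * n ∧ IsFW T S' U g u N ∧ g 0 = 1 ∧ u 0 = v₀ ∧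
        g N = z ∧ u N = z • v₀ := by
  classical
  have hw : ∀ a : Γ, ∃ _ : T.Walk v₀ (a • v₀), True := fun a =>
    ⟨(hT.preconnected v₀ (a • v₀)).some, trivial⟩
  choose w hw using hw
  set A : Set Γ := S ∪ S⁻¹ with hA
  have hAfin : A.Finite := hS.union hS.inv
  set U : Set V := {v₀} ∪ ⋃ a ∈ A, {p : V | p ∈ (w a).support} with hU
  have hUfin : U.Finite := by
    apply (Set.finite_singleton _).union
    exact hAfin.biUnion fun a _ => List.finite_toSet _
  set S' : Set Γ := {1} ∪ A with hS'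
  have hS'fin : S'.Finite := (Set.finite_singleton _).union hAfin
  obtain ⟨D, hD⟩ := (hAfin.image fun a => (w a).length + 1).bddAbove
  refine ⟨S', U, D, hS'fin, hUfin, ?_⟩
  have hletter : ∀ a ∈ A, IsFW T S' U (fun k => if k ≤ (w a).length then 1 else a)
      (fun k => (w a).getVert k) ((w a).length + 1) := by
    intro a ha
    constructor
    · intro k hk
      by_cases hk1 : k ≤ (w a).length
      · simp only [hk1, if_true, inv_one, one_smul]
        right
        exact Set.mem_biUnion ha ((w a).getVert_mem_support k)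
      · simp only [hk1, if_false]
        left
        rw [(w a).getVert_of_length_le (by omega), inv_smul_smul]
        rfl
    · intro k hk
      by_cases hk1 : k + 1 ≤ (w a).length
      · have hk2 : k ≤ (w a).length := by omega
        simp only [hk1, hk2, if_true]
        refine ⟨by simp [hS'], Or.inr ⟨trivial, ?_⟩⟩
        exact (w a).adj_getVert_succ (by omega)
      · have hk2 : k ≤ (w a).length := by omega
        simp only [hk1, hk2, if_true, if_false]
        refine ⟨by simp [hS', ha], Or.inl ?_⟩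
        rw [(w a).getVert_of_length_le (by omega), (w a).getVert_of_length_le (by omega)]
  have key : ∀ l : List Γ, (∀ x ∈ l, x ∈ S ∨ x⁻¹ ∈ S) →
      ∃ (N : ℕ) (g : ℕ → Γ) (u : ℕ → V), N ≤ D * l.length ∧ IsFW T S' U g u N ∧ g 0 = 1 ∧
        u 0 = v₀ ∧ g N = l.prod ∧ u N = l.prod • v₀ := by
    intro l
    induction l with
    | nil =>
      intro _
      refine ⟨0, fun _ => 1, fun _ => v₀, by simp, ⟨?_, ?_⟩, rfl, rfl, by simp, by simp⟩
      · intro k _
        simp [hU]
      · intro k hk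
        omega
    | cons a l ih =>
      intro hl
      obtain ⟨N, g, u, hN, hfw, hg0, hu0, hgN, huN⟩ := ih fun x hx => hl x (by simp [hx])
      have haA : a ∈ A := by
        rcases hl a (by simp) with h | h
        · exact Or.inl h
        · exact Or.inr h
      have h1 := hletter a haA
      have h2 := hfw.smul hadj a
      have h3 := h1.append h2 (by simp [hg0]) (by
        show (w a).getVert ((w a).length + 1) = a • u 0
        rw [(w a).getVert_of_length_le (by omega), hu0])
      refine ⟨_, _, _, ?_, h3, ?_, ?_, ?_, ?_⟩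
      · have h4 : (w a).length + 1 ≤ D := hD ⟨a, haA, rfl⟩
        rw [List.length_cons, mul_add, mul_one]
        omega
      · simp
      · simp
      · rcases Nat.eq_zero_or_pos N with hN0 | hN0
        · subst hN0
          rw [hg0] at hgN
          simp [← hgN]
        · have : ¬ ((w a).length + 1 + N ≤ (w a).length + 1) := by omega
          simp only [this, if_false]
          have e : (w a).length + 1 + N - ((w a).length + 1) = N := by omega
          rw [e, hgN, List.prod_cons]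
      · rcases Nat.eq_zero_or_pos N with hN0 | hN0
        · subst hN0
          rw [hg0] at hgN
          simp only [add_zero, le_refl, if_true]
          rw [(w a).getVert_of_length_le (by omega), List.prod_cons, ← hgN, mul_one]
        · have : ¬ ((w a).length + 1 + N ≤ (w a).length + 1) := by omega
          simp only [this, if_false]
          have e : (w a).length + 1 + N - ((w a).length + 1) = N := by omega
          rw [e, huN, List.prod_cons, mul_smul]
  rintro n z ⟨l, h1, h2, rfl⟩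
  obtain ⟨N, g, u, hN, hrest⟩ := key l h2
  exact ⟨N, g, u, hN.trans (Nat.mul_le_mul_left _ h1), hrest⟩

end fw

section main

variable {Γ M V : Type*} [Group Γ] [MetricSpace M] [MulAction Γ M] [MulAction Γ V]

theorem vertex_fg (h : IsNoConjCover Γ M) {T : SimpleGraph V} (hT : T.IsTree)
    (hadj : ∀ (g : Γ) (u v : V), T.Adj u v → T.Adj (g • u) (g • v))
    (hE : ∀ u v : V, T.Adj u v → (edgeStab Γ u v).FG ∧
      ∀ a ∈ edgeStab Γ u v, ∀ b ∈ edgeStab Γ u v, a * b = b * a)
    (v : V) : (MulAction.stabilizer Γ v).FG := by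
  have hfg := group_fg h
  rw [Group.fg_iff] at hfg
  obtain ⟨S, hSgen, hS⟩ := hfg
  obtain ⟨S', U, D, hS', hU, hfw⟩ := exists_fw hT.1 hadj v hS
  obtain ⟨Tv, C, hTv, hTv2, hTv3⟩ := vertex_bound h hT.2 hadj hE v (T' := {1}) hS'
    (Set.finite_singleton _) hU
  rw [Subgroup.fg_iff]
  refine ⟨Tv, ?_, hTv⟩
  apply le_antisymm
  · rw [Subgroup.closure_le]
    intro t ht
    exact hTv2 t ht
  · intro g hg
    have hgv : g • v = v := hg
    obtain ⟨n, hn⟩ := inBall_of_mem_closure (S := S) (g := g) (by rw [hSgen]; trivial)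
    obtain ⟨N, gs, us, -, hw, hg0, hu0, hgN, huN⟩ := hfw n g hn
    have h1 := hTv3 N gs us hw hu0 (by rw [huN, hgv]) 1 g (one_smul _ _) hgv (by simp [hg0])
      (by simp [hgN])
    rw [inv_one, one_mul] at h1
    exact h1.mem_closure

/-- straightness of the centralizers in the vertex group, in terms of `Γ` -/
theorem vertex_cent_bound {p : V} {γ : Γ} (hγ : γ • p = p)
    (hfg : (MulAction.stabilizer Γ p).FG)
    (hV : Straight (Subgroup.centralizer {(⟨γ, hγ⟩ : MulAction.stabilizer Γ p)}))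
    {Tp : Set Γ} (hTp : Tp.Finite) (hTp2 : ∀ t ∈ Tp, t • p = p) :
    ∃ (T' : Set Γ) (C : ℕ), T'.Finite ∧ (∀ t ∈ T', Commute t γ) ∧
      ∀ (n : ℕ) (x : Γ), InBall Tp n x → x • p = p → Commute x γ → InBall T' (C * n + C) x := by
  classical
  set Gp := MulAction.stabilizer Γ p with hGp
  rw [Subgroup.fg_iff] at hfg
  obtain ⟨S₀, hS₀, hS₀fin⟩ := hfg
  set S₁ : Set Gp := Subtype.val ⁻¹' (Tp ∪ S₀) with hS₁
  have hS₁fin : S₁.Finite := (hTp.union hS₀fin).preimage Subtype.val_injective.injOn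
  have hmem : ∀ t ∈ Tp ∪ S₀, t ∈ Gp := by
    rintro t (ht | ht)
    · exact hTp2 t ht
    · have := Subgroup.subset_closure (k := S₀) ht
      rwa [hS₀] at this
  have hlift : ∀ (n : ℕ) (x : Γ) (hx : x ∈ Gp), InBall (Tp ∪ S₀) n x →
      InBall S₁ n (⟨x, hx⟩ : Gp) := by
    intro n x hx hn
    obtain ⟨d, hd, hd2⟩ := InBall.lift Gp.subtype
      (fun y => if hy : y ∈ Gp then (⟨y, hy⟩ : Gp) else 1)
      (fun t ht => by simp [hmem t ht]) hn
    have e : d = ⟨x, hx⟩ := Subtype.ext hd2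
    rw [← e]
    refine hd.mono_set ?_
    rintro _ ⟨t, ht, rfl⟩
    simp only [hS₁, Set.mem_preimage, hmem t ht, dif_pos]
    exact ht
  have hgen : Subgroup.closure S₁ = ⊤ := by
    rw [eq_top_iff]
    rintro ⟨x, hx⟩ _
    have hx' : x ∈ Subgroup.closure S₀ := by rw [hS₀]; exact hx
    obtain ⟨n, hn⟩ := inBall_of_mem_closure hx'
    exact (hlift n x hx (hn.mono_set Set.subset_union_right)).mem_closure
  obtain ⟨hZfg, hZst⟩ := hV
  rw [Subgroup.fg_iff] at hZfg
  obtain ⟨T₂, hT₂, hT₂fin⟩ := hZfg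
  obtain ⟨C, hC⟩ := hZst S₁ T₂ hS₁fin hT₂fin hgen hT₂
  refine ⟨Subtype.val '' T₂, C, hT₂fin.image _, ?_, ?_⟩
  · rintro _ ⟨t, ht, rfl⟩
    have h1 := Subgroup.subset_closure (k := T₂) ht
    rw [hT₂] at h1
    have h2 := Subgroup.mem_centralizer_singleton_iff.1 h1
    exact congrArg Subtype.val h2
  · intro n x hx hxp hxγ
    have h1 := hlift n x hxp (hx.mono_set Set.subset_union_left)
    have h2 : (⟨x, hxp⟩ : Gp) ∈ Subgroup.centralizer {(⟨γ, hγ⟩ : Gp)} := by
      rw [Subgroup.mem_centralizer_singleton_iff]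
      exact Subtype.ext hxγ
    have h3 := (hC _ h2 n h1).map Gp.subtype
    exact h3

/-- the same bound if the centralizer in the vertex group is virtually abelian -/
theorem vertex_cent_bound_ab (h : IsNoConjCover Γ M) {p : V} {γ : Γ} (hγ : γ • p = p)
    (hV : VirtAb (Subgroup.centralizer {(⟨γ, hγ⟩ : MulAction.stabilizer Γ p)}))
    {Tp : Set Γ} (hTp : Tp.Finite) :
    ∃ (T' : Set Γ) (C : ℕ), T'.Finite ∧ (∀ t ∈ T', Commute t γ) ∧
      ∀ (n : ℕ) (x : Γ), InBall Tp n x → x • p = p → Commute x γ → InBall T' (C * n + C) x := by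
  classical
  set Gp := MulAction.stabilizer Γ p with hGp
  set Z := Subgroup.centralizer {(⟨γ, hγ⟩ : Gp)} with hZ
  obtain ⟨A₀, hA₀Z, hA₀fg, hA₀c, hA₀i⟩ := hV
  set A : Subgroup Γ := A₀.map Gp.subtype with hA
  have hAfg : A.FG := by
    rw [Subgroup.fg_iff] at hA₀fg ⊢
    obtain ⟨S, hS, hSfin⟩ := hA₀fg
    exact ⟨Gp.subtype '' S, by rw [hA, ← hS, MonoidHom.map_closure], hSfin.image _⟩
  have hAc : ∀ a ∈ A, ∀ b ∈ A, a * b = b * a := by
    rintro _ ⟨a, ha, rfl⟩ _ ⟨b, hb, rfl⟩
    have := hA₀c a ha b hb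
    exact congrArg Subtype.val this
  have hAγ : ∀ a ∈ A, Commute a γ := by
    rintro _ ⟨a, ha, rfl⟩
    have := Subgroup.mem_centralizer_singleton_iff.1 (hA₀Z ha)
    exact congrArg Subtype.val this
  obtain ⟨TA, CA, hTA, hTA2, hTA3⟩ := ab_bound h A hAc hAfg
  have hfinq : Finite (Z ⧸ A₀.subgroupOf Z) := by
    have : (A₀.subgroupOf Z).FiniteIndex := ⟨hA₀i⟩
    exact Subgroup.finite_quotient_of_finiteIndex
  have hZmem : ∀ (x : Γ) (hx : x • p = p), Commute x γ → (⟨x, hx⟩ : Gp) ∈ Z := by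
    intro x hx hxγ
    rw [hZ, Subgroup.mem_centralizer_singleton_iff]
    exact Subtype.ext hxγ
  obtain ⟨R, hRfin, hRP, hR⟩ := exists_reps
    (fun x : Γ => if hx : ∃ hx : x • p = p, (⟨x, hx⟩ : Gp) ∈ Z then
        ((⟨⟨x, hx.1⟩, hx.2⟩ : Z) : Z ⧸ A₀.subgroupOf Z)
      else ((1 : Z) : Z ⧸ A₀.subgroupOf Z))
    (fun x => x • p = p ∧ Commute x γ)
  obtain ⟨L, hL0, hL⟩ := tl_le_of_inBall h (hTp.union hRfin)
  obtain ⟨L', hL'⟩ := exists_nat_ge L
  refine ⟨R ∪ TA, 1 + CA * L', hRfin.union hTA, ?_, ?_⟩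
  · rintro t (ht | ht)
    · exact (hRP t ht).2
    · exact hAγ t (hTA2 t ht)
  · intro n x hx hxp hxγ
    obtain ⟨r, hr, hxr⟩ := hR x ⟨hxp, hxγ⟩
    obtain ⟨hrp, hrγ⟩ := hRP r hr
    have q1 : ∃ hx : x • p = p, (⟨x, hx⟩ : Gp) ∈ Z := ⟨hxp, hZmem x hxp hxγ⟩
    have q2 : ∃ hx : r • p = p, (⟨r, hx⟩ : Gp) ∈ Z := ⟨hrp, hZmem r hrp hrγ⟩
    simp only [dif_pos q1, dif_pos q2] at hxr
    have hxr' := QuotientGroup.eq.1 hxr.symm
    rw [Subgroup.mem_subgroupOf] at hxr'
    have hu : r⁻¹ * x ∈ A := ⟨_, hxr', rfl⟩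
    have h1 : InBall (Tp ∪ R) (1 + n) (r⁻¹ * x) :=
      (inBall_of_mem (S := Tp ∪ R) (g := r) (Or.inr hr)).inv.mul
        (hx.mono_set Set.subset_union_left)
    have h2 := hL _ _ h1
    have h3 : tl M (r⁻¹ * x) ≤ ((L' * (1 + n) : ℕ) : ℝ) := by
      refine h2.trans ?_
      push_cast
      exact mul_le_mul_of_nonneg_right hL' (by positivity)
    have h4 := hTA3 _ hu _ h3
    have h5 : InBall (R ∪ TA) 1 r := inBall_of_mem (Or.inl hr)
    have h6 := h5.mul (h4.mono_set (S' := R ∪ TA) Set.subset_union_right)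
    rw [mul_inv_cancel_left] at h6
    refine h6.mono ?_
    nlinarith

theorem elliptic_straight (h : IsNoConjCover Γ M) {T : SimpleGraph V} (hT : T.IsTree)
    (hadj : ∀ (g : Γ) (u v : V), T.Adj u v → T.Adj (g • u) (g • v))
    (hE : ∀ u v : V, T.Adj u v → (edgeStab Γ u v).FG ∧
      ∀ a ∈ edgeStab Γ u v, ∀ b ∈ edgeStab Γ u v, a * b = b * a)
    (γ : Γ) (hV : ∀ (v : V) (hv : γ • v = v), TameCent (⟨γ, hv⟩ : MulAction.stabilizer Γ v))
    (v₀ : V) (hγ : γ • v₀ = v₀) : Straight (Subgroup.centralizer {γ}) := by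
  classical
  apply straight_of_bound (group_fg h)
  intro S hS hSgen
  obtain ⟨S', U, D, hS', hU, hfw⟩ := exists_fw hT.1 hadj v₀ hS
  -- the finite set of conjugates of `γ` in the edge groups
  have hEb : ∀ p q : V, ∃ Fpq : Set Γ, Fpq.Finite ∧
      (T.Adj p q → ∀ c : Γ, c • p = p → c • q = q → tl M c = tl M γ → c ∈ Fpq) := by
    intro p q
    by_cases hpq : T.Adj p q
    · obtain ⟨hfg, hcomm⟩ := hE p q hpq
      obtain ⟨TE, CE, h1, h2, h3⟩ := ab_bound h (edgeStab Γ p q) hcomm hfg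
      obtain ⟨m, hm⟩ := exists_nat_ge (tl M γ)
      refine ⟨{c | InBall TE (CE * m) c}, inBall_finite h1 _, fun _ c hc1 hc2 hc3 => ?_⟩
      exact h3 c (mem_edgeStab.2 ⟨hc1, hc2⟩) m (by rw [hc3]; exact hm)
    · exact ⟨∅, Set.finite_empty, fun h => (hpq h).elim⟩
  choose Fpq hFfin hF using hEb
  set CC : Set Γ := ⋃ p ∈ U, ⋃ q ∈ U, Fpq p q with hCC
  have hCCfin : CC.Finite := hU.biUnion fun p _ => hU.biUnion fun q _ => hFfin p q
  have hρ : ∀ c : Γ, ∃ ρ : Γ, (∃ x : Γ, x⁻¹ * γ * x = c) → ρ⁻¹ * γ * ρ = c := by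
    intro c
    by_cases hc : ∃ x : Γ, x⁻¹ * γ * x = c
    · obtain ⟨x, hx⟩ := hc
      exact ⟨x, fun _ => hx⟩
    · exact ⟨1, fun h => (hc h).elim⟩
  choose ρ hρ using hρ
  set TT : Set Γ := {1} ∪ ρ '' CC with hTT
  have hTTfin : TT.Finite := (Set.finite_singleton _).union (hCCfin.image ρ)
  set P₀ : Set V := Set.image2 (fun (t : Γ) (p : V) => t • p) TT U with hP₀
  have hP₀fin : P₀.Finite := Set.Finite.image2 _ hTTfin hU
  have hκ : ∀ p q : V, ∃ κ : Γ, Commute κ γ ∧
      ((∃ x : Γ, Commute x γ ∧ x • q = p) → κ • q = p) := by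
    intro p q
    by_cases hp : ∃ x : Γ, Commute x γ ∧ x • q = p
    · obtain ⟨x, hx1, hx2⟩ := hp
      exact ⟨x, hx1, fun _ => hx2⟩
    · exact ⟨1, Commute.one_left _, fun h => (hp h).elim⟩
  choose κ hκ1 hκ2 using hκ
  set K : Set Γ := Set.image2 κ P₀ P₀ with hK
  have hKfin : K.Finite := Set.Finite.image2 _ hP₀fin hP₀fin
  set T' : Set Γ := TT ∪ Set.image2 (fun a b => a * b) K TT with hT'
  have hT'fin : T'.Finite := hTTfin.union (Set.Finite.image2 _ hKfin hTTfin)
  -- bounds at the vertices of `P₀`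
  have hvb : ∀ p : V, ∃ (Tp : Set Γ) (C : ℕ), Tp.Finite ∧ (∀ t ∈ Tp, Commute t γ) ∧
      (γ • p = p → ∀ (N : ℕ) (g : ℕ → Γ) (u : ℕ → V), IsFW T S' U g u N → u 0 = p → u N = p →
        ∀ y' : Γ, y' • p = p → g 0 ∈ T' → y'⁻¹ * g N ∈ T' → Commute y' γ →
          InBall Tp (C * N + C) y') := by
    intro p
    by_cases hp : γ • p = p
    · obtain ⟨T₁, C₁, h1, h2, h3⟩ := vertex_bound h hT.2 hadj hE p hS' hT'fin hU
      obtain ⟨T₂, C₂, h4, h5, h6⟩ : ∃ (T' : Set Γ) (C : ℕ), T'.Finite ∧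
          (∀ t ∈ T', Commute t γ) ∧ ∀ (n : ℕ) (x : Γ), InBall T₁ n x → x • p = p →
            Commute x γ → InBall T' (C * n + C) x := by
        rcases hV p hp with hst | hva
        · exact vertex_cent_bound hp (vertex_fg h hT hadj hE p) hst h1 h2
        · exact vertex_cent_bound_ab h hp hva h1
      refine ⟨T₂, C₂ * C₁ + C₂, h4, h5, fun _ N g u hw hu0 huN y' hy' hg0 hgN hyγ => ?_⟩
      have h7 := h3 N g u hw hu0 huN 1 y' (one_smul _ _) hy' (by simpa using hg0) hgN
      rw [inv_one, one_mul] at h7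
      have h8 := h6 _ y' h7 hy' hyγ
      refine h8.mono ?_
      nlinarith [Nat.zero_le (C₂ * N)]
    · exact ⟨∅, 0, Set.finite_empty, fun t ht => ht.elim, fun h => (hp h).elim⟩
  choose Tp Cp hTpfin hTpγ hTp using hvb
  obtain ⟨CM, hCM⟩ := (hP₀fin.image Cp).bddAbove
  have hCM' : ∀ x ∈ P₀, Cp x ≤ CM := fun x hx => hCM ⟨x, hx, rfl⟩
  set TZ : Set Γ := K ∪ ⋃ p ∈ P₀, Tp p with hTZ
  have hTZfin : TZ.Finite := hKfin.union (hP₀fin.biUnion fun p _ => hTpfin p)
  have hTZγ : ∀ t ∈ TZ, Commute t γ := by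
    rintro t (ht | ht)
    · obtain ⟨a, -, b, -, rfl⟩ := ht
      exact hκ1 a b
    · simp only [Set.mem_iUnion] at ht
      obtain ⟨p, -, ht⟩ := ht
      exact hTpγ p t ht
  -- two marks at the same vertex
  have same : ∀ (N : ℕ) (g : ℕ → Γ) (u : ℕ → V), IsFW T S' U g u N → u 0 = u N → γ • u 0 = u 0 →
      ∀ z z' : Γ, Commute z γ → Commute z' γ → z⁻¹ * g 0 ∈ TT → z'⁻¹ * g N ∈ TT →
        InBall TZ ((CM + 1) * N + (CM + 1)) (z⁻¹ * z') := by
    intro N g u hw huN hγu z z' hz hz' hzg hz'g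
    set w := u 0 with hwdef
    set pa : V := z⁻¹ • w with hpa
    set pb : V := z'⁻¹ • w with hpb
    have hpaP : pa ∈ P₀ := by
      refine ⟨z⁻¹ * g 0, hzg, (g 0)⁻¹ • u 0, hw.near 0 (Nat.zero_le _), ?_⟩
      show (z⁻¹ * g 0) • (g 0)⁻¹ • u 0 = pa
      rw [mul_smul, smul_inv_smul]
    have hpbP : pb ∈ P₀ := by
      refine ⟨z'⁻¹ * g N, hz'g, (g N)⁻¹ • u N, hw.near N le_rfl, ?_⟩
      show (z'⁻¹ * g N) • (g N)⁻¹ • u N = pb
      rw [mul_smul, smul_inv_smul, ← huN]
    have hγpa : γ • pa = pa := by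
      have : γ * z⁻¹ = z⁻¹ * γ := hz.inv_left.eq.symm
      rw [hpa, ← mul_smul, this, mul_smul, hγu]
    set δ : Γ := z⁻¹ * z' with hδ
    have hδγ : Commute δ γ := hz.inv_left.mul_left hz'
    have hδp : δ • pb = pa := by rw [hδ, hpb, hpa, mul_smul, smul_inv_smul]
    have hκp := hκ2 pa pb ⟨δ, hδγ, hδp⟩
    have hκγ := hκ1 pa pb
    have hκK : κ pa pb ∈ K := ⟨pa, hpaP, pb, hpbP, rfl⟩
    set y' : Γ := δ * (κ pa pb)⁻¹ with hy'
    have hy'p : y' • pa = pa := by
      have : (κ pa pb)⁻¹ • pa = pb := by rw [inv_smul_eq_iff, hκp]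
      rw [hy', mul_smul, this, hδp]
    have hy'γ : Commute y' γ := hδγ.mul_left hκγ.inv_left
    have h1 := hTp pa hγpa N _ _ (hw.smul hadj z⁻¹) rfl
      (show z⁻¹ • u N = pa by rw [← huN]) y' hy'p
      (Or.inl hzg) (by
        right
        refine ⟨κ pa pb, hκK, z'⁻¹ * g N, hz'g, ?_⟩
        show κ pa pb * (z'⁻¹ * g N) = y'⁻¹ * (z⁻¹ * g N)
        rw [hy', hδ]; group) hy'γ
    have h2 : InBall TZ (Cp pa * N + Cp pa) y' := by
      apply h1.mono_set
      intro t ht
      exact Or.inr (Set.mem_biUnion hpaP ht)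
    have h3 := h2.mul (inBall_of_mem (S := TZ) (Or.inl hκK))
    have e : y' * κ pa pb = δ := by rw [hy']; group
    rw [e] at h3
    refine h3.mono ?_
    have h4 := hCM' pa hpaP
    nlinarith [Nat.mul_le_mul_right N h4]
  -- the main induction
  have main : ∀ (N : ℕ) (g : ℕ → Γ) (u : ℕ → V), IsFW T S' U g u N → γ • u 0 = u 0 →
      γ • u N = u N → ∀ z z' : Γ, Commute z γ → Commute z' γ → z⁻¹ * g 0 ∈ TT →
        z'⁻¹ * g N ∈ TT → InBall TZ ((CM + 1) * N + (CM + 1)) (z⁻¹ * z') := by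
    intro N
    induction N using Nat.strong_induction_on with
    | _ N ih =>
      intro g u hw hγ0 hγN z z' hz hz' hzg hz'g
      -- last visit to `u 0`
      have hfinite : ∃ k ∈ Finset.range (N + 1), u k = u 0 ∧
          ∀ j ∈ Finset.range (N + 1), u j = u 0 → j ≤ k := by
        have hne : ((Finset.range (N + 1)).filter fun k => u k = u 0).Nonempty :=
          ⟨0, by simp⟩
        refine ⟨_, (Finset.mem_filter.1 (Finset.max'_mem _ hne)).1,
          (Finset.mem_filter.1 (Finset.max'_mem _ hne)).2, fun j hj hj2 => ?_⟩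
        exact Finset.le_max' _ j (Finset.mem_filter.2 ⟨hj, hj2⟩)
      obtain ⟨k, hkr, hk0, hkmax⟩ := hfinite
      have hkN : k ≤ N := by rw [Finset.mem_range] at hkr; omega
      rcases Nat.eq_or_lt_of_le hkN with hkN' | hkN'
      · subst hkN'
        exact same k g u hw hk0.symm hγ0 z z' hz hz' hzg hz'g
      · -- the neighbour `x = u (k+1)` is fixed by `γ`
        have hne : ∀ j, k + 1 ≤ j → j ≤ N → u j ≠ u 0 := by
          intro j hj1 hj2 hj3
          have := hkmax j (Finset.mem_range.2 (by omega)) hj3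
          omega
        have hstep : g k = g (k + 1) ∧ T.Adj (u 0) (u (k + 1)) := by
          rcases (hw.step k hkN').2 with h2 | h2
          · rw [hk0] at h2
            exact (hne (k + 1) le_rfl (by omega) h2.symm).elim
          · rwa [hk0] at h2
        obtain ⟨W1, hW1⟩ := exists_walk_of_seq (T := T) (u := u) (v := u 0)
          (by omega : k + 1 ≤ N) (fun j hj1 hj2 => by
            rcases (hw.step j hj2).2 with h2 | h2
            · exact Or.inl h2
            · exact Or.inr h2.2) hne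
        obtain ⟨W2, hW2⟩ := exists_walk_of_seq (T := T) (u := fun j => γ • u j) (v := u 0)
          (by omega : k + 1 ≤ N) (fun j hj1 hj2 => by
            rcases (hw.step j hj2).2 with h2 | h2
            · left; show γ • u j = γ • u (j + 1); rw [h2]
            · right; exact hadj _ _ _ h2.2) (fun j hj1 hj2 hj3 => by
            apply hne j hj1 hj2
            have hj4 : γ • u j = u 0 := hj3
            rw [← hγ0] at hj4
            exact smul_left_cancel γ hj4)
        have hx : u (k + 1) = γ • u (k + 1) := by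
          have hγN' : γ • u N = u N := hγN
          refine neighbour_unique hT.2 (v := u 0) (W1.append (W2.copy rfl hγN').reverse) ?_
            hstep.2 ?_
          · intro hmem
            rw [SimpleGraph.Walk.mem_support_append_iff] at hmem
            rcases hmem with hm | hm
            · exact hW1 hm
            · rw [SimpleGraph.Walk.support_reverse, List.mem_reverse,
                SimpleGraph.Walk.support_copy] at hm
              exact hW2 hm
          · have := hadj γ _ _ hstep.2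
            rwa [hγ0] at this
        -- the mark at the crossing
        set c : Γ := (g k)⁻¹ * γ * g k with hc
        have hc1 : c • ((g k)⁻¹ • u k) = (g k)⁻¹ • u k := by
          rw [hc, mul_smul, smul_inv_smul, mul_smul, hk0, hγ0]
        have hc2 : c • ((g (k + 1))⁻¹ • u (k + 1)) = (g (k + 1))⁻¹ • u (k + 1) := by
          rw [hc, ← hstep.1, mul_smul, smul_inv_smul, mul_smul, ← hx]
        have hctl : tl M c = tl M γ := by
          have := tl_conj h γ (g k)⁻¹ (M := M)
          rwa [inv_inv] at this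
        have hadjk : T.Adj ((g k)⁻¹ • u k) ((g (k + 1))⁻¹ • u (k + 1)) := by
          rw [← hstep.1, hk0]
          exact hadj _ _ _ hstep.2
        have hcCC : c ∈ CC := by
          have h1 := hw.near k hkN
          have h2 := hw.near (k + 1) (by omega)
          exact Set.mem_biUnion h1 (Set.mem_biUnion h2 (hF _ _ hadjk c hc1 hc2 hctl))
        have hρc := hρ c ⟨g k, rfl⟩
        set y : Γ := g k * (ρ c)⁻¹ with hy
        have hyγ : Commute y γ := by
          have h1 : y⁻¹ * γ * y = γ := by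
            have e : y⁻¹ * γ * y = ρ c * ((g k)⁻¹ * γ * g k) * (ρ c)⁻¹ := by rw [hy]; group
            have e2 : (g k)⁻¹ * γ * g k = (ρ c)⁻¹ * γ * ρ c := by rw [hρc]
            rw [e, e2]; group
          show y * γ = γ * y
          calc y * γ = y * (y⁻¹ * γ * y) := by rw [h1]
            _ = γ * y := by group
        have hyg : y⁻¹ * g k = ρ c := by rw [hy]; group
        have hyT : y⁻¹ * g k ∈ TT := by rw [hyg]; exact Or.inr ⟨c, hcCC, rfl⟩
        have hA := same k g u (hw.trunc hkN) hk0.symm hγ0 z y hz hyγ hzg hyT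
        have hB := ih (N - (k + 1)) (by omega) (fun i => g (k + 1 + i)) (fun i => u (k + 1 + i))
          (hw.shift (by omega)) (by simpa using hx.symm) (by
            have : k + 1 + (N - (k + 1)) = N := by omega
            simp only [this]
            exact hγN) y z' hyγ hz' (by
              simp only [add_zero]
              rw [← hstep.1]
              exact hyT) (by
              have : k + 1 + (N - (k + 1)) = N := by omega
              simp only [this]
              exact hz'g)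
        have hfin := hA.mul hB
        have e6 : z⁻¹ * y * (y⁻¹ * z') = z⁻¹ * z' := by group
        rw [e6] at hfin
        refine hfin.mono ?_
        obtain ⟨r, hr⟩ := Nat.exists_eq_add_of_le (by omega : k + 1 ≤ N)
        have hr' : N - (k + 1) = r := by omega
        rw [hr', hr]
        nlinarith
  refine ⟨TZ, (CM + 1) * D + (CM + 1), hTZfin, ?_, ?_⟩
  · intro t ht
    exact Subgroup.mem_centralizer_singleton_iff.2 (hTZγ t ht)
  · intro z hz n hn
    have hzγ : Commute z γ := Subgroup.mem_centralizer_singleton_iff.1 hz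
    obtain ⟨N, g, u, hN, hw, hg0, hu0, hgN, huN⟩ := hfw n z hn
    have h1 := main N g u hw (by rw [hu0, hγ]) (by
      rw [huN, ← mul_smul, ← hzγ.eq, mul_smul, hγ]) 1 z (Commute.one_left _) hzγ
      (by left; simp [hg0]) (by left; simp [hgN])
    rw [inv_one, one_mul] at h1
    refine h1.mono ?_
    have h2 : (CM + 1) * N ≤ (CM + 1) * (D * n) := Nat.mul_le_mul_left _ hN
    nlinarith [Nat.zero_le ((CM + 1) * n), Nat.zero_le ((CM + 1) * D)]

end main

end Helper33.NCP
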