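import Pool.Agent.Helper33.NCP.Defs

/-!
Isometric actions on geodesic spaces without conjugate points: the minimal displacement.
-/

open Set

namespace Helper33.NCP

variable {Γ M : Type*} [Group Γ] [MetricSpace M] [MulAction Γ M]

/-- the minimal displacement of `g` -/
noncomputable def tl (M : Type*) [MetricSpace M] [MulAction Γ M] (g : Γ) : ℝ :=
  ⨅ x : M, dist x (g • x)

theorem tl_le (g : Γ) (x : M) : tl M g ≤ dist x (g • x) :=
  ciInf_le ⟨0, by rintro _ ⟨y, rfl⟩; exact dist_nonneg⟩ x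

theorem tl_nonneg (g : Γ) : 0 ≤ tl M g :=
  Real.iInf_nonneg fun _ => dist_nonneg

theorem disp_conj (h : IsNoConjCover Γ M) (g k : Γ) (x : M) :
    dist (k • x) ((k * g * k⁻¹) • (k • x)) = dist x (g • x) := by
  have : (k * g * k⁻¹) • (k • x) = k • (g • x) := by
    simp [smul_smul, mul_assoc]
  rw [this, h.isometric]

theorem exists_min (h : IsNoConjCover Γ M) (g : Γ) :
    ∃ x : M, ∀ y : M, dist x (g • x) ≤ dist y (g • y) := by
  classical
  have := h.proper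
  obtain ⟨x₀, R, hR⟩ := h.cocompact
  have hR0 : 0 ≤ R := by
    obtain ⟨k, hk⟩ := hR x₀
    exact dist_nonneg.trans hk
  set C : ℝ := dist x₀ (g • x₀) with hC
  set B := Metric.closedBall x₀ R with hB
  have hBc : IsCompact B := isCompact_closedBall x₀ R
  have hBn : B.Nonempty := ⟨x₀, by simp [hB, hR0]⟩
  -- the finite set of relevant conjugates
  set F : Set Γ := {g' : Γ | (∃ k : Γ, g' = k * g * k⁻¹) ∧ ∃ y ∈ B, dist y (g' • y) ≤ C} with hF
  have hFfin : F.Finite := by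
    refine (h.properlyDisc x₀ (2 * R + C)).subset ?_
    rintro g' ⟨-, y, hy, hyC⟩
    have h1 : dist x₀ y ≤ R := by
      have := hy; rw [hB, Metric.mem_closedBall, dist_comm] at this; exact this
    have h2 : dist (g' • y) (g' • x₀) ≤ R := by
      rw [h.isometric, dist_comm]; exact h1
    have h3 : dist x₀ (g' • x₀) ≤ dist x₀ y + dist y (g' • y) + dist (g' • y) (g' • x₀) :=
      dist_triangle4 _ _ _ _
    show dist x₀ (g' • x₀) ≤ 2 * R + C
    linarith
  have hFn : F.Nonempty := ⟨g, ⟨1, by simp⟩, x₀, by simp [hB, hR0], le_refl _⟩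
  -- a minimum point in `B` for every conjugate
  have hmin : ∀ g' : Γ, ∃ y ∈ B, ∀ z ∈ B, dist y (g' • y) ≤ dist z (g' • z) := by
    intro g'
    have hcont : Continuous fun y : M => dist y (g' • y) := by
      have : Isometry fun y : M => g' • y := Isometry.of_dist_eq (h.isometric g')
      exact continuous_id.dist this.continuous
    obtain ⟨y, hy, hy'⟩ := hBc.exists_isMinOn hBn hcont.continuousOn
    exact ⟨y, hy, fun z hz => hy' hz⟩
  choose Y hYB hY using hmin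
  obtain ⟨g₁, hg₁, hg₁min⟩ := hFfin.exists_minimalFor (fun g' => dist (Y g') (g' • Y g')) F hFn
  obtain ⟨⟨k, hk⟩, y₁, hy₁, hy₁C⟩ := hg₁
  refine ⟨k⁻¹ • Y g₁, fun z => ?_⟩
  have hval : dist (k⁻¹ • Y g₁) (g • k⁻¹ • Y g₁) = dist (Y g₁) (g₁ • Y g₁) := by
    rw [← h.isometric k, smul_smul k g, smul_smul, smul_smul, hk]
    simp [mul_assoc]
  rw [hval]
  have hle : dist (Y g₁) (g₁ • Y g₁) ≤ C := (hY g₁ y₁ hy₁).trans hy₁C
  rcases le_or_gt (dist z (g • z)) C with hz | hz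
  · obtain ⟨k', hk'⟩ := hR z
    have hz1 : k'⁻¹ • z ∈ B := by
      rw [hB, Metric.mem_closedBall, ← h.isometric k', smul_smul]
      simpa using hk'
    have hz2 : dist (k'⁻¹ • z) ((k'⁻¹ * g * k'⁻¹⁻¹) • k'⁻¹ • z) = dist z (g • z) :=
      disp_conj h g k'⁻¹ z
    have hz3 : k'⁻¹ * g * k'⁻¹⁻¹ ∈ F := ⟨⟨k'⁻¹, rfl⟩, _, hz1, by rw [hz2]; exact hz⟩
    have h4 := hY (k'⁻¹ * g * k'⁻¹⁻¹) _ hz1
    rw [hz2] at h4
    rcases le_total (dist (Y g₁) (g₁ • Y g₁))
      (dist (Y (k'⁻¹ * g * k'⁻¹⁻¹)) ((k'⁻¹ * g * k'⁻¹⁻¹) • Y (k'⁻¹ * g * k'⁻¹⁻¹))) with h5 | h5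
    · exact h5.trans h4
    · exact (hg₁min hz3 h5).trans h4
  · exact hle.trans hz.le

theorem exists_tl_eq (h : IsNoConjCover Γ M) (g : Γ) : ∃ x : M, dist x (g • x) = tl M g := by
  obtain ⟨x, hx⟩ := exists_min h g
  have : Nonempty M := ⟨x⟩
  exact ⟨x, le_antisymm (le_ciInf hx) (tl_le g x)⟩

theorem tl_pos (h : IsNoConjCover Γ M) {g : Γ} (hg : g ≠ 1) : 0 < tl M g := by
  obtain ⟨x, hx⟩ := exists_tl_eq h g
  rw [← hx, dist_pos]
  intro hx'
  exact hg (h.free g x hx'.symm)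

theorem tl_conj (h : IsNoConjCover Γ M) (g k : Γ) : tl M (k * g * k⁻¹) = tl M g := by
  apply le_antisymm
  · obtain ⟨x, hx⟩ := exists_tl_eq h g
    rw [← hx, ← disp_conj h g k x]
    exact tl_le _ _
  · obtain ⟨x, hx⟩ := exists_tl_eq h (k * g * k⁻¹)
    rw [← hx]
    have := disp_conj h (k * g * k⁻¹) k⁻¹ x
    have e : k⁻¹ * (k * g * k⁻¹) * k⁻¹⁻¹ = g := by group
    rw [e] at this
    rw [← this]
    exact tl_le _ _

end Helper33.NCP
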