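import Pool.Agent.Helper33.NCP.TreeDist
import Pool.Agent.Helper33.NCP.Elliptic

/-!
Actions on trees with abelian edge stabilizers: centralizers of hyperbolic elements.
-/

open Set

namespace Helper33.NCP

/-- subgroups of finitely generated abelian subgroups are finitely generated -/
theorem fg_of_le_comm {Γ : Type*} [Group Γ] {E K : Subgroup Γ} (hfg : E.FG)
    (hcomm : ∀ a ∈ E, ∀ b ∈ E, a * b = b * a) (hK : K ≤ E) : K.FG := by
  let inst : CommGroup E :=
    { (inferInstance : Group E) with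
      mul_comm := fun a b => Subtype.ext (hcomm a a.2 b b.2) }
  have hfg' : Group.FG E := (Group.fg_iff_subgroup_fg E).2 hfg
  have hfin : Module.Finite ℤ (Additive E) := by
    rw [Module.Finite.iff_addGroup_fg, ← GroupFG.iff_add_fg]
    exact hfg'
  have hnoeth : IsNoetherian ℤ (Additive E) := isNoetherian_of_isNoetherianRing_of_finite ℤ _
  -- the subgroup `K` inside `E`
  have h1 : (AddSubgroup.toIntSubmodule (Subgroup.toAddSubgroup (K.subgroupOf E))).FG :=
    IsNoetherian.noetherian _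
  have h2 : (Subgroup.toAddSubgroup (K.subgroupOf E)).FG := by
    rw [Submodule.fg_iff_addSubgroup_fg] at h1
    exact h1
  have h3 : (K.subgroupOf E).FG := (Subgroup.fg_iff_add_fg _).2 h2
  have h4 : ((K.subgroupOf E).map E.subtype).FG := by
    rw [Subgroup.fg_iff] at h3 ⊢
    obtain ⟨S, hS, hSfin⟩ := h3
    exact ⟨E.subtype '' S, by rw [← hS, MonoidHom.map_closure], hSfin.image _⟩
  rwa [Subgroup.subgroupOf_map_subtype, inf_eq_left.2 hK] at h4

variable {Γ M V : Type*} [Group Γ] [MetricSpace M] [MulAction Γ M] [MulAction Γ V]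

theorem straight_of_reps (h : IsNoConjCover Γ M) {H A : Subgroup Γ} (hAH : A ≤ H)
    (hcomm : ∀ a ∈ A, ∀ b ∈ A, a * b = b * a) (hfg : A.FG) {R : Set Γ} (hR : R.Finite)
    (hRH : ∀ r ∈ R, r ∈ H) (hcov : ∀ z ∈ H, ∃ r ∈ R, r⁻¹ * z ∈ A) : Straight H := by
  apply straight_of_bound (group_fg h)
  intro S hS _
  obtain ⟨TA, CA, hTA, hTA2, hTA3⟩ := ab_bound h A hcomm hfg
  obtain ⟨L, hL0, hL⟩ := tl_le_of_inBall h (hS.union hR)
  obtain ⟨L', hL'⟩ := exists_nat_ge L
  refine ⟨R ∪ TA, 1 + CA * L', hR.union hTA, ?_, ?_⟩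
  · rintro t (ht | ht)
    · exact hRH t ht
    · exact hAH (hTA2 t ht)
  · intro z hz n hzn
    obtain ⟨r, hr, hu⟩ := hcov z hz
    have h1 : InBall (S ∪ R) (1 + n) (r⁻¹ * z) :=
      (inBall_of_mem (S := S ∪ R) (g := r) (Or.inr hr)).inv.mul
        (hzn.mono_set Set.subset_union_left)
    have h2 := hL _ _ h1
    have h3 : tl M (r⁻¹ * z) ≤ ((L' * (1 + n) : ℕ) : ℝ) := by
      refine h2.trans ?_
      push_cast
      exact mul_le_mul_of_nonneg_right hL' (by positivity)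
    have h4 := hTA3 _ hu _ h3
    have h5 : InBall (R ∪ TA) 1 r := inBall_of_mem (Or.inl hr)
    have h6 := h5.mul (h4.mono_set (S' := R ∪ TA) Set.subset_union_right)
    rw [mul_inv_cancel_left] at h6
    refine h6.mono ?_
    nlinarith

theorem hyperbolic_straight (h : IsNoConjCover Γ M) {T : SimpleGraph V} (hT : T.IsTree)
    (hadj : ∀ (g : Γ) (u v : V), T.Adj u v → T.Adj (g • u) (g • v))
    (hinv : ∀ (g : Γ) (u v : V), T.Adj u v → ¬ (g • u = v ∧ g • v = u))
    (hE : ∀ u v : V, T.Adj u v → (edgeStab Γ u v).FG ∧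
      ∀ a ∈ edgeStab Γ u v, ∀ b ∈ edgeStab Γ u v, a * b = b * a)
    (γ : Γ) (hγ : ∀ v : V, γ • v ≠ v) : Straight (Subgroup.centralizer {γ}) := by
  classical
  have hne : Nonempty V := hT.1.nonempty
  -- a vertex of minimal displacement
  have hex : ∃ m : ℕ, ∃ v : V, T.dist v (γ • v) = m := ⟨_, hne.some, rfl⟩
  obtain ⟨v, hv⟩ := Nat.find_spec hex
  have hmin : ∀ w : V, T.dist v (γ • v) ≤ T.dist w (γ • w) := by
    intro w
    rw [hv]
    exact Nat.find_min' hex ⟨w, rfl⟩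
  have hpos : 0 < T.dist v (γ • v) := hT.1.pos_dist_of_ne (hγ v).symm
  have h2 := dist_sq hT hadj hinv (hγ v) hmin
  obtain ⟨x, hx, -, w, hw⟩ := exists_next hT.1 (hγ v).symm
  -- the abelian subgroup
  set K : Subgroup Γ := MulAction.stabilizer Γ v ⊓ Subgroup.centralizer {γ} with hK
  have hKmem : ∀ z, z ∈ K ↔ z • v = v ∧ Commute z γ := by
    intro z
    rw [hK, Subgroup.mem_inf, MulAction.mem_stabilizer_iff,
      Subgroup.mem_centralizer_singleton_iff]
    rfl
  have hKE : K ≤ edgeStab Γ v x := by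
    intro z hz
    obtain ⟨h3, h4⟩ := (hKmem z).1 hz
    rw [mem_edgeStab]
    refine ⟨h3, ?_⟩
    have h5 : z • (γ • v) = γ • v := by
      rw [← mul_smul, h4.eq, mul_smul, h3]
    exact fix_next hT hadj h3 h5 hx w hw
  obtain ⟨hEfg, hEc⟩ := hE v x hx
  have hKfg : K.FG := fg_of_le_comm hEfg hEc hKE
  set A : Subgroup Γ := K ⊔ Subgroup.zpowers γ with hA
  have hAcomm : ∀ a ∈ A, ∀ b ∈ A, a * b = b * a := by
    have h3 : A ≤ Subgroup.centralizer (A : Set Γ) := by
      rw [hA, Subgroup.sup_eq_closure, Subgroup.closure_le]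
      intro a ha
      rw [SetLike.mem_coe, Subgroup.centralizer_closure, Subgroup.mem_centralizer_iff]
      intro b hb
      rcases ha with ha | ha <;> rcases hb with hb | hb
      · exact hEc b (hKE hb) a (hKE ha)
      · obtain ⟨m, rfl⟩ := hb
        exact (((hKmem a).1 ha).2.zpow_right m).symm.eq
      · obtain ⟨m, rfl⟩ := ha
        exact (((hKmem b).1 hb).2.zpow_right m).eq
      · obtain ⟨m, rfl⟩ := ha
        obtain ⟨n, rfl⟩ := hb
        exact ((Commute.refl γ).zpow_zpow n m).eq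
    intro a ha b hb
    have := Subgroup.mem_centralizer_iff.1 (h3 ha) b hb
    exact this.symm
  have hAfg : A.FG := by
    rw [Subgroup.fg_iff] at hKfg ⊢
    obtain ⟨S, hS, hSfin⟩ := hKfg
    refine ⟨S ∪ {γ}, ?_, hSfin.union (Set.finite_singleton _)⟩
    rw [Subgroup.closure_union, hS, hA, Subgroup.zpowers_eq_closure]
  have hAZ : A ≤ Subgroup.centralizer {γ} := by
    rw [hA, sup_le_iff]
    refine ⟨fun z hz => ?_, ?_⟩
    · exact Subgroup.mem_centralizer_singleton_iff.2 ((hKmem z).1 hz).2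
    · rw [Subgroup.zpowers_le, Subgroup.mem_centralizer_singleton_iff]
  -- representatives
  set X : Set V := {y : V | T.dist y v + T.dist y (γ • v) = T.dist v (γ • v)} with hX
  have hXfin : X.Finite := between_finite hT v (γ • v)
  have hmap : ∀ z : Γ, ∃ k : ℤ, Commute z γ → (γ ^ (-k) * z) • v ∈ X := by
    intro z
    by_cases hz : Commute z γ
    · have h3 : T.dist (z • v) (γ • z • v) = T.dist v (γ • v) := by
        rw [← mul_smul γ z, ← hz.eq, mul_smul, dist_smul hT.1 hadj]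
      obtain ⟨k, hk⟩ := on_axis hT hadj hpos h2 (z • v) h3
      refine ⟨k, fun _ => ?_⟩
      show T.dist ((γ ^ (-k) * z) • v) v + T.dist ((γ ^ (-k) * z) • v) (γ • v) = _
      have e1 : T.dist ((γ ^ (-k) * z) • v) v = T.dist (z • v) (γ ^ k • v) := by
        rw [← dist_smul hT.1 hadj (γ ^ k) ((γ ^ (-k) * z) • v) v, smul_smul]
        have : γ ^ k * (γ ^ (-k) * z) = z := by group
        rw [this]
      have e2 : T.dist ((γ ^ (-k) * z) • v) (γ • v) = T.dist (z • v) (γ ^ (k + 1) • v) := by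
        rw [← dist_smul hT.1 hadj (γ ^ k) ((γ ^ (-k) * z) • v) (γ • v), smul_smul, smul_smul,
          zpow_add_one]
        have : γ ^ k * (γ ^ (-k) * z) = z := by group
        rw [this]
      rw [e1, e2]
      exact hk
    · exact ⟨0, fun h => (hz h).elim⟩
  choose κ hκ using hmap
  have hXf : Finite X := hXfin.to_subtype
  have hvX : v ∈ X := by
    show T.dist v v + T.dist v (γ • v) = T.dist v (γ • v)
    rw [SimpleGraph.dist_self, zero_add]
  obtain ⟨R, hRfin, hRP, hR⟩ := exists_reps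
    (fun z : Γ => if hz : Commute z γ then (⟨(γ ^ (-κ z) * z) • v, hκ z hz⟩ : X) else ⟨v, hvX⟩)
    (fun z => Commute z γ)
  refine straight_of_reps h hAZ hAcomm hAfg hRfin
    (fun r hr => Subgroup.mem_centralizer_singleton_iff.2 (hRP r hr)) ?_
  intro z hz
  have hzγ : Commute z γ := Subgroup.mem_centralizer_singleton_iff.1 hz
  obtain ⟨r, hr, hzr⟩ := hR z hzγ
  have hrγ := hRP r hr
  refine ⟨r, hr, ?_⟩
  simp only [dif_pos hzγ, dif_pos hrγ] at hzr
  have h3 : (γ ^ (-κ z) * z) • v = (γ ^ (-κ r) * r) • v := congrArg Subtype.val hzr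
  have h4 : ((γ ^ (-κ r) * r)⁻¹ * (γ ^ (-κ z) * z)) ∈ K := by
    rw [hKmem]
    refine ⟨?_, ?_⟩
    · rw [mul_smul, h3, inv_smul_smul]
    · have c1 : Commute (γ ^ (-κ r) * r) γ := ((Commute.refl γ).zpow_left _).mul_left hrγ
      have c2 : Commute (γ ^ (-κ z) * z) γ := ((Commute.refl γ).zpow_left _).mul_left hzγ
      exact c1.inv_left.mul_left c2
  have h5 : ((γ ^ (-κ r) * r)⁻¹ * (γ ^ (-κ z) * z)) ∈ A := (le_sup_left : K ≤ A) h4
  have h6 : γ ^ (κ z - κ r) ∈ A := (le_sup_right : Subgroup.zpowers γ ≤ A) ⟨_, rfl⟩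
  have h7 := A.mul_mem h6 h5
  have h8 : γ ^ (κ z - κ r) * ((γ ^ (-κ r) * r)⁻¹ * (γ ^ (-κ z) * z)) = r⁻¹ * z := by
    have c1 : Commute (γ ^ (κ z - κ r)) (r⁻¹) := (hrγ.zpow_right _).inv_left.symm
    have c2 : Commute (γ ^ (-κ r))⁻¹ (1 : Γ) := Commute.one_right _
    calc γ ^ (κ z - κ r) * ((γ ^ (-κ r) * r)⁻¹ * (γ ^ (-κ z) * z))
        = (γ ^ (κ z - κ r) * r⁻¹) * (γ ^ κ r * γ ^ (-κ z)) * z := by group
      _ = (r⁻¹ * γ ^ (κ z - κ r)) * (γ ^ κ r * γ ^ (-κ z)) * z := by rw [c1.eq]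
      _ = r⁻¹ * z := by group
  rwa [h8] at h7

/-- **Theorem.** -/
theorem tree_straight (h : IsNoConjCover Γ M) {T : SimpleGraph V} (hT : T.IsTree)
    (hadj : ∀ (g : Γ) (u v : V), T.Adj u v → T.Adj (g • u) (g • v))
    (hinv : ∀ (g : Γ) (u v : V), T.Adj u v → ¬ (g • u = v ∧ g • v = u))
    (hE : ∀ u v : V, T.Adj u v → (edgeStab Γ u v).FG ∧
      ∀ a ∈ edgeStab Γ u v, ∀ b ∈ edgeStab Γ u v, a * b = b * a)
    (γ : Γ) (hV : ∀ (v : V) (hv : γ • v = v), TameCent (⟨γ, hv⟩ : MulAction.stabilizer Γ v)) :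
    Straight (Subgroup.centralizer {γ}) := by
  by_cases hγ : ∃ v : V, γ • v = v
  · obtain ⟨v, hv⟩ := hγ
    exact elliptic_straight h hT hadj hE γ hV v hv
  · push Not at hγ
    exact hyperbolic_straight h hT hadj hinv hE γ hγ

end Helper33.NCP
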