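import Pool.Agent.Helper33.NCP.Axis
import Pool.Agent.Helper33.NCP.Word

/-!
Full subdirect products: the product of the intersections with the factors has finite index.
-/

open Set

namespace Helper33.NCP

section basic

variable {Γ : Type*} [Group Γ] {ι : Type*}

/-- the intersection of all `K j` with `j ≠ i` -/
def coK (K : ι → Subgroup Γ) (i : ι) : Subgroup Γ := ⨅ j : {j : ι // j ≠ i}, K j

theorem mem_coK {K : ι → Subgroup Γ} {i : ι} {g : Γ} : g ∈ coK K i ↔ ∀ j, j ≠ i → g ∈ K j := by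
  simp [coK, Subgroup.mem_iInf]

theorem coK_conj {K : ι → Subgroup Γ} (hN : ∀ i, (K i).Normal) (i : ι) {n : Γ}
    (hn : n ∈ coK K i) (g : Γ) : g * n * g⁻¹ ∈ coK K i := by
  rw [mem_coK] at hn ⊢
  intro j hj
  exact (hN j).conj_mem n (hn j hj) g

theorem eq_one_of_mem {K : ι → Subgroup Γ} (hK : ∀ g : Γ, (∀ i, g ∈ K i) → g = 1) {i : ι} {g : Γ}
    (h1 : g ∈ K i) (h2 : g ∈ coK K i) : g = 1 := by
  classical
  apply hK
  intro j
  by_cases hj : j = i
  · rw [hj]; exact h1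
  · exact mem_coK.1 h2 j hj

/-- two elements of `coK K i` which are congruent modulo `K i` are equal -/
theorem eq_of_mod {K : ι → Subgroup Γ} (hK : ∀ g : Γ, (∀ i, g ∈ K i) → g = 1) {i : ι} {a b : Γ}
    (ha : a ∈ coK K i) (hb : b ∈ coK K i) (h : a⁻¹ * b ∈ K i) : a = b := by
  have := eq_one_of_mem hK h ((coK K i).mul_mem ((coK K i).inv_mem ha) hb)
  rw [inv_mul_eq_one] at this
  exact this

theorem comm_mem_of_left {N : Subgroup Γ} (hN : N.Normal) {a : Γ} (b : Γ) (ha : a ∈ N) :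
    a * b * a⁻¹ * b⁻¹ ∈ N := by
  have h1 := hN.conj_mem a⁻¹ (N.inv_mem ha) b
  have h2 := N.mul_mem ha h1
  have e : a * (b * a⁻¹ * b⁻¹) = a * b * a⁻¹ * b⁻¹ := by group
  rwa [e] at h2

theorem comm_mem_of_right {N : Subgroup Γ} (hN : N.Normal) {b : Γ} (a : Γ) (hb : b ∈ N) :
    a * b * a⁻¹ * b⁻¹ ∈ N :=
  N.mul_mem (hN.conj_mem b hb a) (N.inv_mem hb)

theorem commute_of_comm_eq_one {a b : Γ} (h : a * b * a⁻¹ * b⁻¹ = 1) : Commute a b := by
  show a * b = b * a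
  calc a * b = (a * b * a⁻¹ * b⁻¹) * (b * a) := by group
    _ = b * a := by rw [h, one_mul]

/-- the subgroup `coK K i * K i` -/
def PK (K : ι → Subgroup Γ) (i : ι) : Subgroup Γ := coK K i ⊔ K i

theorem mem_PK {K : ι → Subgroup Γ} (hN : ∀ i, (K i).Normal) {i : ι} {g : Γ} :
    g ∈ PK K i ↔ ∃ m ∈ coK K i, m⁻¹ * g ∈ K i := by
  have := hN i
  constructor
  · intro hg
    have hg' : g ∈ ((coK K i ⊔ K i : Subgroup Γ) : Set Γ) := hg
    rw [Subgroup.mul_normal] at hg'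
    obtain ⟨m, hm, k, hk, rfl⟩ := Set.mem_mul.1 hg'
    exact ⟨m, hm, by simpa using hk⟩
  · rintro ⟨m, hm, hmg⟩
    have h1 : m ∈ PK K i := (le_sup_left : coK K i ≤ _) hm
    have h2 : m⁻¹ * g ∈ PK K i := (le_sup_right : K i ≤ _) hmg
    have := (PK K i).mul_mem h1 h2
    rwa [mul_inv_cancel_left] at this

theorem PK_normal {K : ι → Subgroup Γ} (hN : ∀ i, (K i).Normal) (i : ι) : (PK K i).Normal := by
  constructor
  intro g hg k
  rw [mem_PK hN] at hg ⊢
  obtain ⟨m, hm, hmg⟩ := hg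
  refine ⟨k * m * k⁻¹, coK_conj hN i hm k, ?_⟩
  have h1 := (hN i).conj_mem _ hmg k
  have e : k * (m⁻¹ * g) * k⁻¹ = (k * m * k⁻¹)⁻¹ * (k * g * k⁻¹) := by group
  rwa [e] at h1

end basic

section prod

variable {Γ M : Type*} [Group Γ] [MetricSpace M] [MulAction Γ M] {ι : Type*}

/-- products of elements of the various `coK K i` -/
theorem exists_prod (h : IsNoConjCover Γ M) {K : ι → Subgroup Γ} (hN : ∀ i, (K i).Normal)
    (hK : ∀ g : Γ, (∀ i, g ∈ K i) → g = 1) (x : ι → Γ) (hx : ∀ i, x i ∈ coK K i)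
    (s : Finset ι) :
    ∃ b : Γ, (∀ i ∈ s, (x i)⁻¹ * b ∈ K i) ∧ (∀ i, i ∉ s → b ∈ K i) ∧
      tl M b ≤ ∑ i ∈ s, tl M (x i) ∧
      ∀ (T : Set Γ) (n : ι → ℕ), (∀ i ∈ s, InBall T (n i) (x i)) → InBall T (∑ i ∈ s, n i) b := by
  classical
  induction s using Finset.induction_on with
  | empty =>
    refine ⟨1, by simp, fun i _ => (K i).one_mem, ?_, fun T n _ => inBall_one _ _⟩
    obtain ⟨y, -⟩ := exists_min h 1
    refine (tl_le 1 y).trans ?_
    simp
  | insert i s his ih =>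
    obtain ⟨b, hb1, hb2, hb3, hb4⟩ := ih
    refine ⟨b * x i, ?_, ?_, ?_, ?_⟩
    · intro j hj
      rcases Finset.mem_insert.1 hj with rfl | hj
      · have h1 := (hN j).conj_mem b (hb2 j his) (x j)⁻¹
        rwa [inv_inv, mul_assoc] at h1
      · have hij : i ≠ j := fun e => his (e ▸ hj)
        rw [← mul_assoc]
        exact (K j).mul_mem (hb1 j hj) (mem_coK.1 (hx i) j hij.symm)
    · intro j hj
      rw [Finset.mem_insert, not_or] at hj
      exact (K j).mul_mem (hb2 j hj.2) (mem_coK.1 (hx i) j hj.1)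
    · have hcomm : Commute b (x i) := by
        apply commute_of_comm_eq_one
        apply hK
        intro j
        by_cases hj : j = i
        · rw [hj]
          exact comm_mem_of_left (hN i) _ (hb2 i his)
        · exact comm_mem_of_right (hN j) _ (mem_coK.1 (hx i) j hj)
      rw [Finset.sum_insert his]
      have := tl_mul_le h hcomm (M := M)
      linarith
    · intro T n hn
      have h1 := hb4 T n fun j hj => hn j (Finset.mem_insert_of_mem hj)
      have h2 := hn i (Finset.mem_insert_self _ _)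
      rw [Finset.sum_insert his, add_comm]
      exact h1.mul h2

/-- **Finite index.** -/
theorem PK_finiteIndex [Finite ι] (h : IsNoConjCover Γ M) {K : ι → Subgroup Γ}
    (hN : ∀ i, (K i).Normal) (hK : ∀ g : Γ, (∀ i, g ∈ K i) → g = 1)
    (a : ι → Γ) (ha : ∀ i, a i ∈ coK K i)
    (hZ : ∀ i, ∃ F : Set Γ, F.Finite ∧ ∀ k : Γ, Commute k (a i) →
      ∃ f ∈ F, ∃ m ∈ coK K i, (f * m)⁻¹ * k ∈ K i) (i₀ : ι) : (PK K i₀).FiniteIndex := by
  classical
  have := Fintype.ofFinite ι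
  choose F hFfin hF using hZ
  -- tuples `(1, ..., u, ..., 1)`
  set t : Γ → ι → Γ := fun u => Function.update 1 i₀ u with ht
  have hb : ∀ u : Γ, ∃ b : Γ, (∀ i, (t u i * a i * (t u i)⁻¹)⁻¹ * b ∈ K i) ∧
      tl M b ≤ ∑ i, tl M (a i) := by
    intro u
    obtain ⟨b, hb1, -, hb3, -⟩ := exists_prod h hN hK (fun i => t u i * a i * (t u i)⁻¹)
      (fun i => coK_conj hN i (ha i) _) Finset.univ
    refine ⟨b, fun i => hb1 i (Finset.mem_univ _), hb3.trans (le_of_eq ?_)⟩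
    apply Finset.sum_congr rfl
    intro i _
    exact tl_conj h _ _
  choose b hb1 hb2 using hb
  obtain ⟨B, hBfin, hB⟩ := finite_classes h (∑ i, tl M (a i))
  have hk : ∀ u : Γ, ∃ k : Γ, k * b u * k⁻¹ ∈ B := fun u => hB (b u) (hb2 u)
  choose k hk using hk
  have hBf : Finite B := hBfin.to_subtype
  obtain ⟨R₁, hR₁fin, -, hR₁⟩ := exists_reps (fun u : Γ => (⟨k u * b u * (k u)⁻¹, hk u⟩ : B))
    (fun _ => True)
  -- the data
  have hdata : ∀ u : Γ, ∃ r : R₁, ∃ g : Γ, ∃ f : ∀ i, F i,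
      (∀ j, j ≠ i₀ → ∃ m ∈ coK K j, ((f j : Γ) * m)⁻¹ * g ∈ K j) ∧
      ∃ m ∈ coK K i₀, ((f i₀ : Γ) * m)⁻¹ * ((r : Γ)⁻¹ * g * u) ∈ K i₀ := by
    intro u
    obtain ⟨r, hr, hur⟩ := hR₁ u trivial
    have hur' : k u * b u * (k u)⁻¹ = k r * b r * (k r)⁻¹ := congrArg Subtype.val hur
    set g : Γ := (k r)⁻¹ * k u with hg
    have hgb : g * b u * g⁻¹ = b r := by
      rw [hg]
      have : (k r)⁻¹ * k u * b u * ((k r)⁻¹ * k u)⁻¹ = (k r)⁻¹ * (k u * b u * (k u)⁻¹) * k r := by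
        group
      rw [this, hur']
      group
    -- componentwise
    have hcomp : ∀ i, Commute ((t r i)⁻¹ * g * t u i) (a i) := by
      intro i
      have h1 := (hN i).conj_mem _ (hb1 u i) g
      have h2 := hb1 r i
      rw [← hgb] at h2
      have h3 : (g * (t u i * a i * (t u i)⁻¹) * g⁻¹)⁻¹ * (g * b u * g⁻¹) ∈ K i := by
        have e : g * ((t u i * a i * (t u i)⁻¹)⁻¹ * b u) * g⁻¹ =
          (g * (t u i * a i * (t u i)⁻¹) * g⁻¹)⁻¹ * (g * b u * g⁻¹) := by group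
        rwa [e] at h1
      have h4 : (g * (t u i * a i * (t u i)⁻¹) * g⁻¹)⁻¹ * (t r i * a i * (t r i)⁻¹) ∈ K i := by
        have h5 := (K i).mul_mem h3 ((K i).inv_mem h2)
        have e : (g * (t u i * a i * (t u i)⁻¹) * g⁻¹)⁻¹ * (g * b u * g⁻¹) *
            ((t r i * a i * (t r i)⁻¹)⁻¹ * (g * b u * g⁻¹))⁻¹ =
            (g * (t u i * a i * (t u i)⁻¹) * g⁻¹)⁻¹ * (t r i * a i * (t r i)⁻¹) := by group
        rwa [e] at h5
      have h5 := eq_of_mod hK (coK_conj hN i (coK_conj hN i (ha i) (t u i)) g)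
        (coK_conj hN i (ha i) (t r i)) h4
      show (t r i)⁻¹ * g * t u i * a i = a i * ((t r i)⁻¹ * g * t u i)
      have e1 : (t r i)⁻¹ * g * t u i * a i =
        (t r i)⁻¹ * (g * (t u i * a i * (t u i)⁻¹) * g⁻¹) * (g * t u i) := by group
      rw [e1, h5]
      group
    have hch := fun i => hF i _ (hcomp i)
    choose f hfF m hm hfm using hch
    refine ⟨⟨r, hr⟩, g, fun i => ⟨f i, hfF i⟩, ?_, ?_⟩
    · intro j hj
      refine ⟨m j, hm j, ?_⟩
      have := hfm j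
      simpa [ht, Function.update_of_ne hj] using this
    · refine ⟨m i₀, hm i₀, ?_⟩
      have := hfm i₀
      simpa [ht] using this
  choose r g f hf1 hf2 using hdata
  have hRf : Finite R₁ := hR₁fin.to_subtype
  have hFf : ∀ i, Finite (F i) := fun i => (hFfin i).to_subtype
  obtain ⟨R₂, hR₂fin, -, hR₂⟩ := exists_reps (fun u : Γ => ((r u, f u) : R₁ × (∀ i, F i)))
    (fun _ => True)
  -- two elements with the same data are congruent
  have hcong : ∀ u u' : Γ, r u = r u' → f u = f u' → u'⁻¹ * u ∈ PK K i₀ := by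
    intro u u' hr hf
    set q : Γ := (g u')⁻¹ * g u with hq
    have hdiff : ∀ j, ∀ f₀ m m' y y' : Γ, m ∈ coK K j → m' ∈ coK K j →
        (f₀ * m)⁻¹ * y ∈ K j → (f₀ * m')⁻¹ * y' ∈ K j → y'⁻¹ * y ∈ PK K j := by
      intro j f₀ m m' y y' hm hm' hy hy'
      have l1 : m ∈ PK K j := (le_sup_left : coK K j ≤ _) hm
      have l2 : m' ∈ PK K j := (le_sup_left : coK K j ≤ _) hm'
      have l3 : (f₀ * m)⁻¹ * y ∈ PK K j := (le_sup_right : K j ≤ _) hy
      have l4 : (f₀ * m')⁻¹ * y' ∈ PK K j := (le_sup_right : K j ≤ _) hy'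
      have := (PK K j).mul_mem ((PK K j).mul_mem ((PK K j).mul_mem ((PK K j).inv_mem l4)
        ((PK K j).inv_mem l2)) l1) l3
      have e : ((f₀ * m')⁻¹ * y')⁻¹ * m'⁻¹ * m * ((f₀ * m)⁻¹ * y) = y'⁻¹ * y := by group
      rwa [e] at this
    have hqj : ∀ j, j ≠ i₀ → q ∈ PK K j := by
      intro j hj
      obtain ⟨m, hm, hm2⟩ := hf1 u j hj
      obtain ⟨m', hm', hm2'⟩ := hf1 u' j hj
      rw [← hf] at hm2'
      exact hdiff j _ m m' _ _ hm hm' hm2 hm2'
    have hqi : q ∈ PK K i₀ := by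
      have hch : ∀ j, ∃ n ∈ coK K j, j ≠ i₀ → n⁻¹ * q ∈ K j := by
        intro j
        by_cases hj : j = i₀
        · exact ⟨1, (coK K j).one_mem, fun h => (h hj).elim⟩
        · obtain ⟨n, hn, hn2⟩ := (mem_PK hN).1 (hqj j hj)
          exact ⟨n, hn, fun _ => hn2⟩
      choose n hn hn2 using hch
      obtain ⟨p, hp1, hp2, -, -⟩ := exists_prod h hN hK n hn (Finset.univ.erase i₀)
      have hpi : p ∈ K i₀ := hp2 i₀ (by simp)
      have hqp : q * p⁻¹ ∈ coK K i₀ := by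
        rw [mem_coK]
        intro j hj
        have h1 := hp1 j (by simp [hj])
        have h2 := hn2 j hj
        have h3 := (hN j).conj_mem _ ((K j).mul_mem h2 ((K j).inv_mem h1)) (n j)
        have e : n j * ((n j)⁻¹ * q * ((n j)⁻¹ * p)⁻¹) * (n j)⁻¹ = q * p⁻¹ := by group
        rwa [e] at h3
      have l1 : q * p⁻¹ ∈ PK K i₀ := (le_sup_left : coK K i₀ ≤ _) hqp
      have l2 : p ∈ PK K i₀ := (le_sup_right : K i₀ ≤ _) hpi
      have := (PK K i₀).mul_mem l1 l2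
      rwa [inv_mul_cancel_right] at this
    obtain ⟨m, hm, hm2⟩ := hf2 u
    obtain ⟨m', hm', hm2'⟩ := hf2 u'
    rw [← hf, ← hr] at hm2'
    have h5 := hdiff i₀ _ m m' _ _ hm hm' hm2 hm2'
    have h6 := (PK_normal hN i₀).conj_mem q hqi u'⁻¹
    have h7 := (PK K i₀).mul_mem ((PK K i₀).inv_mem h6) h5
    have e : (u'⁻¹ * q * u'⁻¹⁻¹)⁻¹ * (((r u : Γ)⁻¹ * g u' * u')⁻¹ * ((r u : Γ)⁻¹ * g u * u)) =
        u'⁻¹ * u := by
      rw [hq]; group
    rwa [e] at h7
  -- conclusion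
  have hfinq : Finite (Γ ⧸ PK K i₀) := by
    have : Finite R₂ := hR₂fin.to_subtype
    refine Finite.of_surjective (fun v : R₂ => ((v : Γ) : Γ ⧸ PK K i₀)) ?_
    intro q
    induction q using QuotientGroup.induction_on with
    | H u =>
      obtain ⟨v, hv, huv⟩ := hR₂ u trivial
      refine ⟨⟨v, hv⟩, ?_⟩
      show ((v : Γ) : Γ ⧸ PK K i₀) = u
      rw [QuotientGroup.eq]
      have h1 := congrArg Prod.fst huv
      have h2 := congrArg Prod.snd huv
      exact hcong u v h1 h2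
  exact Subgroup.finiteIndex_of_finite_quotient

end prod

end Helper33.NCP
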