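import Mathlib

/-!
A seminorm on a lattice which is bounded below on nonzero vectors is a norm.
-/

open Finset

namespace Helper33.NCP

theorem lattice_upper {k : ℕ} (N : (Fin k → ℤ) → ℝ) (hadd : ∀ v w, N (v + w) ≤ N v + N w)
    (hmul : ∀ (m : ℤ) v, N (m • v) = |(m : ℝ)| * N v) (v : Fin k → ℤ) :
    N v ≤ ∑ i, |(v i : ℝ)| * N (Pi.single i 1) := by
  have h0 : N 0 = 0 := by
    have := hmul 0 0
    simpa using this
  have key : ∀ s : Finset (Fin k), N (∑ i ∈ s, v i • Pi.single i (1 : ℤ)) ≤
      ∑ i ∈ s, |(v i : ℝ)| * N (Pi.single i 1) := by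
    intro s
    induction s using Finset.induction_on with
    | empty => simp [h0]
    | insert i s his ih =>
      rw [Finset.sum_insert his, Finset.sum_insert his]
      refine (hadd _ _).trans ?_
      rw [hmul]
      linarith
  have h1 : (∑ i, v i • Pi.single i (1 : ℤ)) = v := by
    funext j
    simp [Finset.sum_apply, Pi.single_apply]
  have := key Finset.univ
  rwa [h1] at this

theorem lattice_norm {k : ℕ} (N : (Fin k → ℤ) → ℝ) (hadd : ∀ v w, N (v + w) ≤ N v + N w)
    (hmul : ∀ (m : ℤ) v, N (m • v) = |(m : ℝ)| * N v) {ε : ℝ} (hε : 0 < ε)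
    (hpos : ∀ v, v ≠ 0 → ε ≤ N v) :
    ∃ C : ℝ, 0 < C ∧ ∀ (v : Fin k → ℤ) (R : ℕ), (∀ i, |v i| ≤ R) → (∃ i, |v i| = R) →
      (R : ℝ) ≤ C * N v := by
  classical
  have h0 : N 0 = 0 := by
    have := hmul 0 0
    simpa using this
  have hnn : ∀ v, 0 ≤ N v := by
    intro v
    by_cases hv : v = 0
    · rw [hv, h0]
    · exact hε.le.trans (hpos v hv)
  set C₀ : ℝ := ∑ i, N (Pi.single (M := fun _ : Fin k => ℤ) i 1) with hC₀
  have hC₀nn : 0 ≤ C₀ := Finset.sum_nonneg fun i _ => hnn _
  obtain ⟨Q, hQ⟩ := exists_nat_gt (2 * C₀ / ε)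
  have hQpos : (0 : ℝ) < Q := lt_of_le_of_lt (by positivity) hQ
  have hQ0 : 0 < Q := by exact_mod_cast hQpos
  refine ⟨2 * Q ^ k / ε, by positivity, ?_⟩
  intro v R hvR hex
  obtain ⟨i₀, hi₀⟩ := hex
  rcases Nat.eq_zero_or_pos R with hR | hR
  · rw [hR, Nat.cast_zero]
    exact mul_nonneg (by positivity) (hnn v)
  have hRZ : (0 : ℤ) < R := by exact_mod_cast hR
  have hRR : (0 : ℝ) < R := by exact_mod_cast hR
  have hQZ : (0 : ℤ) < Q := by exact_mod_cast hQ0
  -- boxes
  set b : ℕ → Fin k → ℤ := fun j i => (Q * ((j * v i) % R)) / R with hb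
  have hb0 : ∀ j i, 0 ≤ b j i := by
    intro j i
    exact Int.ediv_nonneg (mul_nonneg hQZ.le (Int.emod_nonneg _ hRZ.ne')) hRZ.le
  have hbQ : ∀ j i, b j i < Q := by
    intro j i
    apply Int.ediv_lt_of_lt_mul hRZ
    have := Int.emod_lt_of_pos (j * v i) hRZ
    exact mul_lt_mul_of_pos_left this hQZ
  set F : ℕ → (Fin k → Fin Q) := fun j i => ⟨(b j i).toNat, by
    have h1 := hb0 j i
    have h2 := hbQ j i
    omega⟩ with hF
  have hcard : (Finset.univ : Finset (Fin k → Fin Q)).card < (Finset.range (Q ^ k + 1)).card := by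
    rw [Finset.card_range, Finset.card_univ, Fintype.card_fun, Fintype.card_fin, Fintype.card_fin]
    exact Nat.lt_succ_self _
  obtain ⟨j, hj, j', hj', hjj, hFj⟩ := Finset.exists_ne_map_eq_of_card_lt_of_maps_to hcard
    (f := F) (fun j _ => Finset.mem_coe.2 (Finset.mem_univ _))
  -- wlog j < j'
  have main : ∀ j j' : ℕ, j < j' → j' ≤ Q ^ k → (∀ i, b j i = b j' i) →
      (R : ℝ) ≤ 2 * Q ^ k / ε * N v := by
    intro j j' hjj hj' hbj
    set t : ℤ := (j' : ℤ) - j with ht
    have htpos : 0 < t := by rw [ht]; omega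
    have htle : (t : ℝ) ≤ (Q : ℝ) ^ k := by
      have : t ≤ ((Q ^ k : ℕ) : ℤ) := by rw [ht]; omega
      have h2 : (t : ℝ) ≤ ((Q ^ k : ℕ) : ℝ) := by exact_mod_cast this
      simpa using h2
    set w : Fin k → ℤ := fun i => (j' * v i) % R - (j * v i) % R with hw
    set p : Fin k → ℤ := fun i => (j' * v i) / R - (j * v i) / R with hp
    have hdec : ∀ i, t * v i = R * p i + w i := by
      intro i
      have h1 := Int.emod_add_mul_ediv (j' * v i) R
      have h2 := Int.emod_add_mul_ediv (j * v i) R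
      simp only [ht, hp, hw]
      linarith
    have hwb : ∀ i, |(w i : ℝ)| ≤ R / Q := by
      intro i
      have e1 : b j i = b j' i := hbj i
      have h1 := Int.emod_add_mul_ediv (Q * ((j * v i) % R)) R
      have h2 := Int.emod_add_mul_ediv (Q * ((j' * v i) % R)) R
      have h3 := Int.emod_lt_of_pos (Q * ((j * v i) % R)) hRZ
      have h4 := Int.emod_lt_of_pos (Q * ((j' * v i) % R)) hRZ
      have h5 := Int.emod_nonneg (Q * ((j * v i) % R)) hRZ.ne'
      have h6 := Int.emod_nonneg (Q * ((j' * v i) % R)) hRZ.ne'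
      simp only [hb] at e1
      rw [e1] at h1
      have h7 : (Q : ℤ) * w i ≤ R := by
        simp only [hw]
        rw [mul_sub]
        linarith
      have h8 : -(R : ℤ) ≤ Q * w i := by
        simp only [hw]
        rw [mul_sub]
        linarith
      have h7' : (Q : ℝ) * w i ≤ R := by exact_mod_cast h7
      have h8' : -(R : ℝ) ≤ Q * w i := by exact_mod_cast h8
      rw [abs_le]
      constructor
      · rw [← neg_div, div_le_iff₀ hQpos]
        linarith
      · rw [le_div_iff₀ hQpos]
        linarith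
    have hpne : p ≠ 0 := by
      intro hp0
      have h1 := hdec i₀
      rw [hp0] at h1
      have hv0 : v i₀ = R ∨ v i₀ = -R := by
        rcases abs_choice (v i₀) with h | h
        · left; rw [← h]; exact hi₀
        · right; rw [hi₀] at h; linarith
      have hw0 : w i₀ = 0 := by
        simp only [hw]
        have e1 : (R : ℤ) ∣ j' * v i₀ := by
          rcases hv0 with h | h <;> rw [h]
          · exact Dvd.intro_left _ rfl
          · exact ⟨-j', by ring⟩
        have e2 : (R : ℤ) ∣ j * v i₀ := by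
          rcases hv0 with h | h <;> rw [h]
          · exact Dvd.intro_left _ rfl
          · exact ⟨-j, by ring⟩
        rw [Int.emod_eq_zero_of_dvd e1, Int.emod_eq_zero_of_dvd e2, sub_zero]
      rw [hw0, Pi.zero_apply, mul_zero, add_zero] at h1
      have hv1 : v i₀ ≠ 0 := by
        rcases hv0 with h | h <;> rw [h] <;> omega
      have := mul_ne_zero htpos.ne' hv1
      exact this h1
    have h1 : (R : ℝ) * ε ≤ N ((R : ℤ) • p) := by
      rw [hmul]
      have : |((R : ℤ) : ℝ)| = R := by
        rw [Int.cast_natCast, abs_of_pos hRR]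
      rw [this]
      exact mul_le_mul_of_nonneg_left (hpos p hpne) hRR.le
    have h2 : (R : ℤ) • p = t • v + (-1 : ℤ) • w := by
      funext i
      have := hdec i
      simp only [Pi.smul_apply, Pi.add_apply, smul_eq_mul]
      linarith
    have h3 : N ((-1 : ℤ) • w) ≤ C₀ * (R / Q) := by
      rw [hmul]
      have : |((-1 : ℤ) : ℝ)| = 1 := by norm_num
      rw [this, one_mul, hC₀, Finset.sum_mul]
      refine (lattice_upper N hadd hmul w).trans (Finset.sum_le_sum fun i _ => ?_)
      rw [mul_comm]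
      exact mul_le_mul_of_nonneg_left (hwb i) (hnn _)
    have h4 : N (t • v) ≤ (Q : ℝ) ^ k * N v := by
      rw [hmul, abs_of_pos (by exact_mod_cast htpos)]
      exact mul_le_mul_of_nonneg_right htle (hnn v)
    have h5 : (R : ℝ) * ε ≤ (Q : ℝ) ^ k * N v + C₀ * (R / Q) := by
      rw [h2] at h1
      exact h1.trans ((hadd _ _).trans (add_le_add h4 h3))
    have h6 : C₀ * (R / Q) ≤ R * ε / 2 := by
      have h7 : C₀ ≤ Q * ε / 2 := by
        rw [div_lt_iff₀ hε] at hQ
        linarith
      calc C₀ * (R / Q) ≤ (Q * ε / 2) * (R / Q) :=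
            mul_le_mul_of_nonneg_right h7 (by positivity)
        _ = R * ε / 2 := by field_simp
    rw [div_mul_eq_mul_div, le_div_iff₀ hε]
    linarith
  have hbF : ∀ i, b j i = b j' i := by
    intro i
    have h1 := congrFun hFj i
    simp only [hF, Fin.mk.injEq] at h1
    have h2 := hb0 j i
    have h3 := hb0 j' i
    omega
  rw [Finset.mem_range] at hj hj'
  rcases lt_or_gt_of_ne hjj with h | h
  · exact main j j' h (by omega) hbF
  · exact main j' j h (by omega) fun i => (hbF i).symm

end Helper33.NCP
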