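import Pool.Agent.Helper33.NCP.Prod
import Pool.Agent.Helper33.NCP.Abelian

/-!
Subdirect products of good factors.
-/

open Set

namespace Helper33.NCP

/-- Groups in which `⟨a⟩` has finite index in the centralizer of `a` for all `a ≠ 1`
(torsion-free hyperbolic groups, for example) are rich in the above sense. -/
theorem normalRich_of_cyclic {G : Type*} [Group G]
    (h : ∀ a : G, a ≠ 1 → (Subgroup.zpowers a).relIndex (Subgroup.centralizer {a}) ≠ 0) :
    NormalRich G := by
  intro N _ hN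
  obtain ⟨a, ha, ha1⟩ := (Subgroup.bot_or_exists_ne_one N).resolve_left hN
  refine ⟨a, ha, ?_⟩
  have hle : Subgroup.zpowers (a : G) ≤ N := by rwa [Subgroup.zpowers_le]
  exact ne_zero_of_dvd_ne_zero (h _ ha1) (Subgroup.relIndex_dvd_of_le_left _ hle)

/-- and the centralizers of nontrivial elements are tame. -/
theorem tameCent_of_cyclic {G : Type*} [Group G]
    (h : ∀ a : G, a ≠ 1 → (Subgroup.zpowers a).relIndex (Subgroup.centralizer {a}) ≠ 0)
    (g : G) (hg : g ≠ 1) : TameCent g := by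
  right
  refine ⟨Subgroup.zpowers g, ?_, ?_, ?_, h g hg⟩
  · rw [Subgroup.zpowers_le, Subgroup.mem_centralizer_singleton_iff]
  · rw [Subgroup.fg_iff]
    exact ⟨{g}, (Subgroup.zpowers_eq_closure g).symm, Set.finite_singleton g⟩
  · rintro _ ⟨m, rfl⟩ _ ⟨n, rfl⟩
    exact (Commute.refl g).zpow_zpow m n

/-- the property of the previous theorem passes to subgroups -/
theorem cyclic_subgroup {G : Type*} [Group G]
    (h : ∀ a : G, a ≠ 1 → (Subgroup.zpowers a).relIndex (Subgroup.centralizer {a}) ≠ 0)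
    (H : Subgroup G) (a : H) (ha : a ≠ 1) :
    (Subgroup.zpowers a).relIndex (Subgroup.centralizer {a}) ≠ 0 := by
  have ha' : (a : G) ≠ 1 := fun e => ha (Subtype.ext e)
  have h1 := h a ha'
  have e1 : (Subgroup.zpowers a) = (Subgroup.zpowers (a : G)).subgroupOf H := by
    ext x
    rw [Subgroup.mem_subgroupOf, Subgroup.mem_zpowers_iff, Subgroup.mem_zpowers_iff]
    constructor
    · rintro ⟨k, hk⟩
      exact ⟨k, by rw [← hk]; simp⟩
    · rintro ⟨k, hk⟩
      exact ⟨k, Subtype.ext (by simpa using hk)⟩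
  have e2 : (Subgroup.centralizer {a}) = (Subgroup.centralizer {(a : G)}).subgroupOf H := by
    ext x
    rw [Subgroup.mem_subgroupOf, Subgroup.mem_centralizer_singleton_iff,
      Subgroup.mem_centralizer_singleton_iff]
    constructor
    · intro hx
      have := congrArg Subtype.val hx
      simpa using this
    · intro hx
      exact Subtype.ext (by simpa using hx)
  rw [e1, e2]
  exact Subgroup.relIndex_comap_ne_zero H.subtype h1

section main

variable {Γ M : Type*} [Group Γ] [MetricSpace M] [MulAction Γ M] {ι : Type*}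

theorem commute_of_coord {G : ι → Type*} [∀ i, Group (G i)] {φ : Γ →* ∀ i, G i}
    (hφ : Function.Injective φ) {i : ι} {x : Γ} (γ : Γ) (hx : x ∈ coK (kerAt φ) i)
    (hxγ : Commute (φ x i) (φ γ i)) : Commute x γ := by
  apply commute_of_comm_eq_one
  apply eq_one_of_mem (kerAt_inter hφ) (i := i)
  · rw [mem_kerAt]
    simp only [map_mul, map_inv, Pi.mul_apply, Pi.inv_apply]
    rw [hxγ.eq]
    group
  · have h1 := coK_conj (kerAt_normal φ) i ((coK (kerAt φ) i).inv_mem hx) γ
    have h2 := (coK (kerAt φ) i).mul_mem hx h1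
    have e : x * (γ * x⁻¹ * γ⁻¹) = x * γ * x⁻¹ * γ⁻¹ := by group
    rwa [e] at h2

theorem centBound_of_virtAb (h : IsNoConjCover Γ M) {G : ι → Type*} [∀ i, Group (G i)]
    [DecidableEq ι] {φ : Γ →* ∀ i, G i} (hφ : Function.Injective φ) {i : ι}
    (hfi : (fac φ i).FiniteIndex) (γ : Γ)
    (hva : VirtAb (Subgroup.centralizer {φ γ i})) : CentBound (kerAt φ) i γ := by
  classical
  intro S hS hSK
  have hK := kerAt_inter hφ
  set p : Γ →* G i := (Pi.evalMonoidHom G i).comp φ with hp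
  have hpφ : ∀ g, p g = φ g i := fun g => rfl
  set Z : Subgroup (G i) := Subgroup.centralizer {φ γ i} with hZ
  obtain ⟨A₀, hA₀Z, hA₀fg, hA₀c, hA₀i⟩ := hva
  -- the abelian group upstairs
  set A : Subgroup Γ := coK (kerAt φ) i ⊓ A₀.comap p with hA
  have hAmem : ∀ x, x ∈ A ↔ x ∈ coK (kerAt φ) i ∧ φ x i ∈ A₀ := by
    intro x
    rw [hA, Subgroup.mem_inf, Subgroup.mem_comap]
    rfl
  have hAc : ∀ a ∈ A, ∀ b ∈ A, a * b = b * a := by
    intro a ha b hb
    have h1 : Commute (φ a i) (φ b i) := hA₀c _ ((hAmem a).1 ha).2 _ ((hAmem b).1 hb).2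
    exact commute_of_coord hφ b ((hAmem a).1 ha).1 h1
  have hAγ : ∀ a ∈ A, Commute a γ := by
    intro a ha
    apply commute_of_coord hφ γ ((hAmem a).1 ha).1
    have := hA₀Z ((hAmem a).1 ha).2
    exact Subgroup.mem_centralizer_singleton_iff.1 this
  have hAfg : A.FG := by
    have h1 : Group.FG A₀ := (Group.fg_iff_subgroup_fg A₀).2 hA₀fg
    have h2 : ((fac φ i).subgroupOf A₀).FiniteIndex := inferInstance
    have h3 : ((fac φ i).subgroupOf A₀).FG := by
      rw [← Group.fg_iff_subgroup_fg]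
      exact Subgroup.fg_of_index_ne_zero _
    rw [Subgroup.fg_iff] at h3 ⊢
    obtain ⟨T, hT, hTfin⟩ := h3
    have hT1 : ∀ t : A₀, t ∈ T → (t : G i) ∈ fac φ i := by
      intro t ht
      have h4 := Subgroup.subset_closure (k := T) ht
      rw [hT] at h4
      exact Subgroup.mem_subgroupOf.1 h4
    have hlift : ∀ y : A₀, ∃ m : Γ, y ∈ T → m ∈ coK (kerAt φ) i ∧ φ m i = y := by
      intro y
      by_cases hy : y ∈ T
      · obtain ⟨m, hm, hm2⟩ := mem_fac.1 (hT1 y hy)
        exact ⟨m, fun _ => ⟨hm, hm2⟩⟩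
      · exact ⟨1, fun h => (hy h).elim⟩
    choose lam hlam using hlift
    refine ⟨lam '' T, ?_, hTfin.image _⟩
    have hsub : Subgroup.closure (lam '' T) ≤ A := by
      rw [Subgroup.closure_le]
      rintro _ ⟨t, ht, rfl⟩
      obtain ⟨h4, h5⟩ := hlam t ht
      exact (hAmem _).2 ⟨h4, by rw [h5]; exact t.2⟩
    apply le_antisymm hsub
    intro a ha
    obtain ⟨ha1, ha2⟩ := (hAmem a).1 ha
    have h4 : (⟨φ a i, ha2⟩ : A₀) ∈ Subgroup.closure T := by
      rw [hT, Subgroup.mem_subgroupOf]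
      exact mem_fac.2 ⟨a, ha1, rfl⟩
    obtain ⟨n, hn⟩ := inBall_of_mem_closure h4
    have h5 := hn.map A₀.subtype
    set lam' : G i → Γ := fun y => if hy : y ∈ A₀ then lam ⟨y, hy⟩ else 1 with hlam'
    have hlam'1 : ∀ t : A₀, lam' t = lam t := by
      intro t
      simp [hlam']
    obtain ⟨d, hd, hd2⟩ := InBall.lift p lam' (T := A₀.subtype '' T) (by
      rintro _ ⟨t, ht, rfl⟩
      show φ (lam' t) i = t
      rw [hlam'1]
      exact (hlam t ht).2) h5
    have himg : lam' '' (A₀.subtype '' T) = lam '' T := by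
      rw [Set.image_image]
      apply Set.image_congr
      intro t _
      exact hlam'1 t
    rw [himg] at hd
    have h6 := hd.mem_closure
    have h7 := ((hAmem d).1 (hsub h6)).1
    have h8 : d = a := by
      apply eq_of_mod hK (i := i) h7 ha1
      rw [mem_kerAt, map_mul, map_inv, Pi.mul_apply, Pi.inv_apply, inv_mul_eq_one]
      exact hd2
    rw [← h8]
    exact h6
  obtain ⟨TA, CA, hTA, hTA2, hTA3⟩ := ab_bound h A hAc hAfg
  -- representatives
  have hfinq : Finite (Z ⧸ A₀.subgroupOf Z) := by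
    have : (A₀.subgroupOf Z).FiniteIndex := ⟨hA₀i⟩
    exact Subgroup.finite_quotient_of_finiteIndex
  obtain ⟨R, hRfin, hRP, hR⟩ := exists_reps
    (fun x : Γ => if hx : φ x i ∈ Z then ((⟨φ x i, hx⟩ : Z) : Z ⧸ A₀.subgroupOf Z)
      else ((1 : Z) : Z ⧸ A₀.subgroupOf Z))
    (fun x => x ∈ coK (kerAt φ) i ∧ Commute x γ)
  have hZmem : ∀ x, Commute x γ → φ x i ∈ Z := by
    intro x hx
    rw [hZ, Subgroup.mem_centralizer_singleton_iff]
    have : φ (x * γ) i = φ (γ * x) i := by rw [hx.eq]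
    simpa using this
  obtain ⟨L, hL0, hL⟩ := tl_le_of_inBall h (hS.union hRfin)
  obtain ⟨L', hL'⟩ := exists_nat_ge L
  refine ⟨R ∪ TA, 1 + CA * L', hRfin.union hTA, ?_, ?_⟩
  · rintro t (ht | ht)
    · exact (hRP t ht).2
    · exact hAγ t (hTA2 t ht)
  · intro n x hx hxK hxγ
    obtain ⟨r, hr, hxr⟩ := hR x ⟨hxK, hxγ⟩
    obtain ⟨hrK, hrγ⟩ := hRP r hr
    simp only [dif_pos (hZmem x hxγ), dif_pos (hZmem r hrγ)] at hxr
    have hxr' := QuotientGroup.eq.1 hxr.symm
    rw [Subgroup.mem_subgroupOf] at hxr'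
    have hu : r⁻¹ * x ∈ A := by
      rw [hAmem]
      refine ⟨(coK (kerAt φ) i).mul_mem ((coK (kerAt φ) i).inv_mem hrK) hxK, ?_⟩
      simpa using hxr'
    have h1 : InBall (S ∪ R) (1 + n) (r⁻¹ * x) :=
      (inBall_of_mem (S := S ∪ R) (g := r) (Or.inr hr)).inv.mul
        (hx.mono_set Set.subset_union_left)
    have h2 := hL _ _ h1
    have h3 : tl M (r⁻¹ * x) ≤ ((L' * (1 + n) : ℕ) : ℝ) := by
      refine h2.trans ?_
      push_cast
      exact mul_le_mul_of_nonneg_right hL' (by positivity)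
    have h4 := hTA3 _ hu _ h3
    have h5 : InBall (R ∪ TA) 1 r := inBall_of_mem (Or.inl hr)
    have h6 := h5.mul (h4.mono_set (S' := R ∪ TA) Set.subset_union_right)
    rw [mul_inv_cancel_left] at h6
    refine h6.mono ?_
    nlinarith

theorem subdirect_core [Finite ι] (h : IsNoConjCover Γ M) {G : ι → Type*}
    [∀ i, Group (G i)] [DecidableEq ι] {φ : Γ →* ∀ i, G i} (hφ : Function.Injective φ)
    (hs : ∀ i, ∀ y : G i, ∃ g, φ g i = y) (hfull : ∀ i, ∃ a ∈ coK (kerAt φ) i, a ≠ 1)
    (hG : ∀ i, NormalRich (G i)) :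
    φ.range.FiniteIndex ∧ ∀ γ : Γ, (∀ i, φ γ i ≠ 1 → TameCent (φ γ i)) →
      Straight (Subgroup.centralizer {γ}) := by
  classical
  have hN := kerAt_normal φ
  have hK := kerAt_inter hφ
  have hfacN : ∀ i, (fac φ i).Normal := by
    intro i
    constructor
    intro y hy g
    obtain ⟨m, hm, hm2⟩ := mem_fac.1 hy
    obtain ⟨u, hu⟩ := hs i g
    refine mem_fac.2 ⟨u * m * u⁻¹, coK_conj hN i hm u, ?_⟩
    simp [hm2, hu]
  have hfacne : ∀ i, fac φ i ≠ ⊥ := by
    intro i hbot
    obtain ⟨a, ha, ha1⟩ := hfull i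
    apply ha1
    have h1 : φ a i ∈ fac φ i := mem_fac.2 ⟨a, ha, rfl⟩
    rw [hbot, Subgroup.mem_bot] at h1
    exact eq_one_of_mem hK ((mem_kerAt φ i a).2 h1) ha
  have hchoose : ∀ i, ∃ a ∈ coK (kerAt φ) i,
      (fac φ i).relIndex (Subgroup.centralizer {φ a i}) ≠ 0 := by
    intro i
    obtain ⟨y, hy, hy2⟩ := hG i (fac φ i) (hfacN i) (hfacne i)
    obtain ⟨a, ha, rfl⟩ := mem_fac.1 hy
    exact ⟨a, ha, hy2⟩
  choose a ha ha2 using hchoose
  have hPK : ∀ i, (PK (kerAt φ) i).FiniteIndex := by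
    apply PK_finiteIndex h hN hK a ha
    intro i
    set Z := Subgroup.centralizer {φ (a i) i} with hZ
    have hfinq : Finite (Z ⧸ (fac φ i).subgroupOf Z) := by
      have : ((fac φ i).subgroupOf Z).FiniteIndex := ⟨ha2 i⟩
      exact Subgroup.finite_quotient_of_finiteIndex
    obtain ⟨R, hRfin, hRP, hR⟩ := exists_reps
      (fun x : Γ => if hx : φ x i ∈ Z then ((⟨φ x i, hx⟩ : Z) : Z ⧸ (fac φ i).subgroupOf Z)
        else ((1 : Z) : Z ⧸ (fac φ i).subgroupOf Z))
      (fun x => Commute x (a i))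
    have hZmem : ∀ x, Commute x (a i) → φ x i ∈ Z := by
      intro x hx
      rw [hZ, Subgroup.mem_centralizer_singleton_iff]
      have : φ (x * a i) i = φ (a i * x) i := by rw [hx.eq]
      simpa using this
    refine ⟨R, hRfin, fun k hk => ?_⟩
    obtain ⟨r, hr, hkr⟩ := hR k hk
    simp only [dif_pos (hZmem k hk), dif_pos (hZmem r (hRP r hr))] at hkr
    have hkr' := QuotientGroup.eq.1 hkr.symm
    rw [Subgroup.mem_subgroupOf] at hkr'
    obtain ⟨m, hm, hm2⟩ := mem_fac.1 hkr'
    refine ⟨r, hr, m, hm, ?_⟩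
    rw [mem_kerAt]
    simp only [map_mul, map_inv, Pi.mul_apply, Pi.inv_apply]
    rw [hm2]
    simp
  have hfi : ∀ i, (fac φ i).FiniteIndex := fun i => fac_finiteIndex (hs i) (hPK i)
  refine ⟨range_finiteIndex hfi, fun γ hγG => ?_⟩
  apply straight_of_centBound h hN hK hPK γ
  intro i
  by_cases hγ : φ γ i = 1
  · exact centBound_of_mem hN hK i ((mem_kerAt φ i γ).2 hγ)
  · rcases hγG i hγ with hst | hva
    · exact centBound_of_straight (group_fg h) hφ (hs i) (hfi i) γ hst
    · exact centBound_of_virtAb h hφ (hfi i) γ hva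

theorem subdirect_main [Finite ι] (h : IsNoConjCover Γ M) {G : ι → Type*}
    [∀ i, Group (G i)] {φ : Γ →* ∀ i, G i} (hφ : Function.Injective φ)
    (hG : ∀ i, NormalRich (img φ i)) :
    (∃ J : Finset ι, Function.Injective (proj φ J) ∧ (proj φ J).range.FiniteIndex) ∧
      ∀ γ : Γ, (∀ i, coord φ i γ ≠ 1 → TameCent (coord φ i γ)) →
        Straight (Subgroup.centralizer {γ}) := by
  classical
  have := Fintype.ofFinite ι
  have happ : ∀ (J : Finset ι) (g : Γ) (j : J), ((proj φ J g j : img φ j) : G j) = φ g j :=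
    fun _ _ _ => rfl
  have huniv : Function.Injective (proj φ Finset.univ) := by
    intro g g' hgg
    apply hφ
    funext i
    have := congrArg Subtype.val (congrFun hgg ⟨i, Finset.mem_univ i⟩)
    exact this
  obtain ⟨J, hJ, hJmin⟩ := (Set.toFinite {J : Finset ι |
    Function.Injective (proj φ J)}).exists_minimalFor (fun J => J) _ ⟨Finset.univ, huniv⟩
  have hfull : ∀ i : J, ∃ a ∈ coK (kerAt (proj φ J)) i, a ≠ 1 := by
    intro i
    by_contra hcon
    push Not at hcon
    have hinj : Function.Injective (proj φ (J.erase i)) := by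
      rw [injective_iff_map_eq_one]
      intro g hg
      apply hcon g
      rw [mem_coK]
      intro j hj
      rw [mem_kerAt]
      apply Subtype.ext
      rw [happ]
      have hj' : (j : ι) ∈ J.erase i := by
        rw [Finset.mem_erase]
        exact ⟨fun e => hj (Subtype.ext e), j.2⟩
      have := congrArg Subtype.val (congrFun hg ⟨(j : ι), hj'⟩)
      exact this
    have hle := hJmin hinj (Finset.erase_subset _ _)
    have := hle i.2
    exact (Finset.notMem_erase (i : ι) J) this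
  have hsurj : ∀ i : J, ∀ y : img φ i, ∃ g, proj φ J g i = y := by
    rintro i ⟨y, g, hg⟩
    exact ⟨g, Subtype.ext hg⟩
  have hcore := subdirect_core h hJ hsurj hfull (fun i => hG i)
  exact ⟨⟨J, hJ, hcore.1⟩, fun γ hγ => hcore.2 γ fun i hi => hγ i hi⟩

/-- Q1 for subgroups of finite products of groups in which `⟨a⟩` has finite index in the
centralizer of `a` for all `a ≠ 1`. -/
theorem straight_of_embedding [Finite ι] (h : IsNoConjCover Γ M) {G : ι → Type*}
    [∀ i, Group (G i)] {φ : Γ →* ∀ i, G i} (hφ : Function.Injective φ)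
    (hG : ∀ (i : ι) (a : G i), a ≠ 1 →
      (Subgroup.zpowers a).relIndex (Subgroup.centralizer {a}) ≠ 0) (γ : Γ) :
    Straight (Subgroup.centralizer {γ}) :=
  (subdirect_main h hφ fun i => normalRich_of_cyclic (cyclic_subgroup (hG i) _)).2 γ
    fun i hi => tameCent_of_cyclic (cyclic_subgroup (hG i) _) _ hi

end main

end Helper33.NCP
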