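import Pool.Agent.Helper33.NCP.Index
import Pool.Agent.Helper33.NCP.Milnor

/-!
Centralizers in full subdirect products of groups with virtually cyclic centralizers.
-/

open Set

namespace Helper33.NCP

section basic

variable {Γ : Type*} [Group Γ] {ι : Type*}

theorem mod_mul {N : Subgroup Γ} (hN : N.Normal) {x₁ y₁ x₂ y₂ : Γ} (h₁ : x₁⁻¹ * y₁ ∈ N)
    (h₂ : x₂⁻¹ * y₂ ∈ N) : (x₁ * x₂)⁻¹ * (y₁ * y₂) ∈ N := by
  have h := N.mul_mem (hN.conj_mem _ h₁ x₂⁻¹) h₂
  have e : x₂⁻¹ * (x₁⁻¹ * y₁) * x₂⁻¹⁻¹ * (x₂⁻¹ * y₂) = (x₁ * x₂)⁻¹ * (y₁ * y₂) := by group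
  rwa [e] at h

theorem mod_inv {N : Subgroup Γ} (hN : N.Normal) {x y : Γ} (h : x⁻¹ * y ∈ N) :
    x⁻¹⁻¹ * y⁻¹ ∈ N := by
  have h1 := hN.conj_mem _ (N.inv_mem h) x
  have e : x * (x⁻¹ * y)⁻¹ * x⁻¹ = x⁻¹⁻¹ * y⁻¹ := by group
  rwa [e] at h1

/-- components of words -/
theorem inBall_component {K : ι → Subgroup Γ} (hN : ∀ i, (K i).Normal)
    (hK : ∀ g : Γ, (∀ i, g ∈ K i) → g = 1) (i : ι) {T : Set Γ} (χ : Γ → Γ)
    (hχ1 : ∀ t, χ t ∈ coK K i) (hχ2 : ∀ t ∈ T, (χ t)⁻¹ * t ∈ K i) {n : ℕ} {d x : Γ}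
    (hd : InBall T n d) (hx : x ∈ coK K i) (hxd : x⁻¹ * d ∈ K i) : InBall (χ '' T) n x := by
  have key : ∀ l : List Γ, (∀ y ∈ l, y ∈ T ∨ y⁻¹ ∈ T) →
      ∃ x' ∈ coK K i, x'⁻¹ * l.prod ∈ K i ∧ InBall (χ '' T) l.length x' := by
    intro l
    induction l with
    | nil =>
      intro _
      exact ⟨1, (coK K i).one_mem, by simp, inBall_one _ _⟩
    | cons a l ih =>
      intro hl
      obtain ⟨x', hx', hx2, hx3⟩ := ih fun y hy => hl y (by simp [hy])
      have ha : ∃ w ∈ coK K i, w⁻¹ * a ∈ K i ∧ InBall (χ '' T) 1 w := by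
        rcases hl a (by simp) with ha | ha
        · exact ⟨χ a, hχ1 a, hχ2 a ha, inBall_of_mem ⟨a, ha, rfl⟩⟩
        · refine ⟨(χ a⁻¹)⁻¹, (coK K i).inv_mem (hχ1 _), ?_, ?_⟩
          · have := mod_inv (hN i) (hχ2 _ ha)
            rwa [inv_inv a] at this
          · exact (inBall_of_mem (S := χ '' T) (g := χ a⁻¹) ⟨a⁻¹, ha, rfl⟩).inv
      obtain ⟨w, hw, hw2, hw3⟩ := ha
      refine ⟨w * x', (coK K i).mul_mem hw hx', ?_, ?_⟩
      · rw [List.prod_cons]
        exact mod_mul (hN i) hw2 hx2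
      · rw [List.length_cons]
        exact (hw3.mul hx3).mono (by omega)
  obtain ⟨l, h1, h2, h3⟩ := hd
  obtain ⟨x', hx', hx2, hx3⟩ := key l h2
  rw [h3] at hx2
  have h4 : x'⁻¹ * x ∈ K i := by
    have := (K i).mul_mem hx2 ((K i).inv_mem hxd)
    have e : x'⁻¹ * d * (x⁻¹ * d)⁻¹ = x'⁻¹ * x := by group
    rwa [e] at this
  rw [← eq_of_mod hK hx' hx h4]
  exact hx3.mono h1

end basic

section main

variable {Γ M : Type*} [Group Γ] [MetricSpace M] [MulAction Γ M] {ι : Type*}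

/-- the elements of `coK K i` commuting with `γ` are undistorted in `coK K i` -/
def CentBound (K : ι → Subgroup Γ) (i : ι) (γ : Γ) : Prop :=
  ∀ S : Set Γ, S.Finite → (∀ s ∈ S, s ∈ coK K i) → ∃ (T' : Set Γ) (C : ℕ), T'.Finite ∧
    (∀ t ∈ T', Commute t γ) ∧ ∀ (n : ℕ) (x : Γ), InBall S n x → x ∈ coK K i → Commute x γ →
      InBall T' (C * n + C) x

theorem centBound_of_mem {K : ι → Subgroup Γ}
    (hN : ∀ i, (K i).Normal) (hK : ∀ g : Γ, (∀ i, g ∈ K i) → g = 1) (i : ι)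
    {γ : Γ} (hγ : γ ∈ K i) : CentBound K i γ := by
  intro S hS hSK
  refine ⟨S, 1, hS, ?_, ?_⟩
  · intro t ht
    apply commute_of_comm_eq_one
    apply eq_one_of_mem hK (comm_mem_of_right (hN i) _ hγ)
    have h1 := coK_conj hN i ((coK K i).inv_mem (hSK t ht)) γ
    have h2 := (coK K i).mul_mem (hSK t ht) h1
    have e : t * (γ * t⁻¹ * γ⁻¹) = t * γ * t⁻¹ * γ⁻¹ := by group
    rwa [e] at h2
  · intro n x hx _ _
    exact hx.mono (by omega)

theorem centBound_of_cyclic (h : IsNoConjCover Γ M) {K : ι → Subgroup Γ}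
    (hN : ∀ i, (K i).Normal) (hK : ∀ g : Γ, (∀ i, g ∈ K i) → g = 1) (i : ι)
    (hfi : (PK K i).FiniteIndex) (γ : Γ)
    (hF0 : ∃ F : Set Γ, F.Finite ∧ ∀ k : Γ, k * γ * k⁻¹ * γ⁻¹ ∈ K i →
      ∃ f ∈ F, ∃ m : ℤ, (f * γ ^ m)⁻¹ * k ∈ K i) : CentBound K i γ := by
  classical
  intro S hS hSK
  obtain ⟨F, hFfin, hF⟩ := hF0
  obtain ⟨e, he0, -, he⟩ := Subgroup.exists_pow_mem_of_index_ne_zero
    hfi.index_ne_zero γ
  obtain ⟨c, hc, hce⟩ := (mem_PK hN).1 he
  have := hN i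
  set π := QuotientGroup.mk' (K i) with hπ
  have hπeq : ∀ a b : Γ, a⁻¹ * b ∈ K i ↔ π a = π b := by
    intro a b
    rw [hπ, QuotientGroup.mk'_apply, QuotientGroup.mk'_apply, QuotientGroup.eq]
  have hπ1 : ∀ a : Γ, a ∈ K i ↔ π a = 1 := by
    intro a
    rw [hπ, QuotientGroup.mk'_apply, QuotientGroup.eq_one_iff]
  have hπc : π c = π γ ^ e := by
    rw [(hπeq c (γ ^ e)).1 hce, map_pow]
  have hcγ : Commute c γ := by
    apply commute_of_comm_eq_one
    apply eq_one_of_mem hK (i := i)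
    · rw [hπ1]
      simp only [map_mul, map_inv, hπc]
      group
    · have h1 := coK_conj hN i ((coK K i).inv_mem hc) γ
      have h2 := (coK K i).mul_mem hc h1
      have e : c * (γ * c⁻¹ * γ⁻¹) = c * γ * c⁻¹ * γ⁻¹ := by group
      rwa [e] at h2
  -- the finite set of remainders
  set E : Set Γ := {y : Γ | y ∈ coK K i ∧ Commute y γ ∧ ∃ f ∈ F, ∃ s ∈ Finset.range e,
    (f * γ ^ s)⁻¹ * y ∈ K i} with hE
  have hEfin : E.Finite := by
    have hsub : E ⊆ ⋃ f ∈ F, ⋃ s ∈ (Finset.range e : Set ℕ),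
        {y : Γ | y ∈ coK K i ∧ (f * γ ^ s)⁻¹ * y ∈ K i} := by
      rintro y ⟨hy1, -, f, hf, s, hs, hy2⟩
      simp only [Set.mem_iUnion]
      exact ⟨f, hf, s, hs, hy1, hy2⟩
    refine Set.Finite.subset ?_ hsub
    apply hFfin.biUnion
    intro f _
    apply (Finset.finite_toSet _).biUnion
    intro s _
    apply Set.Subsingleton.finite
    rintro y ⟨hy1, hy2⟩ y' ⟨hy1', hy2'⟩
    apply eq_of_mod hK hy1 hy1'
    rw [hπeq] at hy2 hy2' ⊢
    rw [← hy2, ← hy2']
  obtain ⟨L, hL0, hL⟩ := tl_le_of_inBall h (hEfin.union hS)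
  obtain ⟨C', hC'⟩ := exists_nat_ge (L / tl M c)
  refine ⟨E ∪ {c}, 2 * C' + 1, hEfin.union (Set.finite_singleton c), ?_, ?_⟩
  · rintro t (ht | ht)
    · exact ht.2.1
    · rw [Set.mem_singleton_iff.1 ht]; exact hcγ
  · intro n x hx1 hx hxγ
    obtain ⟨f, hf, m, hm⟩ := hF x (by
      have : x * γ * x⁻¹ * γ⁻¹ = 1 := by
        rw [hxγ.eq]; group
      rw [this]; exact (K i).one_mem)
    set q : ℤ := m / e with hq
    have hs0 : 0 ≤ m % e := Int.emod_nonneg _ (by exact_mod_cast he0.ne')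
    have hs1 : m % e < e := Int.emod_lt_of_pos _ (by exact_mod_cast he0)
    obtain ⟨s, hs⟩ := Int.eq_ofNat_of_zero_le hs0
    have hme : m = s + e * q := by
      rw [← hs, hq]; exact (Int.emod_add_mul_ediv m e).symm
    set y : Γ := x * (c ^ q)⁻¹ with hy
    have hyE : y ∈ E := by
      refine ⟨(coK K i).mul_mem hx ((coK K i).inv_mem ((coK K i).zpow_mem hc q)), ?_, f, hf, s,
        ?_, ?_⟩
      · exact hxγ.mul_left ((hcγ.zpow_left q).inv_left)
      · rw [Finset.mem_range]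
        rw [hs] at hs1
        exact_mod_cast hs1
      · rw [hπeq] at hm ⊢
        have e1 : π y = π x * (π c ^ q)⁻¹ := by rw [hy, map_mul, map_inv, map_zpow]
        rw [e1, ← hm, hπc, map_mul, map_mul, map_zpow, map_pow, hme, zpow_add, zpow_mul,
          zpow_natCast, zpow_natCast, mul_assoc, mul_assoc, mul_inv_cancel, mul_one]
    have hxy : x = y * c ^ q := by rw [hy]; group
    have hqb : q.natAbs ≤ C' * (n + 1) ∨ c = 1 := by
      by_cases hc1 : c = 1
      · exact Or.inr hc1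
      · left
        have hpos : 0 < tl M c := tl_pos h hc1
        have h1 : InBall (E ∪ S) (1 + n) (c ^ q) := by
          have h2 : InBall (E ∪ S) 1 y⁻¹ :=
            (inBall_of_mem (S := E ∪ S) (g := y) (Or.inl hyE)).inv
          have h3 := h2.mul (hx1.mono_set (S' := E ∪ S) Set.subset_union_right)
          have e : y⁻¹ * x = c ^ q := by rw [hxy]; group
          rwa [e] at h3
        have h2 := hL _ _ h1
        rw [tl_zpow h] at h2
        have h3 : |(q : ℝ)| ≤ (L / tl M c) * (n + 1) := by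
          rw [div_mul_eq_mul_div, le_div_iff₀ hpos]
          push_cast at h2
          linarith
        have h4 : |(q : ℝ)| ≤ C' * (n + 1) :=
          h3.trans (mul_le_mul_of_nonneg_right hC' (by positivity))
        have h5 : ((q.natAbs : ℕ) : ℝ) = |(q : ℝ)| := by
          rw [Nat.cast_natAbs, Int.cast_abs]
        rw [← h5] at h4
        exact_mod_cast h4
    rcases hqb with hqb | hc1
    · rw [hxy]
      have h1 : InBall (E ∪ {c}) 1 y := inBall_of_mem (Or.inl hyE)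
      have h2 : InBall (E ∪ {c}) (1 * q.natAbs) (c ^ q) :=
        (inBall_of_mem (S := E ∪ {c}) (g := c) (Or.inr rfl)).zpow q
      refine (h1.mul h2).mono ?_
      nlinarith
    · have hcq : c ^ q = 1 := by rw [hc1, one_zpow]
      rw [hxy, hcq, mul_one]
      exact (inBall_of_mem (S := E ∪ {c}) (g := y) (Or.inl hyE)).mono
        (le_trans (by omega : 1 ≤ 2 * C' + 1) (Nat.le_add_left _ _))

/-- the bound for one component -/
theorem component_bound {K : ι → Subgroup Γ}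
    (hN : ∀ i, (K i).Normal) (hK : ∀ g : Γ, (∀ i, g ∈ K i) → g = 1) (i : ι) (γ : Γ)
    (hV : CentBound K i γ)
    {T : Set Γ} (hT : T.Finite) (hTP : ∀ t ∈ T, t ∈ PK K i) :
    ∃ (T' : Set Γ) (C : ℕ), T'.Finite ∧ (∀ t ∈ T', Commute t γ) ∧
      ∀ n : ℕ, ∀ d x : Γ, InBall T n d → x ∈ coK K i → x⁻¹ * d ∈ K i → Commute x γ →
        InBall T' (C * n + C) x := by
  classical
  -- component function
  have hch : ∀ t : Γ, ∃ w ∈ coK K i, t ∈ T → w⁻¹ * t ∈ K i := by
    intro t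
    by_cases ht : t ∈ T
    · obtain ⟨w, hw, hw2⟩ := (mem_PK hN).1 (hTP t ht)
      exact ⟨w, hw, fun _ => hw2⟩
    · exact ⟨1, (coK K i).one_mem, fun h => (ht h).elim⟩
  choose χ hχ1 hχ2 using hch
  obtain ⟨T', C, hT', hT'2, hT'3⟩ := hV (χ '' T) (hT.image χ)
    (by rintro _ ⟨t, -, rfl⟩; exact hχ1 t)
  refine ⟨T', C, hT', hT'2, ?_⟩
  intro n d x hd hx hxd hxγ
  exact hT'3 n x (inBall_component hN hK i χ hχ1 (fun t ht => hχ2 t ht) hd hx hxd) hx hxγ

theorem straight_of_centBound [Finite ι] (h : IsNoConjCover Γ M) {K : ι → Subgroup Γ}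
    (hN : ∀ i, (K i).Normal) (hK : ∀ g : Γ, (∀ i, g ∈ K i) → g = 1)
    (hfi : ∀ i, (PK K i).FiniteIndex) (γ : Γ) (hV : ∀ i, CentBound K i γ) :
    Straight (Subgroup.centralizer {γ}) := by
  classical
  have := Fintype.ofFinite ι
  set Z := Subgroup.centralizer {γ} with hZ
  have hmemZ : ∀ z : Γ, z ∈ Z ↔ Commute z γ := by
    intro z
    rw [hZ, Subgroup.mem_centralizer_singleton_iff]
    constructor
    · intro h; exact h
    · intro h; exact h
  set N : Subgroup Γ := ⨅ i, PK K i with hNdef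
  have hNfi : N.FiniteIndex := Subgroup.finiteIndex_iInf hfi
  have hNfin : Finite (Γ ⧸ N) := Subgroup.finite_quotient_of_finiteIndex
  have hNi : ∀ g : Γ, g ∈ N → ∀ i, g ∈ PK K i := by
    intro g hg i
    rw [hNdef, Subgroup.mem_iInf] at hg
    exact hg i
  obtain ⟨R, hRfin, hRZ, hR⟩ := exists_reps (fun z : Γ => (z : Γ ⧸ N)) (fun z => Commute z γ)
  -- main estimate
  have main : ∀ S : Set Γ, S.Finite → Subgroup.closure S = ⊤ → ∃ (TZ : Set Γ) (C : ℕ),
      TZ.Finite ∧ (∀ t ∈ TZ, Commute t γ) ∧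
      ∀ z : Γ, Commute z γ → ∀ n : ℕ, InBall S n z → InBall TZ (C * n + C) z := by
    intro S hS hSgen
    obtain ⟨k, hk⟩ := exists_uniform (S := S) hRfin (by rw [hSgen]; exact fun _ _ => trivial)
    obtain ⟨T, hTfin, hTN, hT⟩ := schreier N hS
    have hcb : ∀ i, ∃ (T' : Set Γ) (C : ℕ), T'.Finite ∧ (∀ t ∈ T', Commute t γ) ∧
      ∀ n : ℕ, ∀ d x : Γ, InBall T n d → x ∈ coK K i → x⁻¹ * d ∈ K i → Commute x γ →
        InBall T' (C * n + C) x := fun i =>
      component_bound hN hK i γ (hV i) hTfin (fun t ht => hNi t (hTN ht) i)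
    choose T' C hT'fin hT'Z hT' using hcb
    refine ⟨R ∪ ⋃ i, T' i, 1 + (∑ i, C i) * (k + 3), ?_, ?_, ?_⟩
    · exact hRfin.union (Set.finite_iUnion hT'fin)
    · rintro t (ht | ht)
      · exact hRZ t ht
      · obtain ⟨i, hi⟩ := Set.mem_iUnion.1 ht
        exact hT'Z i t hi
    · intro z hz n hzn
      obtain ⟨r, hr, hzr⟩ := hR z hz
      have hd : r⁻¹ * z ∈ N := by
        rw [← QuotientGroup.eq]; exact hzr.symm
      set d : Γ := r⁻¹ * z with hddef
      have hdγ : Commute d γ := (hRZ r hr).inv_left.mul_left hz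
      have hdball : InBall T (n + k + 2) d :=
        hT (n + k) d hd (((hk r hr).inv.mul hzn).mono (by omega))
      have hx : ∀ i, ∃ x ∈ coK K i, x⁻¹ * d ∈ K i := fun i => (mem_PK hN).1 (hNi d hd i)
      choose x hx1 hx2 using hx
      have hxγ : ∀ i, Commute (x i) γ := by
        intro i
        have := hN i
        apply commute_of_comm_eq_one
        apply eq_one_of_mem hK (i := i)
        · have h1 : (QuotientGroup.mk' (K i)) (x i) = (QuotientGroup.mk' (K i)) d := by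
            rw [QuotientGroup.mk'_apply, QuotientGroup.mk'_apply, QuotientGroup.eq]
            exact hx2 i
          have h2 : (QuotientGroup.mk' (K i)) (x i * γ * (x i)⁻¹ * γ⁻¹) = 1 := by
            simp only [map_mul, map_inv]
            rw [h1, ← map_mul, hdγ.eq, map_mul]
            group
          rwa [QuotientGroup.mk'_apply, QuotientGroup.eq_one_iff] at h2
        · have h1 := coK_conj hN i ((coK K i).inv_mem (hx1 i)) γ
          have h2 := (coK K i).mul_mem (hx1 i) h1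
          have e : x i * (γ * (x i)⁻¹ * γ⁻¹) = x i * γ * (x i)⁻¹ * γ⁻¹ := by group
          rwa [e] at h2
      obtain ⟨b, hb1, -, -, hb4⟩ := exists_prod h hN hK x hx1 Finset.univ
      have hbd : b = d := by
        have h1 : ∀ i, b⁻¹ * d ∈ K i := by
          intro i
          have h2 := (K i).mul_mem ((K i).inv_mem (hb1 i (Finset.mem_univ i))) (hx2 i)
          have e : ((x i)⁻¹ * b)⁻¹ * ((x i)⁻¹ * d) = b⁻¹ * d := by group
          rwa [e] at h2
        have := hK _ h1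
        rwa [inv_mul_eq_one] at this
      have hball : InBall (R ∪ ⋃ i, T' i) (∑ i, (C i * (n + k + 2) + C i)) d := by
        rw [← hbd]
        apply hb4
        intro i _
        have h1 := hT' i (n + k + 2) d (x i) hdball (hx1 i) (hx2 i) (hxγ i)
        exact h1.mono_set fun t ht => Or.inr (Set.mem_iUnion.2 ⟨i, ht⟩)
      have hrball : InBall (R ∪ ⋃ i, T' i) 1 r := inBall_of_mem (Or.inl hr)
      have hfin := hrball.mul hball
      have e : r * d = z := by rw [hddef]; group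
      rw [e] at hfin
      refine hfin.mono ?_
      have hsum : ∑ i, (C i * (n + k + 2) + C i) = (∑ i, C i) * (n + k + 3) := by
        rw [Finset.sum_mul]
        apply Finset.sum_congr rfl
        intro i _
        ring
      rw [hsum]
      have h1 : n + k + 3 ≤ (k + 3) * n + (k + 3) := by nlinarith
      calc 1 + (∑ i, C i) * (n + k + 3) ≤ 1 + (∑ i, C i) * ((k + 3) * n + (k + 3)) := by gcongr
        _ ≤ (1 + (∑ i, C i) * (k + 3)) * n + (1 + (∑ i, C i) * (k + 3)) := by nlinarith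
  constructor
  · have hfg := group_fg h
    rw [Group.fg_iff] at hfg
    obtain ⟨S, hS, hSfin⟩ := hfg
    obtain ⟨TZ, C, hTZ, hTZ2, hTZ3⟩ := main S hSfin hS
    rw [Subgroup.fg_iff]
    refine ⟨TZ, ?_, hTZ⟩
    apply le_antisymm
    · rw [Subgroup.closure_le]
      intro t ht
      exact (hmemZ t).2 (hTZ2 t ht)
    · intro z hz
      obtain ⟨n, hn⟩ := inBall_of_mem_closure (S := S) (g := z) (by rw [hS]; trivial)
      exact (hTZ3 z ((hmemZ z).1 hz) n hn).mem_closure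
  · intro S T hS hT hSgen hTgen
    obtain ⟨TZ, C, hTZ, hTZ2, hTZ3⟩ := main S hS hSgen
    obtain ⟨k, hk⟩ := exists_uniform (S := T) hTZ (by
      intro t ht
      rw [hTgen]
      exact (hmemZ t).2 (hTZ2 t ht))
    refine ⟨k * C, fun z hz n hn => ?_⟩
    have h1 := (hTZ3 z ((hmemZ z).1 hz) n hn).bind hk
    exact h1.mono (by rw [mul_add]; nlinarith)

/-- full subdirect products of groups with small centralizers -/
theorem straight_core [Finite ι] (h : IsNoConjCover Γ M) {K : ι → Subgroup Γ}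
    (hN : ∀ i, (K i).Normal) (hK : ∀ g : Γ, (∀ i, g ∈ K i) → g = 1)
    (hco : ∀ i, ∃ a ∈ coK K i, a ≠ 1)
    (hV : ∀ i, ∀ g : Γ, g ∉ K i → ∃ F : Set Γ, F.Finite ∧ ∀ k : Γ, k * g * k⁻¹ * g⁻¹ ∈ K i →
      ∃ f ∈ F, ∃ m : ℤ, (f * g ^ m)⁻¹ * k ∈ K i) :
    (∀ i, (PK K i).FiniteIndex) ∧ ∀ γ : Γ, Straight (Subgroup.centralizer {γ}) := by
  classical
  choose a ha ha1 using hco
  have hfi : ∀ i, (PK K i).FiniteIndex := by
    intro i
    apply PK_finiteIndex h hN hK a ha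
    intro i
    have hai : a i ∉ K i := fun h' => ha1 i (eq_one_of_mem hK h' (ha i))
    obtain ⟨F, hF, hF2⟩ := hV i (a i) hai
    refine ⟨F, hF, fun k hk => ?_⟩
    obtain ⟨f, hf, m, hm⟩ := hF2 k (by
      have : k * a i * k⁻¹ * (a i)⁻¹ = 1 := by rw [hk.eq]; group
      rw [this]; exact (K i).one_mem)
    exact ⟨f, hf, a i ^ m, (coK K i).zpow_mem (ha i) m, hm⟩
  refine ⟨hfi, fun γ => straight_of_centBound h hN hK hfi γ fun i => ?_⟩
  by_cases hγ : γ ∈ K i
  · exact centBound_of_mem hN hK i hγ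
  · exact centBound_of_cyclic h hN hK i (hfi i) γ (hV i γ hγ)

end main

end Helper33.NCP
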