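import Mathlib

/-!
Elementary facts on trees.
-/

open Set

namespace Helper33.NCP

variable {V : Type*} {T : SimpleGraph V}

/-- two neighbours of `v` connected by a walk avoiding `v` are equal -/
theorem neighbour_unique (hT : T.IsAcyclic) {v x x' : V} (w : T.Walk x x') (hv : v ∉ w.support)
    (h1 : T.Adj v x) (h2 : T.Adj v x') : x = x' := by
  classical
  by_contra hne
  have hxv : x ≠ v := h1.ne'
  have hx'v : x' ≠ v := h2.ne'
  set p1 : T.Walk x x' := SimpleGraph.Walk.cons h1.symm (SimpleGraph.Walk.cons h2 SimpleGraph.Walk.nil) with hp1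
  have hp1' : p1.IsPath := by
    rw [hp1]
    simp [SimpleGraph.Walk.cons_isPath_iff, hxv, hne, hx'v.symm]
  set p2 := w.toPath with hp2
  have he : (⟨p1, hp1'⟩ : T.Path x x') = p2 := (hT.subsingleton_path x x').elim _ _
  have hmem : v ∈ (p2 : T.Walk x x').support := by
    rw [← he]
    simp [hp1]
  exact hv (SimpleGraph.Walk.support_toPath_subset_support w hmem)

/-- a walk given by a sequence -/
theorem exists_walk_of_seq {u : ℕ → V} {v : V} {a b : ℕ} (hab : a ≤ b)
    (hadj : ∀ k, a ≤ k → k < b → u k = u (k + 1) ∨ T.Adj (u k) (u (k + 1)))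
    (hne : ∀ k, a ≤ k → k ≤ b → u k ≠ v) : ∃ w : T.Walk (u a) (u b), v ∉ w.support := by
  induction b, hab using Nat.le_induction with
  | base =>
    refine ⟨SimpleGraph.Walk.nil, ?_⟩
    simp only [SimpleGraph.Walk.support_nil, List.mem_singleton]
    exact (hne a le_rfl le_rfl).symm
  | succ b hab ih =>
    obtain ⟨w, hw⟩ := ih (fun k h1 h2 => hadj k h1 (by omega)) (fun k h1 h2 => hne k h1 (by omega))
    rcases hadj b hab (by omega) with h | h
    · rw [← h]
      exact ⟨w, hw⟩
    · refine ⟨w.concat h, ?_⟩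
      rw [SimpleGraph.Walk.support_concat, List.mem_append, not_or]
      refine ⟨hw, ?_⟩
      simp only [List.mem_singleton]
      exact (hne (b + 1) (by omega) le_rfl).symm

theorem seq_neighbour_unique (hT : T.IsAcyclic) {u : ℕ → V} {v : V} {a b : ℕ} (hab : a ≤ b)
    (hadj : ∀ k, a ≤ k → k < b → u k = u (k + 1) ∨ T.Adj (u k) (u (k + 1)))
    (hne : ∀ k, a ≤ k → k ≤ b → u k ≠ v) (h1 : T.Adj v (u a)) (h2 : T.Adj v (u b)) :
    u a = u b := by
  obtain ⟨w, hw⟩ := exists_walk_of_seq hab hadj hne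
  exact neighbour_unique hT w hw h1 h2

end Helper33.NCP
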