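import Pool.Agent.Helper33.NCP.Tree
import Pool.Agent.Helper33.NCP.Abelian

/-!
Actions on trees with abelian edge stabilizers: vertex stabilizers are undistorted.
-/

open Set

namespace Helper33.NCP

section fw

variable {Γ V : Type*} [Group Γ] [MulAction Γ V]

/-- fine walks -/
structure IsFW (T : SimpleGraph V) (S' : Set Γ) (U : Set V) (g : ℕ → Γ) (u : ℕ → V) (N : ℕ) :
    Prop where
  near : ∀ k, k ≤ N → (g k)⁻¹ • u k ∈ U
  step : ∀ k, k < N → (g k)⁻¹ * g (k + 1) ∈ S' ∧
    (u k = u (k + 1) ∨ (g k = g (k + 1) ∧ T.Adj (u k) (u (k + 1))))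

theorem IsFW.inBall {T : SimpleGraph V} {S' : Set Γ} {U : Set V} {g : ℕ → Γ} {u : ℕ → V} {N : ℕ}
    (h : IsFW T S' U g u N) {i j : ℕ} (hij : i ≤ j) (hj : j ≤ N) :
    InBall S' (j - i) ((g i)⁻¹ * g j) := by
  induction j, hij using Nat.le_induction with
  | base => simpa using inBall_one S' _
  | succ j hij ih =>
    have h1 := ih (by omega)
    have h2 := (h.step j (by omega)).1
    have h3 := h1.mul (inBall_of_mem h2)
    have e : (g i)⁻¹ * g j * ((g j)⁻¹ * g (j + 1)) = (g i)⁻¹ * g (j + 1) := by group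
    rw [e] at h3
    exact h3.mono (by omega)

theorem IsFW.shift {T : SimpleGraph V} {S' : Set Γ} {U : Set V} {g : ℕ → Γ} {u : ℕ → V} {N : ℕ}
    (h : IsFW T S' U g u N) {k : ℕ} (hk : k ≤ N) :
    IsFW T S' U (fun i => g (k + i)) (fun i => u (k + i)) (N - k) := by
  constructor
  · intro i hi
    exact h.near (k + i) (by omega)
  · intro i hi
    exact h.step (k + i) (by omega)

theorem IsFW.trunc {T : SimpleGraph V} {S' : Set Γ} {U : Set V} {g : ℕ → Γ} {u : ℕ → V} {N : ℕ}
    (h : IsFW T S' U g u N) {k : ℕ} (hk : k ≤ N) : IsFW T S' U g u k := by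
  constructor
  · intro i hi
    exact h.near i (by omega)
  · intro i hi
    exact h.step i (by omega)

theorem IsFW.smul {T : SimpleGraph V} (hadj : ∀ (g : Γ) (u v : V), T.Adj u v → T.Adj (g • u) (g • v))
    {S' : Set Γ} {U : Set V} {g : ℕ → Γ} {u : ℕ → V} {N : ℕ}
    (h : IsFW T S' U g u N) (x : Γ) : IsFW T S' U (fun i => x * g i) (fun i => x • u i) N := by
  constructor
  · intro i hi
    have := h.near i hi
    rwa [mul_inv_rev, mul_smul, inv_smul_smul]
  · intro i hi
    obtain ⟨h1, h2⟩ := h.step i hi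
    refine ⟨?_, ?_⟩
    · have e : (x * g i)⁻¹ * (x * g (i + 1)) = (g i)⁻¹ * g (i + 1) := by group
      rw [e]
      exact h1
    · rcases h2 with h2 | ⟨h2, h3⟩
      · left; rw [h2]
      · right; exact ⟨by rw [h2], hadj _ _ _ h3⟩

theorem mem_edgeStab {u v : V} {g : Γ} : g ∈ edgeStab Γ u v ↔ g • u = u ∧ g • v = v := by
  simp [edgeStab, Subgroup.mem_inf, MulAction.mem_stabilizer_iff]

end fw

section bound

variable {Γ M V : Type*} [Group Γ] [MetricSpace M] [MulAction Γ M] [MulAction Γ V]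

theorem vertex_bound (h : IsNoConjCover Γ M) {T : SimpleGraph V} (hT : T.IsAcyclic)
    (hadj : ∀ (g : Γ) (u v : V), T.Adj u v → T.Adj (g • u) (g • v))
    (hE : ∀ u v : V, T.Adj u v → (edgeStab Γ u v).FG ∧
      ∀ a ∈ edgeStab Γ u v, ∀ b ∈ edgeStab Γ u v, a * b = b * a)
    (v : V) {S' T' : Set Γ} {U : Set V} (hS' : S'.Finite) (hT' : T'.Finite) (hU : U.Finite) :
    ∃ (Tv : Set Γ) (C : ℕ), Tv.Finite ∧ (∀ t ∈ Tv, t • v = v) ∧
      ∀ (N : ℕ) (g : ℕ → Γ) (u : ℕ → V), IsFW T S' U g u N → u 0 = v → u N = v →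
        ∀ y y' : Γ, y • v = v → y' • v = v → y⁻¹ * g 0 ∈ T' → y'⁻¹ * g N ∈ T' →
          InBall Tv (C * N + C) (y⁻¹ * y') := by
  classical
  -- markers
  have hτ : ∀ p : V, ∃ τ : Γ, (∃ x : Γ, x • p = v) → τ • p = v := by
    intro p
    by_cases hp : ∃ x : Γ, x • p = v
    · obtain ⟨x, hx⟩ := hp
      exact ⟨x, fun _ => hx⟩
    · exact ⟨1, fun h => (hp h).elim⟩
  choose τ hτ using hτ
  set T₁ : Set Γ := T' ∪ τ '' U with hT₁
  have hT₁fin : T₁.Finite := hT'.union (hU.image τ)
  set W : Set V := Set.image2 (fun (t : Γ) (p : V) => t • p) T₁ U with hW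
  have hWfin : W.Finite := Set.Finite.image2 _ hT₁fin hU
  have hκ : ∀ x₁ x₂ : V, ∃ κ : Γ, κ • v = v ∧
      ((∃ x : Γ, x • v = v ∧ x • x₂ = x₁) → κ • x₂ = x₁) := by
    intro x₁ x₂
    by_cases hp : ∃ x : Γ, x • v = v ∧ x • x₂ = x₁
    · obtain ⟨x, hx1, hx2⟩ := hp
      exact ⟨x, hx1, fun _ => hx2⟩
    · exact ⟨1, one_smul _ _, fun h => (hp h).elim⟩
  choose κ hκ1 hκ2 using hκ
  set K : Set Γ := Set.image2 κ W W with hK
  have hKfin : K.Finite := Set.Finite.image2 _ hWfin hWfin
  have hEb : ∀ x₁ : V, ∃ (TE : Set Γ) (CE : ℕ), TE.Finite ∧ (∀ t ∈ TE, t • v = v) ∧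
      (T.Adj v x₁ → ∀ e : Γ, e • v = v → e • x₁ = x₁ → ∀ n : ℕ, tl M e ≤ n →
        InBall TE (CE * n) e) := by
    intro x₁
    by_cases hx : T.Adj v x₁
    · obtain ⟨hfg, hcomm⟩ := hE v x₁ hx
      obtain ⟨TE, CE, h1, h2, h3⟩ := ab_bound h (edgeStab Γ v x₁) hcomm hfg
      exact ⟨TE, CE, h1, fun t ht => (mem_edgeStab.1 (h2 t ht)).1, fun _ e he1 he2 n hn =>
        h3 e (mem_edgeStab.2 ⟨he1, he2⟩) n hn⟩
    · exact ⟨∅, 0, Set.finite_empty, fun t ht => ht.elim, fun h => (hx h).elim⟩
  choose TE CE hTEfin hTEv hTE using hEb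
  obtain ⟨CM, hCM⟩ := (hWfin.image CE).bddAbove
  have hCM' : ∀ x ∈ W, CE x ≤ CM := fun x hx => hCM ⟨x, hx, rfl⟩
  obtain ⟨L, hL0, hL⟩ := tl_le_of_inBall h ((hS'.union hT₁fin).union hKfin)
  obtain ⟨L', hL'⟩ := exists_nat_ge L
  set F₀ : Set Γ := {t : Γ | t • v = v} ∩
    Set.image2 (fun x b => x * b⁻¹) (Set.image2 (fun a s => a * s) T₁ (S' ∪ {1})) T₁ with hF₀
  have hF₀fin : F₀.Finite := (Set.Finite.image2 _ (Set.Finite.image2 _ hT₁fin
    (hS'.union (Set.finite_singleton 1))) hT₁fin).subset Set.inter_subset_right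
  set Tv : Set Γ := (F₀ ∪ K) ∪ ⋃ x ∈ W, TE x with hTv
  have hTvfin : Tv.Finite := (hF₀fin.union hKfin).union (hWfin.biUnion fun x _ => hTEfin x)
  set C₁ : ℕ := CM * L' * 3 + 1 with hC₁
  refine ⟨Tv, 2 * C₁ + 1, hTvfin, ?_, ?_⟩
  · rintro t ((ht | ht) | ht)
    · exact ht.1
    · obtain ⟨a, -, b, -, rfl⟩ := ht
      exact hκ1 a b
    · simp only [Set.mem_iUnion] at ht
      obtain ⟨x, -, ht⟩ := ht
      exact hTEv x t ht
  have key : ∀ (N : ℕ) (g : ℕ → Γ) (u : ℕ → V), IsFW T S' U g u N → u 0 = v → u N = v →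
      ∀ y y' : Γ, y • v = v → y' • v = v → y⁻¹ * g 0 ∈ T₁ → y'⁻¹ * g N ∈ T₁ →
        InBall Tv ((2 * C₁ + 1) * N + (2 * C₁ + 1)) (y⁻¹ * y') := by
    intro N
    induction N using Nat.strong_induction_on with
    | _ N ih =>
      intro g u hfw hu0 huN y y' hy hy' hyg hy'g
      rcases Nat.eq_zero_or_pos N with hN | hN
      · subst hN
        have hmem : y⁻¹ * y' ∈ F₀ := by
          refine ⟨?_, ?_⟩
          · show (y⁻¹ * y') • v = v
            rw [mul_smul, hy', inv_smul_eq_iff, hy]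
          · refine ⟨y⁻¹ * g 0, ⟨y⁻¹ * g 0, hyg, 1, Or.inr rfl, by simp⟩, y'⁻¹ * g 0, hy'g, ?_⟩
            show y⁻¹ * g 0 * (y'⁻¹ * g 0)⁻¹ = y⁻¹ * y'
            group
        exact (inBall_of_mem (S := Tv) (Or.inl (Or.inl hmem))).mono (by omega)
      -- first return
      have hex : ∃ k, 1 ≤ k ∧ u k = v := ⟨N, hN, huN⟩
      set k := Nat.find hex with hk
      obtain ⟨hk1, hkv⟩ := Nat.find_spec hex
      rw [← hk] at hk1 hkv
      have hkN : k ≤ N := Nat.find_min' hex ⟨hN, huN⟩
      have hkmin : ∀ j, 1 ≤ j → j < k → u j ≠ v := fun j hj1 hj2 hj3 =>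
        Nat.find_min hex hj2 ⟨hj1, hj3⟩
      -- the mark at time `k`
      set p : V := (g k)⁻¹ • v with hp
      have hpU : p ∈ U := by
        have := hfw.near k hkN
        rwa [hkv] at this
      have hτp : τ p • p = v := hτ p ⟨g k, by rw [hp, smul_inv_smul]⟩
      set yk : Γ := g k * (τ p)⁻¹ with hyk
      have hykv : yk • v = v := by
        rw [hyk, mul_smul]
        have : (τ p)⁻¹ • v = p := by rw [inv_smul_eq_iff, hτp]
        rw [this, hp, smul_inv_smul]
      have hykg : yk⁻¹ * g k = τ p := by rw [hyk]; group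
      have hykT : yk⁻¹ * g k ∈ T₁ := by
        rw [hykg]; exact Or.inr ⟨p, hpU, rfl⟩
      -- the excursion
      have hexc : InBall Tv (C₁ * k + C₁) (y⁻¹ * yk) := by
        rcases Nat.eq_or_lt_of_le hk1 with hk1' | hk1'
        · have hmem : y⁻¹ * yk ∈ F₀ := by
            refine ⟨?_, ?_⟩
            · show (y⁻¹ * yk) • v = v
              rw [mul_smul, hykv, inv_smul_eq_iff, hy]
            · refine ⟨y⁻¹ * g 0 * ((g 0)⁻¹ * g 1), ⟨y⁻¹ * g 0, hyg, (g 0)⁻¹ * g 1,
                Or.inl (hfw.step 0 (by omega)).1, rfl⟩, yk⁻¹ * g k, hykT, ?_⟩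
              show y⁻¹ * g 0 * ((g 0)⁻¹ * g 1) * (yk⁻¹ * g k)⁻¹ = y⁻¹ * yk
              rw [← hk1']
              group
          exact (inBall_of_mem (S := Tv) (Or.inl (Or.inl hmem))).mono
            (le_trans (by omega : 1 ≤ C₁) (Nat.le_add_left _ _))
        · -- the walk leaves `v` through the neighbour `x` and comes back through `x`
          have h1 : u 1 ≠ v := hkmin 1 le_rfl hk1'
          have h0 : g 0 = g 1 ∧ T.Adj v (u 1) := by
            rcases (hfw.step 0 (by omega)).2 with h2 | h2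
            · rw [hu0] at h2
              exact (h1 h2.symm).elim
            · rwa [hu0] at h2
          have hk2 : u (k - 1) ≠ v := hkmin (k - 1) (by omega) (by omega)
          have hkk : g (k - 1) = g k ∧ T.Adj (u (k - 1)) v := by
            have e : k - 1 + 1 = k := by omega
            have h3 := (hfw.step (k - 1) (by omega)).2
            rw [e, hkv] at h3
            rcases h3 with h2 | h2
            · exact (hk2 h2).elim
            · exact h2
          have hx : u 1 = u (k - 1) := by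
            apply seq_neighbour_unique hT (v := v) (by omega : 1 ≤ k - 1)
            · intro j hj1 hj2
              rcases (hfw.step j (by omega)).2 with h2 | h2
              · exact Or.inl h2
              · exact Or.inr h2.2
            · intro j hj1 hj2
              exact hkmin j hj1 (by omega)
            · exact h0.2
            · exact hkk.2.symm
          set x : V := u 1 with hxdef
          set x₁ : V := y⁻¹ • x with hx₁
          set x₂ : V := yk⁻¹ • x with hx₂
          have hx₁W : x₁ ∈ W := by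
            refine ⟨y⁻¹ * g 0, hyg, (g 1)⁻¹ • u 1, hfw.near 1 (by omega), ?_⟩
            show (y⁻¹ * g 0) • (g 1)⁻¹ • u 1 = x₁
            rw [h0.1, mul_smul, smul_inv_smul]
          have hx₂W : x₂ ∈ W := by
            refine ⟨yk⁻¹ * g k, hykT, (g (k - 1))⁻¹ • u (k - 1), hfw.near (k - 1) (by omega), ?_⟩
            show (yk⁻¹ * g k) • (g (k - 1))⁻¹ • u (k - 1) = x₂
            rw [hkk.1, mul_smul, smul_inv_smul, ← hx]
          set w : Γ := y⁻¹ * yk with hw
          have hwv : w • v = v := by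
            rw [hw, mul_smul, hykv, inv_smul_eq_iff, hy]
          have hwx : w • x₂ = x₁ := by
            rw [hw, hx₂, hx₁, mul_smul, smul_inv_smul]
          have hκx := hκ2 x₁ x₂ ⟨w, hwv, hwx⟩
          have hκv := hκ1 x₁ x₂
          have hκK : κ x₁ x₂ ∈ K := ⟨x₁, hx₁W, x₂, hx₂W, rfl⟩
          set e : Γ := w * (κ x₁ x₂)⁻¹ with he
          have hev : e • v = v := by
            have : (κ x₁ x₂)⁻¹ • v = v := by rw [inv_smul_eq_iff, hκv]
            rw [he, mul_smul, this, hwv]
          have hex1 : e • x₁ = x₁ := by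
            have : (κ x₁ x₂)⁻¹ • x₁ = x₂ := by rw [inv_smul_eq_iff, hκx]
            rw [he, mul_smul, this, hwx]
          have hadj1 : T.Adj v x₁ := by
            have := hadj y⁻¹ _ _ h0.2
            rwa [inv_smul_eq_iff.2 hy.symm] at this
          have hball : InBall ((S' ∪ T₁) ∪ K) (1 + k + 1 + 1) e := by
            have b1 : InBall ((S' ∪ T₁) ∪ K) 1 (y⁻¹ * g 0) := inBall_of_mem (Or.inl (Or.inr hyg))
            have b2 : InBall ((S' ∪ T₁) ∪ K) (k - 0) ((g 0)⁻¹ * g k) :=
              (hfw.inBall (Nat.zero_le k) hkN).mono_set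
                (Set.subset_union_left.trans Set.subset_union_left)
            have b3 : InBall ((S' ∪ T₁) ∪ K) 1 (yk⁻¹ * g k)⁻¹ :=
              (inBall_of_mem (S := (S' ∪ T₁) ∪ K) (Or.inl (Or.inr hykT))).inv
            have b4 : InBall ((S' ∪ T₁) ∪ K) 1 (κ x₁ x₂)⁻¹ :=
              (inBall_of_mem (S := (S' ∪ T₁) ∪ K) (Or.inr hκK)).inv
            have b5 := ((b1.mul b2).mul b3).mul b4
            have e1 : y⁻¹ * g 0 * ((g 0)⁻¹ * g k) * (yk⁻¹ * g k)⁻¹ * (κ x₁ x₂)⁻¹ = e := by
              rw [he, hw]; group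
            rw [e1] at b5
            exact b5.mono (by omega)
          have htl : tl M e ≤ ((L' * (k + 3) : ℕ) : ℝ) := by
            refine (hL _ _ hball).trans ?_
            push_cast
            have : ((1 : ℝ) + k + 1 + 1) = k + 3 := by ring
            rw [this]
            exact mul_le_mul_of_nonneg_right hL' (by positivity)
          have he2 := hTE x₁ hadj1 e hev hex1 _ htl
          have he3 : InBall Tv (CE x₁ * (L' * (k + 3))) e := by
            apply he2.mono_set
            intro t ht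
            exact Or.inr (Set.mem_biUnion hx₁W ht)
          have he4 := he3.mul (inBall_of_mem (S := Tv) (Or.inl (Or.inr hκK)))
          have e5 : e * κ x₁ x₂ = w := by rw [he]; group
          rw [e5] at he4
          refine he4.mono ?_
          have h6 : CE x₁ * (L' * (k + 3)) ≤ CM * (L' * (k + 3)) :=
            Nat.mul_le_mul_right _ (hCM' x₁ hx₁W)
          have h7 : CM * (L' * (k + 3)) + 1 ≤ C₁ * k + C₁ := by
            rw [hC₁]
            nlinarith [Nat.zero_le (CM * L' * k), Nat.zero_le k]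
          omega
      -- the rest
      have hrest : InBall Tv ((2 * C₁ + 1) * (N - k) + (2 * C₁ + 1)) (yk⁻¹ * y') := by
        apply ih (N - k) (by omega) (fun i => g (k + i)) (fun i => u (k + i)) (hfw.shift hkN)
        · simpa using hkv
        · have : k + (N - k) = N := by omega
          simp only [this]
          exact huN
        · exact hykv
        · exact hy'
        · simpa using hykT
        · have : k + (N - k) = N := by omega
          simp only [this]
          exact hy'g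
      have hfin := hexc.mul hrest
      have e6 : y⁻¹ * yk * (yk⁻¹ * y') = y⁻¹ * y' := by group
      rw [e6] at hfin
      refine hfin.mono ?_
      obtain ⟨r, hr⟩ := Nat.exists_eq_add_of_le hkN
      have hr' : N - k = r := by omega
      rw [hr', hr]
      nlinarith
  intro N g u hfw hu0 huN y y' hy hy' hyg hy'g
  exact key N g u hfw hu0 huN y y' hy hy' (Or.inl hyg) (Or.inl hy'g)

end bound

end Helper33.NCP
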