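import Pool.Agent.Helper33.NCP.Tree

/-!
Distances in trees: the four point inequality, translation axes.
-/

open Set

namespace Helper33.NCP

variable {V : Type*} {T : SimpleGraph V}

theorem dist_through (hT : T.Connected) {a b c : V} (h : ∀ w : T.Walk b c, a ∈ w.support) :
    T.dist b c = T.dist b a + T.dist a c := by
  classical
  apply le_antisymm (hT.dist_triangle)
  obtain ⟨w, hw⟩ := hT.exists_walk_length_eq_dist b c
  have ha := h w
  have h1 : (w.takeUntil a ha).length + (w.dropUntil a ha).length = w.length := by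
    rw [← SimpleGraph.Walk.length_append, SimpleGraph.Walk.take_spec]
  have h2 := SimpleGraph.dist_le (w.takeUntil a ha)
  have h3 := SimpleGraph.dist_le (w.dropUntil a ha)
  omega

/-- the first step of a geodesic -/
theorem exists_next (hT : T.Connected) {a b : V} (hab : a ≠ b) :
    ∃ x, T.Adj a x ∧ T.dist a b = T.dist x b + 1 ∧ ∃ w : T.Walk x b, a ∉ w.support := by
  classical
  obtain ⟨w, hw, hwl⟩ := hT.exists_path_of_dist a b
  cases w with
  | nil => exact (hab rfl).elim
  | @cons _ x _ hadj p =>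
    rw [SimpleGraph.Walk.cons_isPath_iff] at hw
    refine ⟨x, hadj, ?_, p, hw.2⟩
    rw [SimpleGraph.Walk.length_cons] at hwl
    have h1 := SimpleGraph.dist_le p
    have h2 : T.dist a b ≤ T.dist a x + T.dist x b := hT.dist_triangle
    have h3 : T.dist a x = 1 := SimpleGraph.dist_eq_one_iff_adj.2 hadj
    omega

theorem dist_step (hT : T.IsTree) {a x : V} (hax : T.Adj a x) (b : V) :
    ((∃ w : T.Walk x b, a ∉ w.support) ∧ T.dist a b = T.dist x b + 1) ∨
      ((∀ w : T.Walk x b, a ∈ w.support) ∧ T.dist x b = T.dist a b + 1) := by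
  by_cases h : ∃ w : T.Walk x b, a ∉ w.support
  · left
    refine ⟨h, ?_⟩
    obtain ⟨w, hw⟩ := h
    have hab : a ≠ b := by
      intro e
      apply hw
      rw [e]
      exact w.end_mem_support
    obtain ⟨x', hx', hd, w', hw'⟩ := exists_next hT.1 hab
    have : x = x' := by
      apply neighbour_unique hT.2 (v := a) (w.append w'.reverse) _ hax hx'
      rw [SimpleGraph.Walk.mem_support_append_iff, not_or]
      refine ⟨hw, ?_⟩
      rw [SimpleGraph.Walk.support_reverse, List.mem_reverse]
      exact hw'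
    rw [this]
    exact hd
  · right
    push Not at h
    refine ⟨h, ?_⟩
    have h1 := dist_through hT.1 h
    have h2 : T.dist x a = 1 := SimpleGraph.dist_eq_one_iff_adj.2 hax.symm
    omega

/-- the four point inequality -/
theorem four_point (hT : T.IsTree) (a b c e : V) :
    T.dist a b + T.dist c e ≤ max (T.dist a c + T.dist b e) (T.dist a e + T.dist b c) := by
  induction hn : T.dist a b using Nat.strong_induction_on generalizing a with
  | _ n ih =>
    by_cases hab : a = b
    · subst hab
      rw [SimpleGraph.dist_self] at hn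
      have h1 : T.dist c e ≤ T.dist c a + T.dist a e := hT.1.dist_triangle
      rw [SimpleGraph.dist_comm (u := c) (v := a)] at h1
      apply le_max_of_le_left
      omega
    · obtain ⟨x, hx, hd, w, hw⟩ := exists_next hT.1 hab
      have h1 := ih (T.dist x b) (by omega) x rfl
      have hside : ∀ z : V, (∀ w' : T.Walk x z, a ∈ w'.support) →
          T.dist b z = T.dist b a + T.dist a z := by
        intro z hz
        apply dist_through hT.1
        intro w'
        by_contra hcon
        have := hz (w.append w')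
        rw [SimpleGraph.Walk.mem_support_append_iff] at this
        rcases this with h | h
        · exact hw h
        · exact hcon h
      have hba : T.dist b a = T.dist a b := SimpleGraph.dist_comm
      have hce : T.dist c e ≤ T.dist c a + T.dist a e := hT.1.dist_triangle
      have hca : T.dist c a = T.dist a c := SimpleGraph.dist_comm
      rcases dist_step hT hx c with ⟨-, h2⟩ | ⟨h2, -⟩
      · rcases dist_step hT hx e with ⟨-, h3⟩ | ⟨h3, -⟩
        · rcases le_max_iff.1 h1 with h4 | h4
          · apply le_max_of_le_left; omega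
          · apply le_max_of_le_right; omega
        · have h4 := hside e h3
          apply le_max_of_le_left
          omega
      · have h4 := hside c h2
        apply le_max_of_le_right
        omega

section action

variable {Γ : Type*} [Group Γ] [MulAction Γ V]

theorem dist_smul_le (hT : T.Connected)
    (hadj : ∀ (g : Γ) (u v : V), T.Adj u v → T.Adj (g • u) (g • v)) (g : Γ) (a b : V) :
    T.dist (g • a) (g • b) ≤ T.dist a b := by
  obtain ⟨w, hw⟩ := hT.exists_walk_length_eq_dist a b
  let f : T →g T := ⟨fun v => g • v, fun {u v} huv => hadj g u v huv⟩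
  have h1 := SimpleGraph.dist_le (w.map f)
  rw [SimpleGraph.Walk.length_map, hw] at h1
  exact h1

theorem dist_smul (hT : T.Connected)
    (hadj : ∀ (g : Γ) (u v : V), T.Adj u v → T.Adj (g • u) (g • v)) (g : Γ) (a b : V) :
    T.dist (g • a) (g • b) = T.dist a b := by
  apply le_antisymm (dist_smul_le hT hadj g a b)
  have := dist_smul_le hT hadj g⁻¹ (g • a) (g • b)
  rwa [inv_smul_smul, inv_smul_smul] at this

/-- image of a walk avoiding a vertex -/
theorem exists_walk_smul (hadj : ∀ (g : Γ) (u v : V), T.Adj u v → T.Adj (g • u) (g • v)) (g : Γ)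
    {a b v : V} (w : T.Walk a b) (hw : v ∉ w.support) :
    ∃ w' : T.Walk (g • a) (g • b), g • v ∉ w'.support := by
  let f : T →g T := ⟨fun v => g • v, fun {u v} huv => hadj g u v huv⟩
  refine ⟨w.map f, ?_⟩
  rw [SimpleGraph.Walk.support_map, List.mem_map]
  rintro ⟨x, hx, hxv⟩
  have : x = v := smul_left_cancel g hxv
  rw [this] at hx
  exact hw hx

/-- an element fixing `a` and `b` fixes the first vertex of the geodesic from `a` to `b` -/
theorem fix_next (hT : T.IsTree)
    (hadj : ∀ (g : Γ) (u v : V), T.Adj u v → T.Adj (g • u) (g • v)) {g : Γ} {a b x : V}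
    (ha : g • a = a) (hb : g • b = b) (hx : T.Adj a x) (w : T.Walk x b) (hw : a ∉ w.support) :
    g • x = x := by
  obtain ⟨w', hw'⟩ := exists_walk_smul hadj g w hw
  rw [ha] at hw'
  have hx' : T.Adj a (g • x) := by
    have := hadj g _ _ hx
    rwa [ha] at this
  symm
  refine neighbour_unique hT.2 (v := a) (w.append (w'.copy rfl hb).reverse) ?_ hx hx'
  rw [SimpleGraph.Walk.mem_support_append_iff, not_or]
  refine ⟨hw, ?_⟩
  rw [SimpleGraph.Walk.support_reverse, List.mem_reverse, SimpleGraph.Walk.support_copy]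
  exact hw'

/-- a hyperbolic element translates along an axis -/
theorem dist_sq (hT : T.IsTree)
    (hadj : ∀ (g : Γ) (u v : V), T.Adj u v → T.Adj (g • u) (g • v))
    (hinv : ∀ (g : Γ) (u v : V), T.Adj u v → ¬ (g • u = v ∧ g • v = u)) {γ : Γ} {v : V}
    (hfix : γ • v ≠ v) (hmin : ∀ w : V, T.dist v (γ • v) ≤ T.dist w (γ • w)) :
    T.dist v (γ • γ • v) = 2 * T.dist v (γ • v) := by
  set ℓ := T.dist v (γ • v) with hℓ
  obtain ⟨x, hx, hxd, w, hw⟩ := exists_next hT.1 (Ne.symm hfix)
  obtain ⟨a, ha, had, w', hw'⟩ := exists_next hT.1 hfix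
  obtain ⟨w₂, hw₂⟩ := exists_walk_smul hadj γ w hw
  have hγx : T.Adj (γ • v) (γ • x) := hadj γ _ _ hx
  by_cases hab : a = γ • x
  · exfalso
    by_cases hav : a = v
    · -- inversion
      have h1 : T.dist (γ • v) v = 1 := by
        rw [had, hav, SimpleGraph.dist_self]
      have h2 : T.dist v (γ • v) = 1 := by rw [SimpleGraph.dist_comm]; exact h1
      have h3 : T.dist x (γ • v) = 0 := by omega
      have h4 : x = γ • v := (hT.1.dist_eq_zero_iff).1 h3
      apply hinv γ v x hx
      exact ⟨h4.symm, by rw [← hab, hav]⟩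
    · have hwalk : ∃ w₃ : T.Walk x a, v ∉ w₃.support := by
        refine ⟨w.concat ha, ?_⟩
        rw [SimpleGraph.Walk.support_concat, List.mem_append, not_or]
        refine ⟨hw, ?_⟩
        simp only [List.mem_singleton]
        exact fun e => hav e.symm
      rcases dist_step hT hx a with ⟨-, h2⟩ | ⟨h2, -⟩
      · have h3 := hmin x
        rw [← hab] at h3
        have h4 : T.dist v a = T.dist a v := SimpleGraph.dist_comm
        have h5 : T.dist (γ • v) v = ℓ := by rw [SimpleGraph.dist_comm]
        omega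
      · obtain ⟨w₃, hw₃⟩ := hwalk
        exact hw₃ (h2 w₃)
  · have hthrough : ∀ w₃ : T.Walk v (γ • γ • v), γ • v ∈ w₃.support := by
      intro w₃
      by_contra hcon
      apply hab
      refine neighbour_unique hT.2 (v := γ • v) ((w'.append w₃).append w₂.reverse) ?_ ha hγx
      rw [SimpleGraph.Walk.mem_support_append_iff, SimpleGraph.Walk.mem_support_append_iff,
        SimpleGraph.Walk.support_reverse, List.mem_reverse]
      rintro ((h | h) | h)
      · exact hw' h
      · exact hcon h
      · exact hw₂ h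
    have h1 := dist_through hT.1 hthrough
    rw [dist_smul hT.1 hadj] at h1
    rw [h1]
    omega

theorem dist_pow (hT : T.IsTree)
    (hadj : ∀ (g : Γ) (u v : V), T.Adj u v → T.Adj (g • u) (g • v)) {γ : Γ} {v : V}
    (hpos : 0 < T.dist v (γ • v)) (h2 : T.dist v (γ • γ • v) = 2 * T.dist v (γ • v)) (k : ℕ) :
    T.dist v (γ ^ k • v) = k * T.dist v (γ • v) ∧
      T.dist v (γ ^ (k + 1) • v) = (k + 1) * T.dist v (γ • v) := by
  induction k with
  | zero => simp
  | succ k ih =>
    refine ⟨by simpa using ih.2, ?_⟩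
    set ℓ := T.dist v (γ • v) with hℓ
    have e1 : T.dist (γ ^ k • v) (γ ^ (k + 1) • v) = ℓ := by
      rw [pow_succ, mul_smul, dist_smul hT.1 hadj]
    have e2 : T.dist (γ ^ (k + 1) • v) (γ ^ (k + 1 + 1) • v) = ℓ := by
      rw [pow_succ γ (k + 1), mul_smul, dist_smul hT.1 hadj]
    have e3 : T.dist (γ ^ k • v) (γ ^ (k + 1 + 1) • v) = 2 * ℓ := by
      have : γ ^ (k + 1 + 1) = γ ^ k * (γ * γ) := by
        rw [pow_succ, pow_succ]; group
      rw [this, mul_smul, mul_smul, dist_smul hT.1 hadj, h2]
    have h4 := four_point hT v (γ ^ (k + 1) • v) (γ ^ k • v) (γ ^ (k + 1 + 1) • v)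
    have h5 : T.dist v (γ ^ (k + 1 + 1) • v) ≤ T.dist v (γ ^ (k + 1) • v) +
      T.dist (γ ^ (k + 1) • v) (γ ^ (k + 1 + 1) • v) := hT.1.dist_triangle
    have e4 : T.dist (γ ^ (k + 1) • v) (γ ^ k • v) = ℓ := by
      rw [SimpleGraph.dist_comm]; exact e1
    rw [e2, e3, e4] at h4
    rw [e2] at h5
    rw [ih.1, ih.2] at h4
    rw [ih.2] at h5
    rcases le_max_iff.1 h4 with h6 | h6 <;> nlinarith

/-- a vertex of minimal displacement lies on the axis -/
theorem on_axis (hT : T.IsTree)
    (hadj : ∀ (g : Γ) (u v : V), T.Adj u v → T.Adj (g • u) (g • v)) {γ : Γ} {v : V}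
    (hpos : 0 < T.dist v (γ • v)) (h2 : T.dist v (γ • γ • v) = 2 * T.dist v (γ • v)) (w : V)
    (hw : T.dist w (γ • w) = T.dist v (γ • v)) :
    ∃ k : ℤ, T.dist w (γ ^ k • v) + T.dist w (γ ^ (k + 1) • v) = T.dist v (γ • v) := by
  classical
  set ℓ := T.dist v (γ • v) with hℓ
  set f : ℤ → ℕ := fun k => T.dist w (γ ^ k • v) with hf
  have hex : ∃ m : ℕ, ∃ k : ℤ, f k = m := ⟨f 0, 0, rfl⟩
  obtain ⟨k, hk⟩ := Nat.find_spec hex
  have hmin : ∀ j : ℤ, f k ≤ f j := by
    intro j
    rw [hk]
    exact Nat.find_min' hex ⟨j, rfl⟩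
  have hs1 : ∀ j : ℤ, T.dist (γ ^ j • v) (γ ^ (j + 1) • v) = ℓ := by
    intro j
    rw [zpow_add_one, mul_smul, dist_smul hT.1 hadj]
  have hs2 : T.dist (γ ^ (k - 1) • v) (γ ^ (k + 1) • v) = 2 * ℓ := by
    have : γ ^ (k + 1) = γ ^ (k - 1) * (γ * γ) := by
      rw [zpow_add_one, zpow_sub_one]; group
    rw [this, mul_smul, mul_smul, dist_smul hT.1 hadj, h2]
  have hs3 : ∀ j : ℤ, T.dist (γ • w) (γ ^ (j + 1) • v) = f j := by
    intro j
    have : γ ^ (j + 1) = γ * γ ^ j := by rw [zpow_add_one]; group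
    rw [this, mul_smul, dist_smul hT.1 hadj]
  have e1 : T.dist (γ ^ (k - 1) • v) w = f (k - 1) := SimpleGraph.dist_comm
  have e2 : T.dist (γ ^ (k + 1) • v) (γ ^ k • v) = ℓ := by
    rw [SimpleGraph.dist_comm]; exact hs1 k
  have e3 : T.dist (γ ^ (k - 1) • v) (γ ^ k • v) = ℓ := by
    have := hs1 (k - 1)
    rwa [sub_add_cancel] at this
  have e4 : T.dist (γ ^ (k + 1) • v) w = f (k + 1) := SimpleGraph.dist_comm
  have e5 : T.dist w (γ ^ k • v) = f k := rfl
  have I1 := four_point hT (γ ^ (k - 1) • v) (γ ^ (k + 1) • v) w (γ ^ k • v)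
  rw [hs2, e1, e2, e3, e4, e5] at I1
  have I2 := four_point hT w (γ ^ (k + 1) • v) (γ • w) (γ ^ k • v)
  have e6 : T.dist w (γ ^ (k + 1) • v) = f (k + 1) := rfl
  have e7 : T.dist (γ • w) (γ ^ k • v) = f (k - 1) := by
    have := hs3 (k - 1)
    rwa [sub_add_cancel] at this
  have e8 : T.dist (γ ^ (k + 1) • v) (γ • w) = f k := by
    rw [SimpleGraph.dist_comm]; exact hs3 k
  rw [e6, e7, hw, e2, e5, e8] at I2
  have m1 := hmin (k - 1)
  have m2 := hmin (k + 1)
  have t1 : ℓ ≤ f (k - 1) + f k := by
    have h5 : T.dist (γ ^ (k - 1) • v) (γ ^ k • v) ≤ T.dist (γ ^ (k - 1) • v) w +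
      T.dist w (γ ^ k • v) := hT.1.dist_triangle
    rw [e3, e1, e5] at h5
    exact h5
  have t2 : ℓ ≤ f k + f (k + 1) := by
    have h5 : T.dist (γ ^ (k + 1) • v) (γ ^ k • v) ≤ T.dist (γ ^ (k + 1) • v) w +
      T.dist w (γ ^ k • v) := hT.1.dist_triangle
    rw [e2, e4, e5] at h5
    omega
  rcases le_max_iff.1 I1 with h6 | h6
  · refine ⟨k, ?_⟩
    show f k + f (k + 1) = ℓ
    rcases le_max_iff.1 I2 with h7 | h7 <;> omega
  · refine ⟨k - 1, ?_⟩
    rw [sub_add_cancel]
    show f (k - 1) + f k = ℓ
    rcases le_max_iff.1 I2 with h7 | h7 <;> omega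

/-- finitely many vertices lie between two vertices -/
theorem between_finite (hT : T.IsTree) (a b : V) :
    {x : V | T.dist x a + T.dist x b = T.dist a b}.Finite := by
  have hinj : Set.InjOn (fun x => T.dist x a) {x : V | T.dist x a + T.dist x b = T.dist a b} := by
    intro x hx y hy hxy
    have hx' : T.dist x a + T.dist x b = T.dist a b := hx
    have hy' : T.dist y a + T.dist y b = T.dist a b := hy
    have hxy' : T.dist x a = T.dist y a := hxy
    have h1 := four_point hT a b x y
    have e1 : T.dist a x = T.dist x a := SimpleGraph.dist_comm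
    have e2 : T.dist b y = T.dist y b := SimpleGraph.dist_comm
    have e3 : T.dist a y = T.dist y a := SimpleGraph.dist_comm
    have e4 : T.dist b x = T.dist x b := SimpleGraph.dist_comm
    rw [e1, e2, e3, e4] at h1
    have h2 : T.dist x y = 0 := by
      rcases le_max_iff.1 h1 with h3 | h3 <;> omega
    exact (hT.1.dist_eq_zero_iff).1 h2
  refine Set.Finite.of_finite_image ((Set.finite_Iic (T.dist a b)).subset ?_) hinj
  rintro _ ⟨x, hx, rfl⟩
  have hx' : T.dist x a + T.dist x b = T.dist a b := hx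
  show T.dist x a ≤ T.dist a b
  omega

end action

end Helper33.NCP
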